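import Mathlib

set_option autoImplicit false

namespace Pool.Agent.P.MP_2c0ed3_al

universe u

section Defs

variable (F : Type u) [Field F] (A : Type u) [LieRing A] [LieAlgebra F A]

/-- Engel in the sense of the problem file: for all `x, y` some iterate `[..[[y,x],x],..,x]`
with `n ≥ 1` brackets vanishes; `n` may depend on `x` and `y`. -/
def IsEngel : Prop :=
  ∀ x y : A, ∃ n : ℕ, 1 ≤ n ∧ (fun z : A => ⁅z, x⁆)^[n] y = 0

/-- A Lie ideal `I` is locally nilpotent: every Lie subalgebra generated by finitely many
elements of `I` is nilpotent. -/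
def IsLocNilLieIdeal (I : LieIdeal F A) : Prop :=
  ∀ s : Finset A, (∀ x ∈ s, x ∈ I) →
    LieRing.IsNilpotent (LieSubalgebra.lieSpan F A (s : Set A))

/-- `L(A)`: the sum of all locally nilpotent ideals of the Lie algebra `A`. -/
def lieRadical : LieIdeal F A :=
  sSup {I : LieIdeal F A | IsLocNilLieIdeal F A I}

/-- Right multiplication `R_a : x ↦ [x, a]`. -/
def rightMul (a : A) : Module.End F A where
  toFun x := ⁅x, a⁆
  map_add' x y := add_lie x y a
  map_smul' c x := smul_lie c x a

/-- The multiplication algebra `A*`: the associative subalgebra (no identity adjoined) of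
`End_F(A)` generated by all `R_a`. -/
def multAlg : NonUnitalSubalgebra F (Module.End F A) :=
  NonUnitalAlgebra.adjoin F (Set.range (rightMul F A))

/-- `J` is a two-sided ideal of the algebra `A*`. -/
def IsMultIdeal (J : Submodule F (Module.End F A)) : Prop :=
  (∀ x ∈ J, x ∈ multAlg F A) ∧ ∀ x ∈ J, ∀ b ∈ multAlg F A, b * x ∈ J ∧ x * b ∈ J

/-- `J` is locally nilpotent as an associative algebra: for each finite subset `s` of `J` there is
`n ≥ 1` such that all products of `n` elements of the subalgebra generated by `s` vanish. -/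
def IsLocNilAssoc (J : Submodule F (Module.End F A)) : Prop :=
  ∀ s : Finset (Module.End F A), (∀ x ∈ s, x ∈ J) →
    ∃ n : ℕ, 1 ≤ n ∧ ∀ l : List (Module.End F A), l.length = n →
      (∀ x ∈ l, x ∈ NonUnitalAlgebra.adjoin F (s : Set (Module.End F A))) → l.prod = 0

/-- `L(A*)`: the sum of all locally nilpotent ideals of `A*` (the Levitzki radical). -/
def multRadical : Submodule F (Module.End F A) :=
  sSup {J : Submodule F (Module.End F A) | IsMultIdeal F A J ∧ IsLocNilAssoc F A J}

end Defs

end Pool.Agent.P.MP_2c0ed3_al
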