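import Mathlib

set_option autoImplicit false

/-! The Golod-Shafarevich inequality for three generators. -/

namespace Pool.Agent.P.MP_2c0ed3_al

open Module Submodule

universe u

variable (F : Type u) [Field F]

/-- The free vector space on words. -/
abbrev U : Type u := List (Fin 3) →₀ F

/-- Left concatenation with a word. -/
noncomputable def wd (u : List (Fin 3)) : End F (U F) := Finsupp.lmapDomain F F (fun v => u ++ v)

/-- The span of the words of length `n`. -/
noncomputable def G (n : ℕ) : Submodule F (U F) :=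
  Finsupp.supported F F {l : List (Fin 3) | l.length = n}

/-- The span of the concatenation operators of words of length `d`. -/
noncomputable def H (d : ℕ) : Submodule F (End F (U F)) :=
  span F {x | ∃ u : List (Fin 3), u.length = d ∧ x = wd F u}

variable {F}

theorem wd_single (u v : List (Fin 3)) (c : F) :
    wd F u (Finsupp.single v c) = Finsupp.single (u ++ v) c := by
  simp [wd, Finsupp.mapDomain_single]

theorem wd_append (u v : List (Fin 3)) : wd F (u ++ v) = wd F u * wd F v := by
  ext w : 2
  simp [wd_single]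

theorem wd_nil : wd F [] = 1 := by
  ext w : 2
  simp [wd_single]

theorem single_mem_G (v : List (Fin 3)) : Finsupp.single v (1 : F) ∈ G F v.length :=
  Finsupp.single_mem_supported F 1 rfl

theorem G_eq_span (n : ℕ) :
    G F n = span F ((fun v => Finsupp.single v (1 : F)) '' {l : List (Fin 3) | l.length = n}) :=
  Finsupp.supported_eq_span_single F _

theorem finrank_G (n : ℕ) : finrank F (G F n) = 3 ^ n := by
  have e : {l : List (Fin 3) | l.length = n} ≃ List.Vector (Fin 3) n := Equiv.refl _
  let _ : Fintype {l : List (Fin 3) | l.length = n} := Fintype.ofEquiv _ e.symm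
  rw [G, (Finsupp.supportedEquivFinsupp (R := F) (M := F) _).finrank_eq, finrank_finsupp_self,
    Fintype.card_congr e, card_vector, Fintype.card_fin]

instance finite_G (n : ℕ) : Module.Finite F (G F n) :=
  have := Module.Free.of_divisionRing F (G F n)
  Module.finite_of_finrank_pos (by rw [finrank_G]; positivity)

theorem wd_mem_G (u : List (Fin 3)) {n : ℕ} {x : U F} (hx : x ∈ G F n) :
    wd F u x ∈ G F (u.length + n) := by
  rw [G_eq_span] at hx
  induction hx using span_induction with
  | mem x hx =>
    obtain ⟨v, hv, rfl⟩ := hx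
    rw [wd_single]
    have := single_mem_G (F := F) (u ++ v)
    rwa [List.length_append, show v.length = n from hv] at this
  | zero => simp
  | add x y _ _ hx hy => rw [map_add]; exact add_mem hx hy
  | smul c x _ hx => rw [map_smul]; exact smul_mem _ _ hx

theorem H_mem_G {d n : ℕ} {r : End F (U F)} (hr : r ∈ H F d) {x : U F} (hx : x ∈ G F n) :
    r x ∈ G F (d + n) := by
  induction hr using span_induction with
  | mem r hr => obtain ⟨u, rfl, rfl⟩ := hr; exact wd_mem_G u hx
  | zero => simp
  | add x y _ _ hx hy => exact add_mem hx hy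
  | smul c x _ hx => exact smul_mem _ _ hx

theorem finrank_finset_sup_le {V : Type u} [AddCommGroup V] [Module F V] {ι : Type*}
    (s : Finset ι) (P : ι → Submodule F V) [∀ i, Module.Finite F (P i)] :
    finrank F (s.sup P : Submodule F V) ≤ ∑ i ∈ s, finrank F (P i) := by
  classical
  induction s using Finset.induction_on with
  | empty => simp
  | insert a s ha ih =>
    rw [Finset.sup_insert, Finset.sum_insert ha]
    exact (finrank_add_le_finrank_add_finrank _ _).trans (by omega)

section Rel

variable {ι : Type*} (r : ι → End F (U F)) (deg : ι → ℕ)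

/-- The degree `n` part of the submodule of relations. -/
noncomputable def Kn (n : ℕ) : Submodule F (U F) :=
  span F {x | ∃ (u : List (Fin 3)) (i : ι) (v : List (Fin 3)),
    u.length + deg i + v.length = n ∧ x = wd F u (r i (Finsupp.single v 1))}

variable {r deg}

theorem Kn_le_G (hr : ∀ i, r i ∈ H F (deg i)) (n : ℕ) : Kn r deg n ≤ G F n := by
  rw [Kn, span_le]
  rintro x ⟨u, i, v, rfl, rfl⟩
  rw [add_assoc]
  exact wd_mem_G u (H_mem_G (hr i) (single_mem_G v))

theorem wd_mem_Kn (u : List (Fin 3)) {n : ℕ} {x : U F} (hx : x ∈ Kn r deg n) :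
    wd F u x ∈ Kn r deg (u.length + n) := by
  induction hx using span_induction with
  | mem x hx =>
    obtain ⟨u', i, v, rfl, rfl⟩ := hx
    refine subset_span ⟨u ++ u', i, v, by simp; ring, ?_⟩
    rw [wd_append]; rfl
  | zero => simp
  | add x y _ _ hx hy => rw [map_add]; exact add_mem hx hy
  | smul c x _ hx => rw [map_smul]; exact smul_mem _ _ hx

theorem H_succ_mem {d n : ℕ} {s : End F (U F)} (hs : s ∈ H F (d + 1)) {x : U F}
    (hx : x ∈ Kn r deg n) :
    s x ∈ Finset.univ.sup fun i : Fin 3 => (Kn r deg (d + n)).map (wd F [i]) := by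
  induction hs using span_induction with
  | mem s hs =>
    obtain ⟨u, hu, rfl⟩ := hs
    cases u with
    | nil => simp at hu
    | cons i u =>
      have hu' : u.length = d := by simpa using hu
      have e : wd F (i :: u) = wd F [i] * wd F u := wd_append [i] u
      rw [e]
      refine Finset.le_sup (f := fun i : Fin 3 => (Kn r deg (d + n)).map (wd F [i]))
        (Finset.mem_univ i) ?_
      exact mem_map_of_mem (hu' ▸ wd_mem_Kn u hx)
  | zero => simp
  | add x y _ _ hx hy => exact add_mem hx hy
  | smul c x _ hx => exact smul_mem _ _ hx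

theorem exists_compl (hr : ∀ i, r i ∈ H F (deg i)) (n : ℕ) :
    ∃ C : Submodule F (U F), C ≤ G F n ∧ G F n ≤ Kn r deg n ⊔ C ∧
      finrank F (Kn r deg n) + finrank F C = 3 ^ n := by
  obtain ⟨C, hC⟩ := Submodule.exists_isCompl (Kn r deg n)
  have hK := Kn_le_G hr n
  have : Module.Finite F (Kn r deg n) := finiteDimensional_of_le hK
  have : Module.Finite F (C ⊓ G F n : Submodule F (U F)) := finiteDimensional_of_le inf_le_right
  have h1 : Kn r deg n ⊔ C ⊓ G F n = G F n := by
    rw [← sup_inf_assoc_of_le _ hK, hC.sup_eq_top, top_inf_eq]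
  refine ⟨C ⊓ G F n, inf_le_right, h1.ge, ?_⟩
  have h2 := finrank_sup_add_finrank_inf_eq (Kn r deg n) (C ⊓ G F n)
  rw [h1, ← inf_assoc, hC.inf_eq_bot, bot_inf_eq, finrank_bot, finrank_G] at h2
  omega

theorem Kn_zero (hd : ∀ i, 1 ≤ deg i) : Kn r deg 0 = ⊥ := by
  rw [Kn, span_eq_bot]
  rintro x ⟨u, i, v, h, -⟩
  have := hd i
  omega

theorem Kn_succ_le (hr : ∀ i, r i ∈ H F (deg i)) (hd : ∀ i, 1 ≤ deg i) (n : ℕ) (S : Finset ι)
    (hS : ∀ i, deg i ≤ n + 1 → i ∈ S) (C : ℕ → Submodule F (U F))
    (hC : ∀ m, G F m ≤ Kn r deg m ⊔ C m) :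
    Kn r deg (n + 1) ≤ (Finset.univ.sup fun i : Fin 3 => (Kn r deg n).map (wd F [i])) ⊔
      (S.filter fun i => deg i ≤ n + 1).sup fun i => (C (n + 1 - deg i)).map (r i) := by
  rw [Kn, span_le]
  rintro x ⟨u, i, v, h, rfl⟩
  cases u with
  | cons j u =>
    refine mem_sup_left ?_
    have e : wd F (j :: u) = wd F [j] * wd F u := wd_append [j] u
    rw [e]
    refine Finset.le_sup (f := fun i : Fin 3 => (Kn r deg n).map (wd F [i]))
      (Finset.mem_univ j) ?_
    refine mem_map_of_mem (subset_span ⟨u, i, v, ?_, rfl⟩)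
    simp at h; omega
  | nil =>
    rw [wd_nil]
    simp only [List.length_nil, zero_add] at h
    obtain ⟨k, hk, c, hc, e⟩ := mem_sup.mp (hC v.length (single_mem_G v))
    rw [← e]
    simp only [End.one_apply, map_add]
    refine add_mem (mem_sup_left ?_) (mem_sup_right ?_)
    · obtain ⟨d, hd'⟩ : ∃ d, deg i = d + 1 := ⟨deg i - 1, by have := hd i; omega⟩
      have := H_succ_mem (r := r) (deg := deg) (hd' ▸ hr i) hk
      rwa [show d + v.length = n by omega] at this
    · refine Finset.le_sup (f := fun i => (C (n + 1 - deg i)).map (r i))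
        (Finset.mem_filter.mpr ⟨hS i (by omega), by omega⟩) ?_
      refine mem_map_of_mem ?_
      rwa [show n + 1 - deg i = v.length by omega]

/-- The Golod-Shafarevich theorem: sparse relations leave every degree nonzero. -/
theorem golod_shafarevich (hr : ∀ i, r i ∈ H F (deg i)) (hd : ∀ i, 1 ≤ deg i)
    (S : ℕ → Finset ι) (hS : ∀ n i, deg i ≤ n → i ∈ S n)
    (hw : ∀ n, ∑ i ∈ S n, (1 / 2 : ℝ) ^ (deg i - 1) ≤ 1) (n : ℕ) :
    finrank F (Kn r deg n) < 3 ^ n := by
  choose C hC1 hC2 hC3 using exists_compl (r := r) (deg := deg) hr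
  have hKf : ∀ m, Module.Finite F (Kn r deg m) := fun m =>
    finiteDimensional_of_le (Kn_le_G hr m)
  have hCf : ∀ m, Module.Finite F (C m) := fun m => finiteDimensional_of_le (hC1 m)
  set a : ℕ → ℕ := fun m => finrank F (C m) with ha
  have step : ∀ m, 3 * a m ≤ a (m + 1) +
      ∑ i ∈ (S (m + 1)).filter (fun i => deg i ≤ m + 1), a (m + 1 - deg i) := by
    intro m
    have h1 := finrank_mono (Kn_succ_le hr hd m (S (m + 1)) (hS (m + 1)) C hC2)
    have h2 := finrank_add_le_finrank_add_finrank
      (Finset.univ.sup fun i : Fin 3 => (Kn r deg m).map (wd F [i]))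
      (((S (m + 1)).filter fun i => deg i ≤ m + 1).sup fun i => (C (m + 1 - deg i)).map (r i))
    have h3 := finrank_finset_sup_le (F := F) Finset.univ
      (fun i : Fin 3 => (Kn r deg m).map (wd F [i]))
    have h4 := finrank_finset_sup_le (F := F) ((S (m + 1)).filter fun i => deg i ≤ m + 1)
      (fun i => (C (m + 1 - deg i)).map (r i))
    have h5 : ∑ i : Fin 3, finrank F ((Kn r deg m).map (wd F [i])) ≤
        3 * finrank F (Kn r deg m) := by
      calc _ ≤ ∑ _i : Fin 3, finrank F (Kn r deg m) :=
            Finset.sum_le_sum fun i _ => finrank_map_le _ _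
        _ = _ := by simp
    have h6 : ∑ i ∈ (S (m + 1)).filter (fun i => deg i ≤ m + 1),
        finrank F ((C (m + 1 - deg i)).map (r i)) ≤
        ∑ i ∈ (S (m + 1)).filter (fun i => deg i ≤ m + 1), a (m + 1 - deg i) :=
      Finset.sum_le_sum fun i _ => finrank_map_le _ _
    have h7 := hC3 m
    have h8 := hC3 (m + 1)
    have h9 : (3 : ℕ) ^ (m + 1) = 3 * 3 ^ m := by ring
    have h10 : finrank F (Kn r deg (m + 1)) ≤ 3 * finrank F (Kn r deg m) +
        ∑ i ∈ (S (m + 1)).filter (fun i => deg i ≤ m + 1), a (m + 1 - deg i) :=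
      h1.trans (h2.trans (add_le_add (h3.trans h5) (h4.trans h6)))
    simp only [ha] at *
    omega
  have dbl : ∀ m, ∀ k, k < m → 2 * a k ≤ a (k + 1) := by
    intro m
    induction m with
    | zero => intro k hk; omega
    | succ m ih =>
      intro k hk
      rcases Nat.lt_succ_iff_lt_or_eq.mp hk with h | rfl
      · exact ih k h
      have geo : ∀ j, j ≤ k → (a (k - j) : ℝ) ≤ a k * (1 / 2) ^ j := by
        intro j
        induction j with
        | zero => intro _; simp
        | succ j ihj =>
          intro hj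
          have h1 := ihj (by omega)
          have h2 := ih (k - (j + 1)) (by omega)
          rw [show k - (j + 1) + 1 = k - j by omega] at h2
          have h3 : (2 : ℝ) * a (k - (j + 1)) ≤ a (k - j) := by exact_mod_cast h2
          rw [pow_succ]
          linarith
      have h1 : ((∑ i ∈ (S (k + 1)).filter (fun i => deg i ≤ k + 1), a (k + 1 - deg i) : ℕ) : ℝ)
          ≤ a k := by
        push_cast
        calc _ ≤ ∑ i ∈ (S (k + 1)).filter (fun i => deg i ≤ k + 1),
              (a k : ℝ) * (1 / 2) ^ (deg i - 1) := by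
              refine Finset.sum_le_sum fun i hi => ?_
              have h1 := (Finset.mem_filter.mp hi).2
              have h2 := hd i
              have := geo (deg i - 1) (by omega)
              rwa [show k - (deg i - 1) = k + 1 - deg i by omega] at this
          _ ≤ ∑ i ∈ S (k + 1), (a k : ℝ) * (1 / 2) ^ (deg i - 1) :=
              Finset.sum_le_sum_of_subset_of_nonneg (Finset.filter_subset _ _)
                fun i _ _ => by positivity
          _ = a k * ∑ i ∈ S (k + 1), (1 / 2 : ℝ) ^ (deg i - 1) := by rw [Finset.mul_sum]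
          _ ≤ a k * 1 := mul_le_mul_of_nonneg_left (hw _) (by positivity)
          _ = a k := mul_one _
      have h2 : ∑ i ∈ (S (k + 1)).filter (fun i => deg i ≤ k + 1), a (k + 1 - deg i) ≤ a k := by
        exact_mod_cast h1
      have := step k
      omega
  have pos : ∀ m, 1 ≤ a m := by
    intro m
    induction m with
    | zero =>
      have := hC3 0
      rw [Kn_zero hd, finrank_bot] at this
      simp only [ha]; omega
    | succ m ih => have := dbl (m + 1) m (by omega); omega
  have h1 := pos n
  have h2 := hC3 n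
  simp only [ha] at h1
  omega

end Rel

end Pool.Agent.P.MP_2c0ed3_al
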