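import Pool.Agent.P.MP_2c0ed3_al.GS1

set_option autoImplicit false

/-! Golod's nil algebra, acting on an infinite-dimensional cyclic module. -/

namespace Pool.Agent.P.MP_2c0ed3_al

open Module Submodule

universe u

/-- Parameters for the words of length between `1` and `t`. -/
abbrev Mon (t : ℕ) : Type := Fin t × (Fin t → Fin 3)

/-- The word with given parameters. -/
def word {t : ℕ} (m : Mon t) : List (Fin 3) := (List.ofFn m.2).take (m.1 + 1)

theorem length_word {t : ℕ} (m : Mon t) : (word m).length = m.1 + 1 := by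
  have := m.1.2
  simp [word]

theorem exists_word {t : ℕ} (u : List (Fin 3)) (h1 : 1 ≤ u.length) (h2 : u.length ≤ t) :
    ∃ m : Mon t, word m = u := by
  refine ⟨(⟨u.length - 1, by omega⟩, fun i => u.getD i 0), ?_⟩
  apply List.ext_getElem
  · rw [length_word]; simp; omega
  · intro i h3 h4
    simp [word, h4]

theorem exists_q (J t : ℕ) : ∃ q : ℕ, t + 1 ≤ q ∧ ((q + 1 : ℝ)) ^ J * (1 / 2) ^ (q - 1) ≤
    (1 / 2) ^ (t + 1) := by
  have h := tendsto_pow_const_div_const_pow_of_one_lt J (r := 2) (by norm_num)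
  have h2 := h.eventually (gt_mem_nhds (show (0 : ℝ) < (1 / 2) ^ (t + 3) by positivity))
  obtain ⟨N, hN⟩ := Filter.eventually_atTop.mp h2
  refine ⟨N + t + 1, by omega, ?_⟩
  have h3 := (hN (N + t + 2) (by omega)).le
  rw [show N + t + 1 - 1 = N + t by omega]
  have e : (((N + t + 1 : ℕ) : ℝ) + 1) ^ J * (1 / 2) ^ (N + t) =
      4 * (((N + t + 2 : ℕ) : ℝ) ^ J / 2 ^ (N + t + 2)) := by
    push_cast
    rw [show (N : ℝ) + t + 1 + 1 = N + t + 2 by ring]
    field_simp
    rw [pow_add (2 : ℝ) (N + t) 2, one_div, inv_pow]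
    field_simp
    norm_num
  rw [e]
  calc _ ≤ 4 * (1 / 2 : ℝ) ^ (t + 3) := by linarith
    _ = _ := by ring

/-- The nilpotency exponent chosen for elements of degree at most `t`. -/
noncomputable def qq (t : ℕ) : ℕ := (exists_q (Fintype.card (Mon t)) t).choose

theorem qq_ge (t : ℕ) : t + 1 ≤ qq t := (exists_q (Fintype.card (Mon t)) t).choose_spec.1

theorem qq_bound (t : ℕ) : ((qq t + 1 : ℝ)) ^ Fintype.card (Mon t) * (1 / 2) ^ (qq t - 1) ≤
    (1 / 2) ^ (t + 1) := (exists_q (Fintype.card (Mon t)) t).choose_spec.2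

/-- Multiplicity function of a sequence. -/
def cnt {I : Type} [DecidableEq I] {q : ℕ} (f : Fin q → I) (i : I) : Fin (q + 1) :=
  ⟨(Finset.univ.filter fun j => f j = i).card,
    Nat.lt_succ_of_le ((Finset.card_filter_le _ _).trans (by simp))⟩

theorem prod_cnt {I : Type} [Fintype I] [DecidableEq I] {q : ℕ} (f : Fin q → I) {N : Type*}
    [CommMonoid N] (g : I → N) : ∏ j, g (f j) = ∏ i, g i ^ (cnt f i : ℕ) := by
  rw [← Finset.prod_fiberwise Finset.univ f (fun j => g (f j))]
  refine Finset.prod_congr rfl fun i _ => ?_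
  rw [Finset.prod_congr rfl (g := fun _ => g i), Finset.prod_const]
  · rfl
  · intro j hj
    rw [(Finset.mem_filter.mp hj).2]

theorem sum_cnt {I : Type} [Fintype I] [DecidableEq I] {q : ℕ} (f : Fin q → I)
    (g : I → ℕ) : ∑ j, g (f j) = ∑ i, (cnt f i : ℕ) * g i := by
  rw [← Finset.sum_fiberwise Finset.univ f (fun j => g (f j))]
  refine Finset.sum_congr rfl fun i _ => ?_
  rw [Finset.sum_congr rfl (g := fun _ => g i), Finset.sum_const]
  · rfl
  · intro j hj
    rw [(Finset.mem_filter.mp hj).2]

variable {F : Type u} [Field F]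

theorem sum_smul_pow {A : Type*} [Ring A] [Algebra F A] {I : Type} [Fintype I] (c : I → F)
    (x : I → A) (q : ℕ) : (∑ i, c i • x i) ^ q =
      ∑ f : Fin q → I, (∏ j, c (f j)) • (List.ofFn fun j => x (f j)).prod := by
  induction q with
  | zero => simp
  | succ q ih =>
    rw [pow_succ', ih, Finset.sum_mul_sum,
      ← (Fin.consEquiv fun _ : Fin (q + 1) => I).sum_comp, Fintype.sum_prod_type]
    refine Finset.sum_congr rfl fun i _ => Finset.sum_congr rfl fun f _ => ?_
    simp [Fin.consEquiv, Fin.prod_univ_succ, List.ofFn_succ, smul_smul, mul_comm]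

/-- Index type of the relations. -/
abbrev RI : Type := Σ t : ℕ, (Mon t → Fin (qq t + 1))

variable (F) in
/-- Golod's relations. -/
noncomputable def rel (i : RI) : End F (U F) :=
  ∑ f ∈ Finset.univ.filter (fun f : Fin (qq i.1) → Mon i.1 => cnt f = i.2),
    (List.ofFn fun j => wd F (word (f j))).prod

/-- Degrees of the relations. -/
noncomputable def rdeg (i : RI) : ℕ := max (∑ m, (i.2 m : ℕ) * (word m).length) (qq i.1)

theorem prod_wd (l : List (List (Fin 3))) : (l.map (wd F)).prod = wd F l.flatten := by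
  induction l with
  | nil => simp [wd_nil]
  | cons a l ih => simp [wd_append, ih]

theorem rel_mem (i : RI) : rel F i ∈ H F (rdeg i) := by
  refine Submodule.sum_mem _ fun f hf => subset_span ?_
  have hf' := (Finset.mem_filter.mp hf).2
  refine ⟨(List.ofFn fun j => word (f j)).flatten, ?_, ?_⟩
  · have h1 : (List.ofFn fun j => word (f j)).flatten.length = ∑ j, (word (f j)).length := by
      rw [List.length_flatten, List.map_ofFn, List.sum_ofFn]; rfl
    have h2 := sum_cnt f (fun m => (word m).length)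
    have h3 : qq i.1 ≤ ∑ j, (word (f j)).length := by
      calc qq i.1 = ∑ _j : Fin (qq i.1), 1 := by simp
        _ ≤ _ := Finset.sum_le_sum fun j _ => by rw [length_word]; omega
    rw [h1, rdeg, ← hf', ← h2, max_eq_left h3]
  · rw [← prod_wd, List.map_ofFn]; rfl

theorem one_le_rdeg (i : RI) : 1 ≤ rdeg i := by
  have := qq_ge i.1
  have : qq i.1 ≤ rdeg i := le_max_right _ _
  omega

theorem finrank_Kn_lt (n : ℕ) : finrank F (Kn (rel F) rdeg n) < 3 ^ n := by
  refine golod_shafarevich rel_mem one_le_rdeg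
    (fun n => (Finset.range n).sigma fun _ => Finset.univ) ?_ ?_ n
  · intro n i hi
    have := qq_ge i.1
    have : qq i.1 ≤ rdeg i := le_max_right _ _
    simp only [Finset.mem_sigma, Finset.mem_range, Finset.mem_univ, and_true]
    omega
  · intro n
    rw [Finset.sum_sigma]
    calc _ ≤ ∑ t ∈ Finset.range n, (1 / 2 : ℝ) ^ (t + 1) := by
          refine Finset.sum_le_sum fun t _ => le_trans ?_ (qq_bound t)
          calc _ ≤ ∑ _κ : Mon t → Fin (qq t + 1), (1 / 2 : ℝ) ^ (qq t - 1) := by
                refine Finset.sum_le_sum fun κ _ => ?_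
                have : qq t ≤ rdeg ⟨t, κ⟩ := le_max_right _ _
                exact pow_le_pow_of_le_one (by norm_num) (by norm_num) (by omega)
            _ = _ := by simp
      _ ≤ 1 := by
          have : ∀ n : ℕ, ∑ t ∈ Finset.range n, (1 / 2 : ℝ) ^ (t + 1) = 1 - (1 / 2) ^ n := by
            intro n
            induction n with
            | zero => simp
            | succ n ih => rw [Finset.sum_range_succ, ih]; ring
          rw [this]
          have : (0 : ℝ) ≤ (1 / 2) ^ n := by positivity
          linarith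

variable (F) in
/-- The submodule of all relations. -/
noncomputable def KK : Submodule F (U F) := ⨆ n, Kn (rel F) rdeg n

theorem wd_mem_KK (u : List (Fin 3)) {x : U F} (hx : x ∈ KK F) : wd F u x ∈ KK F := by
  refine iSup_induction (motive := fun x => wd F u x ∈ KK F) _ hx ?_ ?_ ?_
  · intro n x hx
    exact mem_iSup_of_mem _ (wd_mem_Kn u hx)
  · simp
  · intro x y hx hy
    rw [map_add]; exact add_mem hx hy

theorem rel_mem_KK (i : RI) (x : U F) : rel F i x ∈ KK F := by
  induction x using Finsupp.induction_linear with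
  | zero => simp
  | add x y hx hy => rw [map_add]; exact add_mem hx hy
  | single v c =>
    rw [← Finsupp.smul_single_one, map_smul]
    refine smul_mem _ _ (mem_iSup_of_mem (rdeg i + v.length) (subset_span ⟨[], i, v, by simp, ?_⟩))
    rw [wd_nil]; rfl

variable (F) in
/-- Projection on the degree `n` part. -/
noncomputable def pr (n : ℕ) : End F (U F) :=
  Finsupp.linearCombination F fun v => if v.length = n then Finsupp.single v 1 else 0

theorem pr_of_mem {n m : ℕ} {x : U F} (hx : x ∈ G F m) : pr F n x = if m = n then x else 0 := by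
  rw [G_eq_span] at hx
  induction hx using span_induction with
  | mem x hx =>
    obtain ⟨v, hv, rfl⟩ := hx
    have hv' : v.length = m := hv
    simp [pr, hv']
  | zero => simp
  | add x y _ _ hx hy => rw [map_add, hx, hy]; split_ifs <;> simp
  | smul c x _ hx => rw [map_smul, hx]; split_ifs <;> simp

theorem pr_mem_Kn (n : ℕ) {x : U F} (hx : x ∈ KK F) : pr F n x ∈ Kn (rel F) rdeg n := by
  refine iSup_induction (motive := fun x => pr F n x ∈ Kn (rel F) rdeg n) _ hx ?_ ?_ ?_
  · intro m x hx
    rw [pr_of_mem (Kn_le_G rel_mem m hx)]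
    split_ifs with h
    · exact h ▸ hx
    · simp
  · simp
  · intro x y hx hy
    rw [map_add]; exact add_mem hx hy

theorem exists_word_notMem (n : ℕ) :
    ∃ v : List (Fin 3), v.length = n ∧ Finsupp.single v (1 : F) ∉ Kn (rel F) rdeg n := by
  by_contra h
  push Not at h
  have h1 : G F n ≤ Kn (rel F) rdeg n := by
    rw [G_eq_span, span_le]
    rintro x ⟨v, hv, rfl⟩
    exact h v hv
  have : Module.Finite F (Kn (rel F) rdeg n) := finiteDimensional_of_le (Kn_le_G rel_mem n)
  have h2 := finrank_mono h1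
  rw [finrank_G] at h2
  exact absurd (finrank_Kn_lt (F := F) n) (by omega)

variable (F) in
/-- Span of the operators of words of length between `1` and `t`. -/
noncomputable def PP (t : ℕ) : Submodule F (End F (U F)) :=
  span F {x | ∃ u : List (Fin 3), 1 ≤ u.length ∧ u.length ≤ t ∧ x = wd F u}

theorem PP_mono {t t' : ℕ} (h : t ≤ t') : PP F t ≤ PP F t' :=
  span_mono fun _ ⟨u, h1, h2, h3⟩ => ⟨u, h1, h2.trans h, h3⟩

theorem PP_mul {t t' : ℕ} {x y : End F (U F)} (hx : x ∈ PP F t) (hy : y ∈ PP F t') :
    x * y ∈ PP F (t + t') := by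
  induction hx using span_induction with
  | mem x hx =>
    obtain ⟨u, h1, h2, rfl⟩ := hx
    induction hy using span_induction with
    | mem y hy =>
      obtain ⟨v, h3, h4, rfl⟩ := hy
      exact subset_span ⟨u ++ v, by simp; omega, by simp; omega, (wd_append u v).symm⟩
    | zero => simp
    | add x y _ _ hx hy => rw [mul_add]; exact add_mem hx hy
    | smul c x _ hx => rw [mul_smul_comm]; exact smul_mem _ _ hx
  | zero => simp
  | add x y _ _ hx hy => rw [add_mul]; exact add_mem hx hy
  | smul c x _ hx => rw [smul_mul_assoc]; exact smul_mem _ _ hx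

theorem PP_pow_mem {t : ℕ} {s : End F (U F)} (hs : s ∈ PP F t) (x : U F) :
    (s ^ qq t) x ∈ KK F := by
  have h1 : PP F t ≤ span F (Set.range fun m : Mon t => wd F (word m)) := by
    refine span_mono ?_
    rintro x ⟨u, h1, h2, rfl⟩
    obtain ⟨m, rfl⟩ := exists_word u h1 h2
    exact ⟨m, rfl⟩
  obtain ⟨c, rfl⟩ := (mem_span_range_iff_exists_fun F).mp (h1 hs)
  have e0 := sum_smul_pow (A := End F (U F)) c (fun m : Mon t => wd F (word m)) (qq t)
  refine (congrArg (fun s : End F (U F) => s x ∈ KK F) e0).mpr ?_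
  rw [← Finset.sum_fiberwise Finset.univ (fun f : Fin (qq t) → Mon t => cnt f)]
  rw [LinearMap.sum_apply]
  refine Submodule.sum_mem _ fun κ _ => ?_
  have e : ∑ f ∈ Finset.univ.filter (fun f : Fin (qq t) → Mon t => cnt f = κ),
      (∏ j, c (f j)) • (List.ofFn fun j => wd F (word (f j))).prod =
      (∏ m, c m ^ (κ m : ℕ)) • rel F ⟨t, κ⟩ := by
    rw [rel, Finset.smul_sum]
    refine Finset.sum_congr rfl fun f hf => ?_
    rw [prod_cnt f c, (Finset.mem_filter.mp hf).2]
  rw [e]
  exact smul_mem _ _ (rel_mem_KK _ _)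

variable (F) in
/-- The data extracted from the Golod-Shafarevich construction. -/
structure GSData where
  /-- the module -/
  W : Type u
  [g : AddCommGroup W]
  [m : Module F W]
  /-- the generators -/
  X : Fin 3 → End F W
  /-- the cyclic vector -/
  w0 : W
  /-- the degree filtration -/
  D : ℕ → Submodule F W
  D_zero : D 0 = span F {w0}
  D_mono : Monotone D
  X_mem : ∀ i a, ∀ v ∈ D a, X i v ∈ D (a + 1)
  w0_ne : w0 ≠ 0
  long : ∀ n, ∃ u : List (Fin 3), u.length = n + 1 ∧ (u.map X).prod w0 ∉ D n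
  nil : ∀ y ∈ NonUnitalAlgebra.adjoin F (Set.range X), IsNilpotent y

variable (F) in
/-- Action of a word on the quotient. -/
noncomputable def act (u : List (Fin 3)) : End F (U F ⧸ KK F) :=
  (KK F).mapQ (KK F) (wd F u) fun _ hx => wd_mem_KK u hx

theorem act_mk (u : List (Fin 3)) (x : U F) : act F u ((KK F).mkQ x) = (KK F).mkQ (wd F u x) :=
  rfl

theorem prod_act (u : List (Fin 3)) (x : U F) :
    (u.map fun i => act F [i]).prod ((KK F).mkQ x) = (KK F).mkQ (wd F u x) := by
  induction u with
  | nil => simp [wd_nil]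
  | cons i u ih =>
    rw [List.map_cons, List.prod_cons, End.mul_apply, ih, act_mk, ← End.mul_apply, ← wd_append]
    rfl

theorem pr_low {n : ℕ} {d : U F} (hd : d ∈ ⨆ m : Fin (n + 1), G F m) : pr F (n + 1) d = 0 := by
  refine iSup_induction (motive := fun x => pr F (n + 1) x = 0) _ hd ?_ ?_ ?_
  · intro m x hx
    have := m.2
    rw [pr_of_mem hx, if_neg (by omega)]
  · simp
  · intro x y hx hy
    rw [map_add, hx, hy, add_zero]

variable (F) in
theorem nonempty_GSData : Nonempty (GSData F) := by
  refine ⟨{ W := U F ⧸ KK F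
            X := fun i => act F [i]
            w0 := (KK F).mkQ (Finsupp.single [] 1)
            D := fun a => (⨆ m : Fin (a + 1), G F m).map (KK F).mkQ
            D_zero := ?_, D_mono := ?_, X_mem := ?_, w0_ne := ?_, long := ?_, nil := ?_ }⟩
  · have e : (⨆ m : Fin (0 + 1), G F m) = G F 0 := iSup_unique (ι := Fin 1) (f := fun m => G F m)
    rw [e, G_eq_span, map_span]
    congr 1
    ext x
    simp
  · intro a b hab
    refine map_mono (iSup_le fun m => ?_)
    exact le_iSup (fun m : Fin (b + 1) => G F m) ⟨m, by have := m.2; omega⟩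
  · rintro i a v ⟨x, hx, rfl⟩
    rw [act_mk]
    refine mem_map_of_mem ?_
    refine iSup_induction (motive := fun x => wd F [i] x ∈ ⨆ m : Fin (a + 1 + 1), G F m) _ hx
      ?_ ?_ ?_
    · intro m x hx
      refine mem_iSup_of_mem (⟨1 + m, by have := m.2; omega⟩ : Fin (a + 1 + 1)) ?_
      exact wd_mem_G [i] hx
    · simp
    · intro x y hx hy
      rw [map_add]; exact add_mem hx hy
  · intro h
    obtain ⟨v, hv, hv2⟩ := exists_word_notMem (F := F) 0
    rw [List.length_eq_zero_iff] at hv
    subst hv
    have h1 := pr_mem_Kn 0 ((Quotient.mk_eq_zero _).mp h)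
    rw [pr_of_mem (single_mem_G [])] at h1
    exact hv2 (by simpa using h1)
  · intro n
    obtain ⟨v, hv, hv2⟩ := exists_word_notMem (F := F) (n + 1)
    refine ⟨v, hv, ?_⟩
    rw [prod_act, wd_single, List.append_nil]
    rintro ⟨d, hd, e⟩
    have h1 : Finsupp.single v (1 : F) - d ∈ KK F := (Submodule.Quotient.eq _).mp e.symm
    have h2 := pr_mem_Kn (n + 1) h1
    rw [map_sub, pr_low hd, pr_of_mem (single_mem_G v), if_pos hv, sub_zero] at h2
    exact hv2 h2
  · intro y hy
    have key : ∃ t, ∃ s ∈ PP F t, ∀ x, y ((KK F).mkQ x) = (KK F).mkQ (s x) := by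
      induction hy using NonUnitalAlgebra.adjoin_induction with
      | mem y hy =>
        obtain ⟨i, rfl⟩ := hy
        exact ⟨1, wd F [i], subset_span ⟨[i], by simp, by simp, rfl⟩, fun x => act_mk _ _⟩
      | add y z _ _ hy hz =>
        obtain ⟨t, s, hs, h⟩ := hy
        obtain ⟨t', s', hs', h'⟩ := hz
        refine ⟨t + t', s + s', add_mem (PP_mono (by omega) hs) (PP_mono (by omega) hs'),
          fun x => ?_⟩
        rw [LinearMap.add_apply, LinearMap.add_apply, h, h', map_add]
      | zero => exact ⟨0, 0, zero_mem _, fun x => by simp⟩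
      | mul y z _ _ hy hz =>
        obtain ⟨t, s, hs, h⟩ := hy
        obtain ⟨t', s', hs', h'⟩ := hz
        refine ⟨t + t', s * s', PP_mul hs hs', fun x => ?_⟩
        rw [End.mul_apply, End.mul_apply, h', h]
      | smul c y _ hy =>
        obtain ⟨t, s, hs, h⟩ := hy
        refine ⟨t, c • s, smul_mem _ _ hs, fun x => ?_⟩
        rw [LinearMap.smul_apply, LinearMap.smul_apply, h, map_smul]
    obtain ⟨t, s, hs, h⟩ := key
    refine ⟨qq t, ?_⟩
    have h2 : ∀ n x, (y ^ n) ((KK F).mkQ x) = (KK F).mkQ ((s ^ n) x) := by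
      intro n
      induction n with
      | zero => intro x; simp
      | succ n ih => intro x; rw [pow_succ', pow_succ', End.mul_apply, End.mul_apply, ih, h]
    refine LinearMap.ext fun w => ?_
    obtain ⟨x, rfl⟩ := (KK F).mkQ_surjective w
    rw [h2]
    exact (Quotient.mk_eq_zero _).mpr (PP_pow_mem hs x)

end Pool.Agent.P.MP_2c0ed3_al
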