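import Pool.Agent.P.MP_2c0ed3_al.Defs

set_option autoImplicit false

/-! The Levitzki radical of the multiplication algebra is locally nilpotent. -/

namespace Pool.Agent.P.MP_2c0ed3_al

universe u

variable {F : Type u} [Field F] {A : Type u} [LieRing A] [LieAlgebra F A]

/-- Long products of elements of a finite subset vanish. -/
def LNil (J : Submodule F (Module.End F A)) : Prop :=
  ∀ s : Set (Module.End F A), s.Finite → s ⊆ J →
    ∃ n : ℕ, ∀ l : List (Module.End F A), n ≤ l.length → (∀ x ∈ l, x ∈ s) → l.prod = 0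

theorem LNil.of_isLocNil {J : Submodule F (Module.End F A)} (h : IsLocNilAssoc F A J) :
    LNil J := by
  intro s hs hJ
  obtain ⟨n, -, hn⟩ := h hs.toFinset (fun x hx => hJ (by simpa using hx))
  refine ⟨n, fun l hl hx => ?_⟩
  rw [← List.take_append_drop n l, List.prod_append, hn (l.take n) (by simp [hl]), zero_mul]
  intro x hx'
  exact NonUnitalAlgebra.subset_adjoin F (by simpa using hx x (List.mem_of_mem_take hx'))

theorem mul_prod_mem {J : Submodule F (Module.End F A)} (hJ : IsMultIdeal F A J)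
    (l : List (Module.End F A)) (hl : ∀ x ∈ l, x ∈ multAlg F A) {x : Module.End F A}
    (hx : x ∈ J) : x * l.prod ∈ J := by
  induction l generalizing x with
  | nil => simpa using hx
  | cons a l ih =>
    rw [List.prod_cons, ← mul_assoc]
    exact ih (fun y hy => hl y (List.mem_cons_of_mem _ hy)) (hJ.2 x hx a (hl a (by simp))).2

theorem IsMultIdeal.sup {J K : Submodule F (Module.End F A)} (hJ : IsMultIdeal F A J)
    (hK : IsMultIdeal F A K) : IsMultIdeal F A (J ⊔ K) := by
  constructor
  · intro x hx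
    obtain ⟨a, ha, b, hb, rfl⟩ := Submodule.mem_sup.mp hx
    exact add_mem (hJ.1 a ha) (hK.1 b hb)
  · intro x hx c hc
    obtain ⟨a, ha, b, hb, rfl⟩ := Submodule.mem_sup.mp hx
    rw [mul_add, add_mul]
    exact ⟨Submodule.add_mem_sup (hJ.2 a ha c hc).1 (hK.2 b hb c hc).1,
      Submodule.add_mem_sup (hJ.2 a ha c hc).2 (hK.2 b hb c hc).2⟩

theorem LNil.sup {J K : Submodule F (Module.End F A)} (hJ : IsMultIdeal F A J)
    (hK : IsMultIdeal F A K) (h1 : LNil J) (h2 : LNil K) : LNil (J ⊔ K) := by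
  intro s hs hsJ
  have hf : ∀ a : Module.End F A, ∃ b, a ∈ s → b ∈ J ∧ a - b ∈ K := by
    intro a
    by_cases ha : a ∈ s
    · obtain ⟨b, hb, c, hc, rfl⟩ := Submodule.mem_sup.mp (hsJ ha)
      exact ⟨b, fun _ => ⟨hb, by simpa using hc⟩⟩
    · exact ⟨0, fun h => absurd h ha⟩
  choose f hf using hf
  obtain ⟨n, hn⟩ := h1 (f '' s) (hs.image f) (by rintro _ ⟨a, ha, rfl⟩; exact (hf a ha).1)
  have hA : ∀ a ∈ s, a ∈ multAlg F A := fun a ha => (hJ.sup hK).1 a (hsJ ha)
  have diff : ∀ l : List (Module.End F A), (∀ x ∈ l, x ∈ s) → l.prod - (l.map f).prod ∈ K := by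
    intro l hl
    induction l with
    | nil => simp
    | cons a l ih =>
      have ha := hl a (by simp)
      have hl' : ∀ x ∈ l, x ∈ s := fun y hy => hl y (List.mem_cons_of_mem _ hy)
      have e : (a :: l).prod - ((a :: l).map f).prod =
          (a - f a) * l.prod + f a * (l.prod - (l.map f).prod) := by
        simp only [List.map_cons, List.prod_cons]; noncomm_ring
      rw [e]
      exact add_mem (mul_prod_mem hK l (fun x hx => hA x (hl' x hx)) (hf a ha).2)
        (hK.2 _ (ih hl') _ (hJ.1 _ (hf a ha).1)).1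
  have hfin : {l : List (Module.End F A) | l.length = n ∧ ∀ x ∈ l, x ∈ s}.Finite := by
    have := hs.to_subtype
    refine ((List.finite_length_eq s n).image (List.map Subtype.val)).subset ?_
    rintro l ⟨h1, h2⟩
    exact ⟨l.pmap Subtype.mk h2, by simpa using h1, by simp [List.map_pmap]⟩
  obtain ⟨m, hm⟩ := h2 _ (hfin.image List.prod) (by
    rintro _ ⟨l, ⟨h3, h4⟩, rfl⟩
    have h5 := diff l h4
    rw [hn (l.map f) (by simp [h3]) (by
      intro x hx
      obtain ⟨a, ha, rfl⟩ := List.mem_map.mp hx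
      exact ⟨a, h4 a ha, rfl⟩), sub_zero] at h5
    exact h5)
  have chunk : ∀ k : ℕ, ∀ l : List (Module.End F A), k * n ≤ l.length → (∀ x ∈ l, x ∈ s) →
      ∃ (l' : List (Module.End F A)) (r : Module.End F A), l'.length = k ∧
        (∀ x ∈ l', x ∈ List.prod '' {l : List (Module.End F A) | l.length = n ∧ ∀ x ∈ l, x ∈ s})
        ∧ l.prod = l'.prod * r := by
    intro k
    induction k with
    | zero => intro l _ _; exact ⟨[], l.prod, rfl, by simp, by simp⟩
    | succ k ih =>
      intro l hl hx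
      rw [Nat.succ_mul] at hl
      obtain ⟨l', r, h3, h4, h5⟩ := ih (l.drop n) (by simp; omega)
        (fun x hx' => hx x (List.mem_of_mem_drop hx'))
      refine ⟨(l.take n).prod :: l', r, by simp [h3], ?_, ?_⟩
      · intro x hx'
        rcases List.mem_cons.mp hx' with rfl | hx'
        · exact ⟨l.take n, ⟨by simp; omega, fun x hx' => hx x (List.mem_of_mem_take hx')⟩, rfl⟩
        · exact h4 x hx'
      · rw [List.prod_cons, mul_assoc, ← h5, ← List.prod_append, List.take_append_drop]
  refine ⟨m * n, fun l hl hx => ?_⟩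
  obtain ⟨l', r, h3, h4, h5⟩ := chunk m l hl hx
  rw [h5, hm l' h3.ge h4, zero_mul]

theorem exists_ideal_of_mem_multRadical {x : Module.End F A} (hx : x ∈ multRadical F A) :
    ∃ J : Submodule F (Module.End F A), IsMultIdeal F A J ∧ LNil J ∧ x ∈ J := by
  rw [multRadical, sSup_eq_iSup'] at hx
  refine Submodule.iSup_induction (motive := fun x =>
    ∃ J : Submodule F (Module.End F A), IsMultIdeal F A J ∧ LNil J ∧ x ∈ J) _ hx ?_ ?_ ?_
  · rintro ⟨J, hJ1, hJ2⟩ z hz
    exact ⟨J, hJ1, LNil.of_isLocNil hJ2, hz⟩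
  · refine ⟨⊥, ⟨?_, ?_⟩, ?_, by simp⟩
    · intro x hx
      rw [Submodule.mem_bot] at hx
      rw [hx]; exact zero_mem _
    · intro x hx b _
      rw [Submodule.mem_bot] at hx
      simp [hx]
    · intro s _ hs
      refine ⟨1, fun l hl hx => ?_⟩
      cases l with
      | nil => simp at hl
      | cons a l =>
        have : a = 0 := by simpa using hs (hx a (by simp))
        simp [this]
  · rintro a b ⟨J, hJ1, hJ2, ha⟩ ⟨K, hK1, hK2, hb⟩
    exact ⟨J ⊔ K, hJ1.sup hK1, LNil.sup hJ1 hK1 hJ2 hK2, Submodule.add_mem_sup ha hb⟩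

end Pool.Agent.P.MP_2c0ed3_al
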