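import Pool.Agent.P.MP_2c0ed3_al.GS2

set_option autoImplicit false

/-! Infinitely many commuting copies of the Golod-Shafarevich module. -/

namespace Pool.Agent.P.MP_2c0ed3_al

open Module Submodule

universe u

variable (F : Type u) [Field F]

/-- The algebraic data used by the main construction. -/
structure TData where
  /-- the one-level algebra -/
  B : Type u
  [rB : Ring B]
  [aB : Algebra F B]
  /-- the multi-level space -/
  T : Type u
  [gT : AddCommGroup T]
  [mT : Module F T]
  /-- the level embeddings -/
  io : ℕ → B →ₐ[F] End F T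
  comm : ∀ l l' a b, l ≠ l' → Commute (io l a) (io l' b)
  /-- the generators -/
  X : Fin 3 → B
  /-- the projections on the degree filtration -/
  pj : ℕ → B
  /-- the resets -/
  rs : ℕ → B
  /-- the long words -/
  u : ℕ → List (Fin 3)
  /-- the vacuum vector -/
  vac : T
  vac_ne : vac ≠ 0
  pj_vac : ∀ l, io l (pj 0) vac = vac
  pj_mono : ∀ a b, a ≤ b → pj b * pj a = pj a
  X_up : ∀ i a, pj (a + 1) * (X i * pj a) = X i * pj a
  rs_kill : ∀ l a, a ≤ l → rs l * pj a = 0
  rs_im : ∀ l, pj 0 * rs l = rs l
  u_len : ∀ l, (u l).length = l + 1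
  rs_u : ∀ l, rs l * (((u l).map X).prod * pj 0) = pj 0
  nil : ∀ y ∈ NonUnitalAlgebra.adjoin F (Set.range X), IsNilpotent y

variable {F}

section Tensor

variable {W : Type u} [AddCommGroup W] [Module F W]

theorem exists_proj (P : Submodule F W) :
    ∃ p : End F W, (∀ v, p v ∈ P) ∧ ∀ v ∈ P, p v = v := by
  obtain ⟨Q, hQ⟩ := Submodule.exists_isCompl P
  refine ⟨P.subtype ∘ₗ P.projectionOnto Q hQ, fun v => (P.projectionOnto Q hQ v).2,
    fun v hv => ?_⟩
  have := projectionOnto_apply_left hQ ⟨v, hv⟩
  exact congrArg Subtype.val this

theorem exists_fun (P : Submodule F W) {x : W} (hx : x ∉ P) :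
    ∃ f : W →ₗ[F] F, f x = 1 ∧ ∀ v ∈ P, f v = 0 := by
  obtain ⟨f, h1, h2⟩ := P.exists_dual_map_eq_bot_of_notMem hx inferInstance
  refine ⟨(f x)⁻¹ • f, by simp [h1], fun v hv => ?_⟩
  have : f v ∈ P.map f := mem_map_of_mem hv
  rw [h2, mem_bot] at this
  simp [this]

open PiTensorProduct in
/-- The level embedding. -/
noncomputable def lev (l : ℕ) : End F W →ₐ[F] End F (PiTensorProduct F fun _ : ℕ => W) :=
  AlgHom.ofLinearMap
    ((mapMultilinear F (fun _ : ℕ => W) (fun _ : ℕ => W)).toLinearMap (fun _ => 1) l)
    (by simp [PiTensorProduct.map_one])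
    (by
      intro a b
      simp only [MultilinearMap.toLinearMap_apply, mapMultilinear_apply]
      rw [← PiTensorProduct.map_mul]
      congr 1
      funext j
      by_cases h : j = l
      · subst h; simp
      · simp [h])

theorem lev_apply (l : ℕ) (a : End F W) :
    lev l a = PiTensorProduct.map (Function.update (fun _ : ℕ => (1 : End F W)) l a) := rfl

theorem lev_comm {l l' : ℕ} (a b : End F W) (h : l ≠ l') : Commute (lev l a) (lev l' b) := by
  rw [Commute, SemiconjBy, lev_apply, lev_apply, ← PiTensorProduct.map_mul,
    ← PiTensorProduct.map_mul]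
  congr 1
  funext j
  by_cases h1 : j = l
  · subst h1; simp [h]
  · by_cases h2 : j = l'
    · subst h2; simp [h1]
    · simp [h1, h2]

open Classical in
/-- An infinite product functional. -/
noncomputable def inff (e : W →ₗ[F] F) (v : ℕ → W) : F :=
  if (Function.mulSupport fun j => e (v j)).Finite then ∏ᶠ j, e (v j) else 0

theorem inff_update (e : W →ₗ[F] F) (w : W) (hw : e w = 1) (v : ℕ → W) (i : ℕ) (x : W) :
    inff e (Function.update v i x) = e x * inff e (Function.update v i w) := by
  have key : ∀ y z : W, (Function.mulSupport fun j => e (Function.update v i y j)).Finite →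
      (Function.mulSupport fun j => e (Function.update v i z j)).Finite := by
    intro y z h
    refine (h.insert i).subset fun j hj => ?_
    by_cases h1 : j = i
    · exact Or.inl h1
    · refine Or.inr ?_
      simpa [h1] using hj
  by_cases h : (Function.mulSupport fun j => e (Function.update v i w j)).Finite
  · rw [inff, inff, if_pos h, if_pos (key _ _ h)]
    have h1 : (fun j => e (Function.update v i x j)) =
        fun j => Pi.mulSingle (M := fun _ => F) i (e x) j * e (Function.update v i w j) := by
      funext j
      by_cases h1 : j = i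
      · subst h1; simp [hw]
      · simp [h1]
    rw [h1, finprod_mul_distrib _ h, finprod_eq_single _ i]
    · simp
    · intro j hj; simp [hj]
    · exact (Set.finite_singleton i).subset (Pi.mulSupport_mulSingle_subset)
  · rw [inff, inff, if_neg h, if_neg (fun h' => h (key _ _ h')), mul_zero]

theorem tprod_ne_zero {w : W} (hw : w ≠ 0) :
    PiTensorProduct.tprod F (fun _ : ℕ => w) ≠ 0 := by
  obtain ⟨e, he, -⟩ := exists_fun (F := F) ⊥ (x := w) (by simpa using hw)
  let φ : MultilinearMap F (fun _ : ℕ => W) F :=
    { toFun := inff e
      map_update_add' := by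
        intro inst v i x y
        obtain rfl : inst = instDecidableEqNat := Subsingleton.elim _ _
        rw [inff_update e w he v i (x + y), inff_update e w he v i x, inff_update e w he v i y,
          map_add, add_mul]
      map_update_smul' := by
        intro inst v i c x
        obtain rfl : inst = instDecidableEqNat := Subsingleton.elim _ _
        rw [inff_update e w he v i (c • x), inff_update e w he v i x, map_smul, smul_eq_mul,
          smul_eq_mul, mul_assoc] }
  intro h
  have h1 := PiTensorProduct.lift.tprod (φ := φ) (fun _ : ℕ => w)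
  rw [h, map_zero] at h1
  have h2 : φ (fun _ : ℕ => w) = 1 := by
    change inff e _ = 1
    simp [inff, he]
  rw [h2] at h1
  exact zero_ne_one h1

end Tensor

variable (F) in
theorem nonempty_TData : Nonempty (TData F) := by
  obtain ⟨g⟩ := nonempty_GSData F
  let _ := g.g
  let _ := g.m
  choose pj hp1 hp2 using fun a => exists_proj (g.D a)
  choose u hu1 hu2 using g.long
  choose f hf1 hf2 using fun l => exists_fun (g.D l) (hu2 l)
  have hw : g.w0 ∈ g.D 0 := by rw [g.D_zero]; exact mem_span_singleton_self _
  refine ⟨{ B := End F g.W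
            T := PiTensorProduct F fun _ : ℕ => g.W
            io := lev
            comm := fun l l' a b h => lev_comm a b h
            X := g.X
            pj := pj
            rs := fun l => (f l).smulRight g.w0
            u := u
            vac := PiTensorProduct.tprod F fun _ : ℕ => g.w0
            vac_ne := tprod_ne_zero g.w0_ne
            pj_vac := ?_, pj_mono := ?_, X_up := ?_, rs_kill := ?_, rs_im := ?_
            u_len := hu1, rs_u := ?_, nil := g.nil }⟩
  · intro l
    rw [lev_apply, PiTensorProduct.map_tprod]
    congr 1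
    funext j
    by_cases h : j = l
    · subst h; simp [hp2 0 _ hw]
    · simp [h]
  · intro a b hab
    exact LinearMap.ext fun v => hp2 b _ (g.D_mono hab (hp1 a v))
  · intro i a
    exact LinearMap.ext fun v => hp2 (a + 1) _ (g.X_mem i a _ (hp1 a v))
  · intro l a h
    refine LinearMap.ext fun v => ?_
    simp [hf2 l _ (g.D_mono h (hp1 a v))]
  · intro l
    refine LinearMap.ext fun v => ?_
    simp [hp2 0 _ hw]
  · intro l
    refine LinearMap.ext fun v => ?_
    have h1 := hp1 0 v
    rw [g.D_zero, mem_span_singleton] at h1
    obtain ⟨c, hc⟩ := h1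
    simp only [End.mul_apply, LinearMap.smulRight_apply]
    rw [← hc, map_smul, map_smul, hf1]
    simp

end Pool.Agent.P.MP_2c0ed3_al
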