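import Pool.Agent.P.MP_2c0ed3_al.Loc

set_option autoImplicit false

/-! Operators on the multi-level space attached to the positions. -/

namespace Pool.Agent.P.MP_2c0ed3_al

open Module

universe u

attribute [instance] TData.rB TData.aB TData.gT TData.mT

/-- Level `l` is closed at position `j`. -/
def cl (l j : ℕ) : Prop := (l + 2).factorial ∣ j

instance (l j : ℕ) : Decidable (cl l j) := inferInstanceAs (Decidable (_ ∣ _))

theorem cl_anti {l l' j : ℕ} (h : l ≤ l') (hc : cl l' j) : cl l j :=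
  (Nat.factorial_dvd_factorial (by omega)).trans hc

theorem not_cl_self (j : ℕ) : ¬ cl j (j + 1) := by
  intro h
  have h1 := Nat.le_of_dvd (by omega) h
  have h2 := Nat.self_le_factorial (j + 2)
  omega

/-- The number of closed levels at a position. -/
noncomputable def lam (j : ℕ) : ℕ := sInf {l | ¬ cl l j}

theorem lt_lam_iff (l k : ℕ) : l < lam (k + 1) ↔ cl l (k + 1) := by
  constructor
  · intro h
    have := Nat.notMem_of_lt_sInf h
    simpa using this
  · intro h
    by_contra h'
    have h1 : lam (k + 1) ∈ {l | ¬ cl l (k + 1)} := Nat.sInf_mem ⟨k, not_cl_self k⟩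
    exact h1 (cl_anti (by omega) h)

variable {F : Type u} [Field F] (τ : TData F)

namespace TData

/-- `c` raises the degree at level `l` by at most `s`. -/
def Up (l s : ℕ) (c : End F τ.T) : Prop :=
  ∀ a, τ.io l (τ.pj (a + s)) * (c * τ.io l (τ.pj a)) = c * τ.io l (τ.pj a)

/-- `c` commutes with level `l`. -/
def Cm (l : ℕ) (c : End F τ.T) : Prop := ∀ b, Commute (τ.io l b) c

/-- `y` raises the degree by at most `t`. -/
def UpB (t : ℕ) (y : τ.B) : Prop := ∀ a, τ.pj (a + t) * (y * τ.pj a) = y * τ.pj a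

variable {τ}

theorem UpB.mono {t t' : ℕ} {y : τ.B} (h : τ.UpB t y) (ht : t ≤ t') : τ.UpB t' y := by
  intro a
  rw [← h a, ← mul_assoc, τ.pj_mono _ _ (by omega)]

theorem UpB.mul {t t' : ℕ} {y y' : τ.B} (h : τ.UpB t y) (h' : τ.UpB t' y') :
    τ.UpB (t' + t) (y * y') := by
  intro a
  rw [mul_assoc, ← h' a, ← mul_assoc y, ← mul_assoc, ← add_assoc, h (a + t')]

theorem upB_one : τ.UpB 0 1 := by
  intro a
  rw [one_mul, add_zero, τ.pj_mono _ _ le_rfl]

theorem upB_prod (bs : List (Fin 3)) : τ.UpB bs.length (bs.map τ.X).prod := by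
  induction bs with
  | nil => exact upB_one
  | cons a bs ih => exact UpB.mul (t := 1) (τ.X_up a) ih

variable (τ) in
/-- The nil algebra. -/
def R : NonUnitalSubalgebra F τ.B := NonUnitalAlgebra.adjoin F (Set.range τ.X)

theorem X_mem_R (i : Fin 3) : τ.X i ∈ τ.R := NonUnitalAlgebra.subset_adjoin F ⟨i, rfl⟩

theorem exists_upB {y : τ.B} (hy : y ∈ τ.R) : ∃ t, τ.UpB t y := by
  induction hy using NonUnitalAlgebra.adjoin_induction with
  | mem y hy => obtain ⟨i, rfl⟩ := hy; exact ⟨1, τ.X_up i⟩
  | add y z _ _ hy hz =>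
    obtain ⟨t, h⟩ := hy
    obtain ⟨t', h'⟩ := hz
    refine ⟨t + t', fun a => ?_⟩
    rw [add_mul, mul_add, h.mono (by omega) a, h'.mono (by omega) a]
  | zero => exact ⟨0, fun a => by simp⟩
  | mul y z _ _ hy hz =>
    obtain ⟨t, h⟩ := hy
    obtain ⟨t', h'⟩ := hz
    exact ⟨_, h.mul h'⟩
  | smul c y _ hy =>
    obtain ⟨t, h⟩ := hy
    refine ⟨t, fun a => ?_⟩
    rw [smul_mul_assoc, mul_smul_comm, h a]

theorem Up.mono {l s s' : ℕ} {c : End F τ.T} (h : τ.Up l s c) (hs : s ≤ s') : τ.Up l s' c := by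
  intro a
  rw [← h a, ← mul_assoc, ← map_mul, τ.pj_mono _ _ (by omega)]

theorem Up.mul {l s s' : ℕ} {c c' : End F τ.T} (h : τ.Up l s c) (h' : τ.Up l s' c') :
    τ.Up l (s' + s) (c * c') := by
  intro a
  rw [mul_assoc, ← h' a, ← mul_assoc c, ← mul_assoc, ← add_assoc, h (a + s')]

theorem Up.add {l s : ℕ} {c c' : End F τ.T} (h : τ.Up l s c) (h' : τ.Up l s c') :
    τ.Up l s (c + c') := by
  intro a
  rw [add_mul, mul_add, h a, h' a]

theorem Up.sub {l s : ℕ} {c c' : End F τ.T} (h : τ.Up l s c) (h' : τ.Up l s c') :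
    τ.Up l s (c - c') := by
  intro a
  rw [sub_mul, mul_sub, h a, h' a]

theorem Cm.up {l : ℕ} (s : ℕ) {c : End F τ.T} (h : τ.Cm l c) : τ.Up l s c := by
  intro a
  rw [← (h _).eq, ← mul_assoc, ← map_mul, τ.pj_mono _ _ (by omega)]

theorem UpB.up {t : ℕ} {y : τ.B} (h : τ.UpB t y) (l : ℕ) : τ.Up l t (τ.io l y) := by
  intro a
  rw [← map_mul, ← map_mul, h a]

theorem cm_io {l l' : ℕ} (h : l ≠ l') (y : τ.B) : τ.Cm l (τ.io l' y) :=
  fun b => τ.comm l l' b y h

theorem Cm.fix {l : ℕ} {c : End F τ.T} (h : τ.Cm l c) {b : τ.B} {v : τ.T}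
    (hv : τ.io l b v = v) : τ.io l b (c v) = c v := by
  rw [← End.mul_apply, (h b).eq, End.mul_apply, hv]

theorem Up.fix {l s a : ℕ} {c : End F τ.T} (h : τ.Up l s c) {v : τ.T}
    (hv : τ.io l (τ.pj a) v = v) : τ.io l (τ.pj (a + s)) (c v) = c v := by
  have := congrArg (fun f : End F τ.T => f v) (h a)
  simpa [hv] using this

variable (τ) in
/-- The action of `y` at position `j` in the system with `L` levels. -/
noncomputable def th (L j : ℕ) : τ.B →ₗ[F] End F τ.T :=
  ∑ l ∈ (Finset.range L).filter (fun l => ¬ cl l j), (τ.io l).toLinearMap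

theorem th_apply (L j : ℕ) (y : τ.B) :
    τ.th L j y = ∑ l ∈ (Finset.range L).filter (fun l => ¬ cl l j), τ.io l y := by
  simp [th, LinearMap.sum_apply]

theorem th_zero (L : ℕ) (y : τ.B) : τ.th L 0 y = 0 := by
  simp [th_apply, cl]

theorem cm_sum {l : ℕ} (S : Finset ℕ) (hl : l ∉ S) (y : τ.B) : τ.Cm l (∑ i ∈ S, τ.io i y) :=
  fun b => Commute.sum_right _ _ _ fun i hi => τ.comm l i b y (by rintro rfl; exact hl hi)

theorem cm_th {L j l : ℕ} (h : cl l j) (y : τ.B) : τ.Cm l (τ.th L j y) := by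
  rw [th_apply]
  exact cm_sum _ (by simp [h]) y

theorem th_split {L j l : ℕ} (h : ¬ cl l j) (y : τ.B) :
    ∃ r, τ.Cm l r ∧ τ.th L j y = (if l < L then τ.io l y else 0) + r := by
  rw [th_apply]
  split_ifs with hl
  · refine ⟨_, cm_sum (((Finset.range L).filter (fun l => ¬ cl l j)).erase l) (by simp) y, ?_⟩
    rw [Finset.add_sum_erase _ (fun i => τ.io i y) (by simp [hl, h])]
  · exact ⟨_, cm_sum _ (by simp [hl]) y, (zero_add _).symm⟩

theorem up_th {t : ℕ} {y : τ.B} (hy : τ.UpB t y) (L j l : ℕ) : τ.Up l t (τ.th L j y) := by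
  by_cases h : cl l j
  · exact (cm_th h y).up t
  · obtain ⟨r, h1, h2⟩ := th_split (L := L) h y
    rw [h2]
    refine Up.add ?_ (h1.up t)
    split_ifs
    · exact hy.up l
    · intro a; simp

theorem sum_lie_sum (S : Finset ℕ) (y z : τ.B) :
    (∑ i ∈ S, τ.io i y) * (∑ i ∈ S, τ.io i z) - (∑ i ∈ S, τ.io i z) * (∑ i ∈ S, τ.io i y) =
      ∑ i ∈ S, τ.io i (y * z - z * y) := by
  induction S using Finset.induction_on with
  | empty => simp
  | insert a S ha ih =>
    rw [Finset.sum_insert ha, Finset.sum_insert ha, Finset.sum_insert ha, ← ih, map_sub, map_mul,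
      map_mul]
    have h1 := (cm_sum S ha z y).eq
    have h2 := (cm_sum S ha y z).eq
    rw [add_mul, add_mul, mul_add, mul_add, mul_add, mul_add, h1, h2]
    abel

theorem th_lie (L j : ℕ) (y z : τ.B) :
    τ.th L j y * τ.th L j z - τ.th L j z * τ.th L j y = τ.th L j (y * z - z * y) := by
  rw [th_apply, th_apply, th_apply, sum_lie_sum]

theorem sum_pow_eq_zero {p : ℕ} (hp : p.Prime) [CharP F p] (e : ℕ) (S : Finset ℕ) {y : τ.B}
    (hy : y ^ p ^ e = 0) : (∑ i ∈ S, τ.io i y) ^ p ^ e = 0 := by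
  induction S using Finset.induction_on with
  | empty => simp [hp.ne_zero]
  | insert a S ha ih =>
    rw [Finset.sum_insert ha]
    obtain ⟨r, hr⟩ := (cm_sum S ha y y).exists_add_pow_prime_pow_eq hp e
    have h0 : (p : End F τ.T) = 0 := by
      rw [← map_natCast (algebraMap F (End F τ.T)), CharP.cast_eq_zero, map_zero]
    rw [hr, ih, ← map_pow, hy, h0]
    simp

variable (τ) in
/-- Reset of all levels below `t`. -/
noncomputable def Rst : ℕ → End F τ.T
  | 0 => 1
  | t + 1 => τ.io t (τ.rs t) * Rst t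

theorem cm_Rst {l t : ℕ} (h : t ≤ l) : τ.Cm l (τ.Rst t) := by
  induction t with
  | zero => exact fun b => Commute.one_right _
  | succ t ih => exact fun b => (cm_io (by omega) _ b).mul_right (ih (by omega) b)

theorem Rst_split {l t : ℕ} (h : l < t) : ∃ r, τ.Cm l r ∧ τ.Rst t = τ.io l (τ.rs l) * r := by
  induction t with
  | zero => omega
  | succ t ih =>
    rcases Nat.lt_succ_iff_lt_or_eq.mp h with h1 | rfl
    · obtain ⟨r, h2, h3⟩ := ih h1
      refine ⟨τ.io t (τ.rs t) * r, fun b => (cm_io (by omega) _ b).mul_right (h2 b), ?_⟩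
      rw [Rst, h3, ← mul_assoc, ← mul_assoc, (τ.comm t l _ _ (by omega)).eq]
    · exact ⟨τ.Rst l, cm_Rst le_rfl, rfl⟩

variable (τ) in
/-- The transition from position `k` to position `k + 1`. -/
noncomputable def mm (k : ℕ) : End F τ.T := τ.Rst (lam (k + 1))

variable (τ) in
/-- The properties of transition families of height `s`. -/
def Good (s : ℕ) (c : ℕ × ℕ → End F τ.T) : Prop :=
  ∀ L k l, τ.Up l s (c (L, k)) ∧ (¬ cl l k → ¬ cl l (k + 1) → τ.Cm l (c (L, k))) ∧
    (cl l (k + 1) → τ.io l (τ.pj 0) * c (L, k) = c (L, k) ∧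
      ∀ a, a + s ≤ l → c (L, k) * τ.io l (τ.pj a) = 0)

theorem Good.mono {s s' : ℕ} {c : ℕ × ℕ → End F τ.T} (h : τ.Good s c) (hs : s ≤ s') :
    τ.Good s' c := fun L k l =>
  ⟨(h L k l).1.mono hs, (h L k l).2.1,
    fun hc => ⟨((h L k l).2.2 hc).1, fun a ha => ((h L k l).2.2 hc).2 a (by omega)⟩⟩

theorem good_mm : τ.Good 0 fun i => τ.mm i.2 := by
  intro L k l
  by_cases h : cl l (k + 1)
  · obtain ⟨r, h1, h2⟩ := Rst_split (τ := τ) ((lt_lam_iff l k).mpr h)
    have h3 : ∀ a, τ.io l (τ.pj a) * τ.mm k = τ.mm k := by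
      intro a
      rw [mm, h2, ← mul_assoc, ← map_mul, ← τ.rs_im, ← mul_assoc, τ.pj_mono _ _ (by omega)]
    refine ⟨fun a => ?_, fun _ h' => absurd h h', fun _ => ⟨h3 0, fun a ha => ?_⟩⟩
    · rw [← mul_assoc, h3]
    · change τ.mm k * _ = 0
      rw [mm, h2, mul_assoc, ← (h1 _).eq, ← mul_assoc, ← map_mul, τ.rs_kill _ _ (by omega)]
      simp
  · have h1 : τ.Cm l (τ.mm k) := cm_Rst (by have := (lt_lam_iff l k).not.mpr h; omega)
    exact ⟨h1.up 0, fun _ _ => h1, fun h' => absurd h' h⟩

theorem good_z0 : τ.Good 0 fun i => if i.2 = 0 then 1 else 0 := by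
  intro L k l
  have h1 : τ.Cm l (if k = 0 then 1 else 0) := by
    intro b
    split_ifs
    · exact Commute.one_right _
    · exact Commute.zero_right _
  refine ⟨h1.up 0, fun _ _ => h1, fun h => ?_⟩
  have hk : k ≠ 0 := by
    rintro rfl
    exact not_cl_self 0 (cl_anti (by omega) h)
  simp [hk]

theorem Good.ad {s t : ℕ} {c : ℕ × ℕ → End F τ.T} (h : τ.Good s c) {y : τ.B}
    (hy : τ.UpB t y) :
    τ.Good (s + t) fun i => τ.th i.1 (i.2 + 1) y * c i - c i * τ.th i.1 i.2 y := by
  intro L k l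
  obtain ⟨h1, h2, h3⟩ := h L k l
  refine ⟨?_, fun h4 h5 => ?_, fun h4 => ⟨?_, fun a ha => ?_⟩⟩
  · exact ((up_th hy L (k + 1) l).mul h1).sub (add_comm s t ▸ h1.mul (up_th hy L k l))
  · obtain ⟨r, h6, h7⟩ := th_split (L := L) h4 y
    obtain ⟨r', h8, h9⟩ := th_split (L := L) h5 y
    have h10 := h2 h4 h5
    have h11 : Commute (if l < L then τ.io l y else 0) (c (L, k)) := by
      split_ifs
      · exact h10 y
      · exact Commute.zero_left _
    have e : τ.th L (k + 1) y * c (L, k) - c (L, k) * τ.th L k y =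
        r' * c (L, k) - c (L, k) * r := by
      rw [h7, h9, add_mul, mul_add, h11.eq]; abel
    change τ.Cm l (τ.th L (k + 1) y * c (L, k) - c (L, k) * τ.th L k y)
    rw [e]
    exact fun b => ((h8 b).mul_right (h10 b)).sub_right ((h10 b).mul_right (h6 b))
  · change _ * (τ.th L (k + 1) y * c (L, k) - c (L, k) * τ.th L k y) = _
    rw [mul_sub, ← mul_assoc, (cm_th h4 y _).eq, mul_assoc, (h3 h4).1, ← mul_assoc, (h3 h4).1]
  · change (τ.th L (k + 1) y * c (L, k) - c (L, k) * τ.th L k y) * _ = 0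
    rw [sub_mul, mul_assoc, (h3 h4).2 a (by omega), mul_assoc, ← up_th hy L k l a, ← mul_assoc,
      (h3 h4).2 (a + t) (by omega)]
    simp

end TData

/-- Interleaving a block with separators (latest letter first in the second list). -/
def sq (b : List (Fin 3)) : List (Fin 3) → List (Fin 3)
  | [] => b
  | a :: bs => sq b bs ++ a :: b

theorem length_sq (b bs : List (Fin 3)) : (sq b bs).length + 1 = (bs.length + 1) * (b.length + 1) := by
  induction bs with
  | nil => simp [sq]
  | cons a bs ih => simp only [sq, List.length_append, List.length_cons]; linarith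

namespace TData

/-- The letters of a block of level below `t`. -/
def blk : ℕ → List (Fin 3)
  | 0 => []
  | t + 1 => sq (blk t) (τ.u t)

theorem length_blk (t : ℕ) : (τ.blk t).length + 1 = (t + 1).factorial := by
  induction t with
  | zero => simp [blk]
  | succ t ih => rw [blk, length_sq, ih, τ.u_len, Nat.factorial_succ (t + 1)]

/-- The state reached from position `j` along a list of letters. -/
noncomputable def run (L : ℕ) : ℕ → List (Fin 3) → τ.T → τ.T
  | _, [], v => v
  | j, a :: w, v => run L (j + 1) w (τ.th L (j + 1) (τ.X a) (τ.mm j v))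

variable {τ}

theorem run_append (L j : ℕ) (w w' : List (Fin 3)) (v : τ.T) :
    τ.run L j (w ++ w') v = τ.run L (j + w.length) w' (τ.run L j w v) := by
  induction w generalizing j v with
  | nil => simp [run]
  | cons a w ih => simp only [List.cons_append, run, ih, List.length_cons]; congr 1; omega

theorem transfer (L t : ℕ) (ht : t ≤ L) (k : ℕ) (hk : (t + 1).factorial ∣ k) (v : τ.T)
    (hv : ∀ l, l < t → τ.io l (τ.pj 0) v = v) : τ.Rst t (τ.run L k (τ.blk t) v) = v := by
  induction t generalizing k v with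
  | zero => simp [Rst, blk, run]
  | succ t ih =>
    have hk' : (t + 1).factorial ∣ k := (Nat.factorial_dvd_factorial (by omega)).trans hk
    have inner : ∀ bs : List (Fin 3), bs.length ≤ t + 1 →
        (∀ l, l < t → τ.io l (τ.pj 0) (τ.Rst t (τ.run L k (sq (τ.blk t) bs) v)) =
          τ.Rst t (τ.run L k (sq (τ.blk t) bs) v)) ∧
        ∃ e, τ.Rst t (τ.run L k (sq (τ.blk t) bs) v) = τ.io t (bs.map τ.X).prod v + e ∧
          (bs.length = 0 → e = 0) ∧ τ.io t (τ.pj (bs.length - 1)) e = e := by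
      intro bs
      induction bs with
      | nil =>
        intro _
        rw [sq, ih (by omega) k hk' v fun l hl => hv l (by omega)]
        exact ⟨fun l hl => hv l (by omega), 0, by simp, fun _ => rfl, by simp⟩
      | cons a bs ihb =>
        intro hlen
        rw [List.length_cons] at hlen
        obtain ⟨h1, e, h2, h3, h4⟩ := ihb (by omega)
        have hp : k + (sq (τ.blk t) bs).length + 1 = k + (bs.length + 1) * (t + 1).factorial := by
          rw [add_assoc, length_sq, length_blk]
        have hd : (t + 1).factorial ∣ k + (sq (τ.blk t) bs).length + 1 := by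
          rw [hp]; exact dvd_add hk' (dvd_mul_left _ _)
        have hnc : ¬ cl t (k + (sq (τ.blk t) bs).length + 1) := by
          rw [hp, cl]
          intro h
          have h5 := (Nat.dvd_add_right hk).mp h
          rw [Nat.factorial_succ (t + 1)] at h5
          have h6 := Nat.le_of_dvd (by omega) (Nat.dvd_of_mul_dvd_mul_right
            (Nat.factorial_pos _) h5)
          omega
        have hc : ∀ l, l < t → cl l (k + (sq (τ.blk t) bs).length + 1) := fun l hl =>
          (Nat.factorial_dvd_factorial (by omega)).trans hd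
        have hlam : lam (k + (sq (τ.blk t) bs).length + 1) = t := by
          refine le_antisymm ?_ ?_
          · have := (lt_lam_iff t _).not.mpr hnc; omega
          · by_contra h
            have := (lt_lam_iff _ _).mpr (hc _ (not_le.mp h)); omega
        set w := τ.Rst t (τ.run L k (sq (τ.blk t) bs) v) with hw
        have hvac : ∀ l, l < t → τ.io l (τ.pj 0)
            (τ.th L (k + (sq (τ.blk t) bs).length + 1) (τ.X a) w) =
            τ.th L (k + (sq (τ.blk t) bs).length + 1) (τ.X a) w :=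
          fun l hl => (cm_th (hc l hl) _).fix (h1 l hl)
        have e1 : τ.Rst t (τ.run L k (sq (τ.blk t) (a :: bs)) v) =
            τ.th L (k + (sq (τ.blk t) bs).length + 1) (τ.X a) w := by
          rw [sq, run_append, run, mm, hlam, ← hw]
          exact ih (by omega) _ hd _ hvac
        rw [e1]
        refine ⟨hvac, ?_⟩
        obtain ⟨r, h5, h6⟩ := th_split (L := L) hnc (τ.X a)
        rw [if_pos (by omega)] at h6
        have h7 : τ.io t (τ.pj bs.length) (τ.io t (bs.map τ.X).prod v) =
            τ.io t (bs.map τ.X).prod v := by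
          have := ((upB_prod bs).up t).fix (hv t (by omega))
          rwa [zero_add] at this
        have h8 : τ.io t (τ.pj bs.length) e = e := by
          rw [← h4, ← End.mul_apply, ← map_mul, τ.pj_mono _ _ (by omega)]
        have h9 : τ.io t (τ.pj bs.length) (τ.io t (τ.X a) e) = τ.io t (τ.X a) e := by
          rcases Nat.eq_zero_or_pos bs.length with h0 | h0
          · rw [h3 h0]; simp
          · have := (UpB.up (t := 1) (τ.X_up a) t).fix h4
            rwa [show bs.length - 1 + 1 = bs.length by omega] at this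
        refine ⟨τ.io t (τ.X a) e + r (τ.io t (bs.map τ.X).prod v) + r e, ?_, by simp, ?_⟩
        · rw [h6, h2, List.map_cons, List.prod_cons, map_mul]
          simp only [LinearMap.add_apply, map_add, End.mul_apply]
          abel
        · rw [List.length_cons, Nat.add_sub_cancel, map_add, map_add, h9, h5.fix h7, h5.fix h8]
    obtain ⟨-, e, h2, -, h4⟩ := inner (τ.u t) (τ.u_len t).le
    rw [Rst, blk, End.mul_apply, h2, map_add, ← h4, τ.u_len, Nat.add_sub_cancel,
      ← End.mul_apply _ _ e, ← map_mul, τ.rs_kill _ _ le_rfl, map_zero, LinearMap.zero_apply,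
      add_zero]
    conv_lhs => rw [← hv t (by omega)]
    rw [← End.mul_apply, ← End.mul_apply, ← map_mul, ← map_mul, mul_assoc, τ.rs_u]
    exact hv t (by omega)

theorem run_ne_zero (L : ℕ) : τ.run L 0 (τ.blk L) τ.vac ≠ 0 := by
  intro h
  have := transfer L L le_rfl 0 (dvd_zero _) τ.vac fun l _ => τ.pj_vac l
  rw [h, map_zero] at this
  exact τ.vac_ne this.symm

end TData

end Pool.Agent.P.MP_2c0ed3_al
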