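import Pool.Agent.P.MP_2c0ed3_al.Ops
import Pool.Agent.P.MP_2c0ed3_al.Lev

set_option autoImplicit false

/-! The counterexample with all adjoint maps nilpotent. -/

namespace Pool.Agent.P.MP_2c0ed3_al

open Module

universe u

attribute [local instance 100] LieRing.ofAssociativeRing

variable {F : Type u} [Field F] (τ : TData F)

namespace TData

/-- The total space. -/
def V : Type u := ℕ × ℕ → τ.T

noncomputable instance : AddCommGroup τ.V := inferInstanceAs (AddCommGroup (ℕ × ℕ → τ.T))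
noncomputable instance : Module F τ.V := inferInstanceAs (Module F (ℕ × ℕ → τ.T))

variable {τ}

theorem V_ext {v w : τ.V} (h : ∀ L k, v (L, k) = w (L, k)) : v = w := funext fun i => h i.1 i.2
@[simp] theorem V_add (v w : τ.V) (i : ℕ × ℕ) : (v + w) i = v i + w i := rfl
@[simp] theorem V_sub (v w : τ.V) (i : ℕ × ℕ) : (v - w) i = v i - w i := rfl
@[simp] theorem V_smul (c : F) (v : τ.V) (i : ℕ × ℕ) : (c • v) i = c • v i := rfl
@[simp] theorem V_zero (i : ℕ × ℕ) : (0 : τ.V) i = 0 := rfl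

variable (τ)

/-- The diagonal action of the one-level algebra. -/
noncomputable def Th : τ.B →ₗ[F] End F τ.V where
  toFun y :=
    { toFun := fun v i => τ.th i.1 i.2 y (v i)
      map_add' := fun v w => V_ext fun L k => map_add (τ.th L k y) (v (L, k)) (w (L, k))
      map_smul' := fun c v => V_ext fun L k => map_smul (τ.th L k y) c (v (L, k)) }
  map_add' y z := LinearMap.ext fun v => V_ext fun L k =>
    congrArg (fun f : End F τ.T => f (v (L, k))) (map_add (τ.th L k) y z)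
  map_smul' c y := LinearMap.ext fun v => V_ext fun L k =>
    congrArg (fun f : End F τ.T => f (v (L, k))) (map_smul (τ.th L k) c y)

/-- A weighted shift. -/
noncomputable def sh (c : ℕ × ℕ → End F τ.T) : End F τ.V where
  toFun v i := match i with
    | (_, 0) => 0
    | (L, k + 1) => c (L, k) (v (L, k))
  map_add' v w := V_ext fun L k => by
    cases k with
    | zero => exact (add_zero _).symm
    | succ k => exact map_add (c (L, k)) (v (L, k)) (w (L, k))
  map_smul' a v := V_ext fun L k => by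
    cases k with
    | zero => exact (smul_zero a).symm
    | succ k => exact map_smul (c (L, k)) a (v (L, k))

variable {τ}

@[simp] theorem Th_apply (y : τ.B) (v : τ.V) (L k : ℕ) :
    τ.Th y v (L, k) = τ.th L k y (v (L, k)) := rfl
@[simp] theorem sh_zero (c : ℕ × ℕ → End F τ.T) (v : τ.V) (L : ℕ) : τ.sh c v (L, 0) = 0 := rfl
@[simp] theorem sh_succ (c : ℕ × ℕ → End F τ.T) (v : τ.V) (L k : ℕ) :
    τ.sh c v (L, k + 1) = c (L, k) (v (L, k)) := rfl

theorem Th_lie (y z : τ.B) : τ.Th y * τ.Th z - τ.Th z * τ.Th y = τ.Th (y * z - z * y) := by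
  refine LinearMap.ext fun v => V_ext fun L k => ?_
  rw [Th_apply, ← th_lie]
  rfl

theorem Th_sh (y : τ.B) (c : ℕ × ℕ → End F τ.T) :
    τ.Th y * τ.sh c - τ.sh c * τ.Th y =
      τ.sh fun i => τ.th i.1 (i.2 + 1) y * c i - c i * τ.th i.1 i.2 y := by
  refine LinearMap.ext fun v => V_ext fun L k => ?_
  cases k <;> simp

theorem Th_nil {p : ℕ} (hp : p.Prime) [CharP F p] {y : τ.B} (hy : y ∈ τ.R) :
    IsNilpotent (τ.Th y) := by
  obtain ⟨e, he⟩ := τ.nil y hy
  have h1 : y ^ p ^ e = 0 := pow_eq_zero_of_le (Nat.lt_pow_self hp.one_lt).le he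
  have h2 : ∀ n (v : τ.V) L k, (τ.Th y ^ n) v (L, k) = (τ.th L k y ^ n) (v (L, k)) := by
    intro n v L k
    induction n with
    | zero => simp
    | succ n ih => rw [pow_succ', pow_succ', End.mul_apply, End.mul_apply, Th_apply, ih]
  refine ⟨p ^ e, LinearMap.ext fun v => V_ext fun L k => ?_⟩
  rw [h2, th_apply, sum_pow_eq_zero hp e _ h1]
  simp

variable (τ)

/-- The algebra generated by the shifts of height `s`. -/
noncomputable def ZS (s : ℕ) : NonUnitalSubalgebra F (End F τ.V) :=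
  NonUnitalAlgebra.adjoin F {x | ∃ c, τ.Good s c ∧ x = τ.sh c}

/-- The period used for height `s`. -/
def QQ (s : ℕ) : ℕ := (2 * s + 2).factorial

/-- A flag lowered by the shifts of height `s`. -/
noncomputable def Fl (s i : ℕ) : Submodule F τ.V where
  carrier := {v | ∀ L j, (j % QQ s < i →
    τ.io (2 * s) (τ.pj (if j % QQ s = 0 then 0 else s)) (v (L, j)) = v (L, j)) ∧
    (j % QQ s + QQ s < i → v (L, j) = 0)}
  add_mem' := by
    intro v w hv hw L j
    refine ⟨fun h => ?_, fun h => ?_⟩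
    · rw [V_add, map_add, (hv L j).1 h, (hw L j).1 h]
    · rw [V_add, (hv L j).2 h, (hw L j).2 h, add_zero]
  zero_mem' := by intro L j; simp
  smul_mem' := by
    intro c v hv L j
    refine ⟨fun h => ?_, fun h => ?_⟩
    · rw [V_smul, map_smul, (hv L j).1 h]
    · rw [V_smul, (hv L j).2 h, smul_zero]

variable {τ}

theorem two_le_QQ (s : ℕ) : 2 ≤ QQ s := le_trans (by omega) (Nat.self_le_factorial _)

theorem Fl_zero (s : ℕ) (v : τ.V) : v ∈ τ.Fl s 0 := fun _ _ => ⟨by omega, by omega⟩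

theorem Fl_top {s i : ℕ} (hi : 2 * QQ s ≤ i) {v : τ.V} (hv : v ∈ τ.Fl s i) : v = 0 := by
  refine V_ext fun L j => (hv L j).2 ?_
  have := Nat.mod_lt j (show 0 < QQ s by have := two_le_QQ s; omega)
  omega

theorem Fl_anti {s i : ℕ} {v : τ.V} (hv : v ∈ τ.Fl s (i + 1)) : v ∈ τ.Fl s i :=
  fun L j => ⟨fun h => (hv L j).1 (by omega), fun h => (hv L j).2 (by omega)⟩

theorem sh_mem_Fl {s i : ℕ} {c : ℕ × ℕ → End F τ.T} (hc : τ.Good s c) {v : τ.V}
    (hv : v ∈ τ.Fl s i) : τ.sh c v ∈ τ.Fl s (i + 1) := by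
  intro L j
  cases j with
  | zero => simp
  | succ k =>
    have hQ := two_le_QQ s
    obtain ⟨h1, h2, h3⟩ := hc L k (2 * s)
    obtain ⟨h4, h5⟩ := hv L k
    have hcl : ∀ j, cl (2 * s) j ↔ j % QQ s = 0 := fun j => Nat.dvd_iff_mod_eq_zero ..
    have hlt := Nat.mod_lt k (show 0 < QQ s by omega)
    have hmod : (k + 1) % QQ s = (k % QQ s + 1) % QQ s := by simp
    rw [sh_succ]
    by_cases h0 : (k + 1) % QQ s = 0
    · have hk : k % QQ s + 1 = QQ s := by
        by_contra h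
        rw [hmod, Nat.mod_eq_of_lt (by omega)] at h0
        omega
      obtain ⟨h6, h7⟩ := h3 ((hcl _).mpr h0)
      refine ⟨fun _ => ?_, fun h => ?_⟩
      · rw [if_pos h0, ← End.mul_apply, h6]
      · have h8 := h4 (by omega)
        rw [if_neg (by omega)] at h8
        rw [← h8, ← End.mul_apply, h7 s (by omega)]
        simp
    · have hk : (k + 1) % QQ s = k % QQ s + 1 := by
        rw [hmod, Nat.mod_eq_of_lt]
        by_contra h
        have : k % QQ s + 1 = QQ s := by omega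
        rw [hmod, this, Nat.mod_self] at h0
        exact h0 rfl
      refine ⟨fun h => ?_, fun h => ?_⟩
      · rw [if_neg h0]
        have h8 := h4 (by omega)
        by_cases h9 : k % QQ s = 0
        · rw [if_pos h9] at h8
          simpa using h1.fix h8
        · rw [if_neg h9] at h8
          exact (h2 ((hcl _).not.mpr h9) ((hcl _).not.mpr h0)).fix h8
      · rw [h5 (by omega), map_zero]

theorem ZS_mem_Fl {s : ℕ} {z : End F τ.V} (hz : z ∈ τ.ZS s) (i : ℕ) (v : τ.V)
    (hv : v ∈ τ.Fl s i) : z v ∈ τ.Fl s (i + 1) := by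
  induction hz using NonUnitalAlgebra.adjoin_induction generalizing i v with
  | mem z hz => obtain ⟨c, hc, rfl⟩ := hz; exact sh_mem_Fl hc hv
  | add y z _ _ hy hz => exact add_mem (hy i v hv) (hz i v hv)
  | zero => simp
  | mul y z _ _ hy hz => exact Fl_anti (hy _ _ (hz i v hv))
  | smul c y _ hy => exact Submodule.smul_mem _ _ (hy i v hv)

theorem ZS_mono {s s' : ℕ} (h : s ≤ s') : τ.ZS s ≤ τ.ZS s' :=
  NonUnitalAlgebra.adjoin_mono fun _ ⟨c, hc, e⟩ => ⟨c, hc.mono h, e⟩

theorem ZS_pos0 {s : ℕ} {z : End F τ.V} (hz : z ∈ τ.ZS s) (v : τ.V) (L : ℕ) :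
    z v (L, 0) = 0 := by
  induction hz using NonUnitalAlgebra.adjoin_induction generalizing v with
  | mem z hz => obtain ⟨c, -, rfl⟩ := hz; rfl
  | add y z _ _ hy hz => simp [hy, hz]
  | zero => simp
  | mul y z _ _ hy hz => exact hy _
  | smul c y _ hy => simp [hy]

theorem ad_mem_ZS {s t : ℕ} {y : τ.B} (hy : τ.UpB t y) {z : End F τ.V} (hz : z ∈ τ.ZS s) :
    τ.Th y * z - z * τ.Th y ∈ τ.ZS (s + t) := by
  induction hz using NonUnitalAlgebra.adjoin_induction with
  | mem z hz =>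
    obtain ⟨c, hc, rfl⟩ := hz
    rw [Th_sh]
    exact NonUnitalAlgebra.subset_adjoin F ⟨_, hc.ad hy, rfl⟩
  | add a b _ _ ha hb =>
    have e : τ.Th y * (a + b) - (a + b) * τ.Th y =
        (τ.Th y * a - a * τ.Th y) + (τ.Th y * b - b * τ.Th y) := by noncomm_ring
    rw [e]; exact add_mem ha hb
  | zero => simp
  | mul a b ha' hb' ha hb =>
    have e : τ.Th y * (a * b) - (a * b) * τ.Th y =
        (τ.Th y * a - a * τ.Th y) * b + a * (τ.Th y * b - b * τ.Th y) := by noncomm_ring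
    rw [e]
    exact add_mem (mul_mem ha (ZS_mono (by omega) hb')) (mul_mem (ZS_mono (by omega) ha') hb)
  | smul c a _ ha =>
    rw [mul_smul_comm, smul_mul_assoc, ← smul_sub]
    exact SMulMemClass.smul_mem c ha

variable (τ) in
/-- The locally nilpotent algebra generated by all shifts of finite height. -/
noncomputable def Z : NonUnitalSubalgebra F (End F τ.V) where
  carrier := {z | ∃ s, z ∈ τ.ZS s}
  add_mem' := by
    rintro a b ⟨s, ha⟩ ⟨t, hb⟩
    exact ⟨s + t, add_mem (ZS_mono (by omega) ha) (ZS_mono (by omega) hb)⟩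
  zero_mem' := ⟨0, zero_mem _⟩
  mul_mem' := by
    rintro a b ⟨s, ha⟩ ⟨t, hb⟩
    exact ⟨s + t, mul_mem (ZS_mono (by omega) ha) (ZS_mono (by omega) hb)⟩
  smul_mem' := by
    rintro c a ⟨s, ha⟩
    exact ⟨s, SMulMemClass.smul_mem c ha⟩

theorem ad_mem_Z {y : τ.B} (hy : y ∈ τ.R) {z : End F τ.V} (hz : z ∈ τ.Z) :
    τ.Th y * z - z * τ.Th y ∈ τ.Z := by
  obtain ⟨t, ht⟩ := exists_upB hy
  obtain ⟨s, hs⟩ := hz
  exact ⟨s + t, ad_mem_ZS ht hs⟩

theorem exists_bound {S : Set (End F τ.V)} (hS : S.Finite) (h : ∀ z ∈ S, z ∈ τ.Z) :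
    ∃ s, ∀ z ∈ S, z ∈ τ.ZS s := by
  induction S, hS using Set.Finite.induction_on with
  | empty => exact ⟨0, by simp⟩
  | @insert a S _ _ ih =>
    obtain ⟨s, hs⟩ := ih fun z hz => h z (Or.inr hz)
    obtain ⟨t, ht⟩ := h a (Or.inl rfl)
    refine ⟨s + t, ?_⟩
    rintro z (rfl | hz)
    · exact ZS_mono (by omega) ht
    · exact ZS_mono (by omega) (hs z hz)

theorem lie_mem_Z {y : τ.B} (hy : y ∈ τ.R) {z z' : End F τ.V} (hz : z ∈ τ.Z) (hz' : z' ∈ τ.Z) :
    ⁅τ.Th y + z, z'⁆ ∈ τ.Z := by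
  have e : ⁅τ.Th y + z, z'⁆ = (τ.Th y * z' - z' * τ.Th y) + (z * z' - z' * z) := by
    rw [Ring.lie_def]; noncomm_ring
  rw [e]
  exact add_mem (ad_mem_Z hy hz') (sub_mem (mul_mem hz hz') (mul_mem hz' hz))

variable (τ) in
/-- The Lie algebra of the counterexample. -/
noncomputable def AA : LieSubalgebra F (End F τ.V) where
  carrier := {g | ∃ y ∈ τ.R, ∃ z ∈ τ.Z, g = τ.Th y + z}
  add_mem' := by
    rintro a b ⟨y, hy, z, hz, rfl⟩ ⟨y', hy', z', hz', rfl⟩
    exact ⟨y + y', add_mem hy hy', z + z', add_mem hz hz', by rw [map_add]; abel⟩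
  zero_mem' := ⟨0, zero_mem _, 0, zero_mem _, by simp⟩
  smul_mem' := by
    rintro c a ⟨y, hy, z, hz, rfl⟩
    exact ⟨c • y, SMulMemClass.smul_mem c hy, c • z, SMulMemClass.smul_mem c hz, by simp⟩
  lie_mem' := by
    rintro a b ⟨y, hy, z, hz, rfl⟩ ⟨y', hy', z', hz', rfl⟩
    refine ⟨y * y' - y' * y, sub_mem (mul_mem hy hy') (mul_mem hy' hy),
      ⁅τ.Th y + z, z'⁆ - (τ.Th y' * z - z * τ.Th y'),
      sub_mem (lie_mem_Z hy hz hz') (ad_mem_Z hy' hz), ?_⟩
    rw [← Th_lie, Ring.lie_def, Ring.lie_def]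
    noncomm_ring

theorem Z_mem_AA {z : End F τ.V} (hz : z ∈ τ.Z) : z ∈ τ.AA := ⟨0, zero_mem _, z, hz, by simp⟩

theorem Th_mem_AA {y : τ.B} (hy : y ∈ τ.R) : τ.Th y ∈ τ.AA := ⟨y, hy, 0, zero_mem _, by simp⟩

theorem nil_of_mem_AA {p : ℕ} (hp : p.Prime) [CharP F p] {g : End F τ.V} (hg : g ∈ τ.AA) :
    IsNilpotent g := by
  obtain ⟨y, hy, z, hz, rfl⟩ := hg
  set Y := τ.Th y with hY
  obtain ⟨n, hn⟩ : IsNilpotent Y := Th_nil hp hy
  obtain ⟨N, hN⟩ := LieAlgebra.ad_nilpotent_of_nilpotent (R := F) (a := Y) ⟨n, hn⟩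
  let D := LieAlgebra.ad F (End F τ.V) Y
  have hD : ∀ i, (D ^ i) z ∈ τ.Z := by
    intro i
    induction i with
    | zero => simpa using hz
    | succ i ih => rw [pow_succ', End.mul_apply]; exact ad_mem_Z hy ih
  obtain ⟨s, hs⟩ := exists_bound ((Set.finite_lt_nat N).image fun i => (D ^ i) z)
    (by rintro _ ⟨i, -, rfl⟩; exact hD i)
  have hs' : ∀ i, (D ^ i) z ∈ τ.ZS s := by
    intro i
    by_cases h : i < N
    · exact hs _ ⟨i, h, rfl⟩
    · rw [pow_eq_zero_of_le (not_lt.mp h) hN]; exact zero_mem _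
  obtain ⟨C, hC0, hCs⟩ : ∃ C : ℕ → Submodule F τ.V, C 0 = ⊤ ∧
      ∀ k, C (k + 1) = Submodule.span F {w | ∃ i, ∃ v ∈ C k, w = (D ^ i) z v} :=
    ⟨fun k => Nat.rec ⊤ (fun _ P => Submodule.span F {w | ∃ i, ∃ v ∈ P, w = (D ^ i) z v}) k,
      rfl, fun _ => rfl⟩
  have C1 : ∀ k, C k ≤ τ.Fl s k := by
    intro k
    induction k with
    | zero => exact fun v _ => Fl_zero s v
    | succ k ih =>
      rw [hCs]
      refine Submodule.span_le.mpr ?_
      rintro _ ⟨i, v, hv, rfl⟩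
      exact ZS_mem_Fl (hs' i) k v (ih hv)
  have C2 : ∀ k i, ∀ v ∈ C k, (D ^ i) z v ∈ C (k + 1) := fun k i v hv => by
    rw [hCs]
    exact Submodule.subset_span ⟨i, v, hv, rfl⟩
  have C3 : ∀ k, ∀ v ∈ C k, Y v ∈ C k := by
    intro k
    induction k with
    | zero => intro _ _; rw [hC0]; exact Submodule.mem_top
    | succ k ih =>
      intro v hv
      rw [hCs] at hv
      induction hv using Submodule.span_induction with
      | mem w hw =>
        obtain ⟨i, v, hv, rfl⟩ := hw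
        have e : Y ((D ^ i) z v) = (D ^ (i + 1)) z v + (D ^ i) z (Y v) := by
          rw [pow_succ', End.mul_apply]
          simp [D, Ring.lie_def]
        rw [e]
        exact add_mem (C2 k _ v hv) (C2 k _ _ (ih v hv))
      | zero => simp
      | add x y _ _ hx hy => rw [map_add]; exact add_mem hx hy
      | smul c x _ hx => rw [map_smul]; exact Submodule.smul_mem _ _ hx
  have C4 : ∀ k, C (k + 1) ≤ C k := by
    intro k
    induction k with
    | zero => rw [hC0]; exact le_top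
    | succ k ih =>
      rw [hCs (k + 1), hCs k]
      rw [hCs k] at ih
      exact Submodule.span_mono fun _ ⟨i, v, hv, e⟩ => ⟨i, v, ih hv, e⟩
  have C5 : ∀ k, ∀ v ∈ C k, z v ∈ C (k + 1) := fun k v hv => by simpa using C2 k 0 v hv
  have C6 : ∀ k j, ∀ v ∈ C k, (Y ^ j) v ∈ C k ∧ ((Y + z) ^ j) v - (Y ^ j) v ∈ C (k + 1) := by
    intro k j v hv
    induction j with
    | zero => simpa using hv
    | succ j ih =>
      refine ⟨by rw [pow_succ', End.mul_apply]; exact C3 k _ ih.1, ?_⟩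
      have e : ((Y + z) ^ (j + 1)) v - (Y ^ (j + 1)) v =
          Y (((Y + z) ^ j) v - (Y ^ j) v) + z (((Y + z) ^ j) v - (Y ^ j) v) + z ((Y ^ j) v) := by
        rw [pow_succ', pow_succ']
        simp only [End.mul_apply, LinearMap.add_apply, map_sub]
        abel
      rw [e]
      exact add_mem (add_mem (C3 _ _ ih.2) (C4 (k + 1) (C5 _ _ ih.2))) (C5 _ _ ih.1)
  have C7 : ∀ k v, (((Y + z) ^ n) ^ k) v ∈ C k := by
    intro k v
    induction k with
    | zero => rw [hC0]; exact Submodule.mem_top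
    | succ k ih =>
      rw [pow_succ', End.mul_apply]
      simpa [hn] using (C6 k n _ ih).2
  refine ⟨n * (2 * QQ s), LinearMap.ext fun v => ?_⟩
  rw [pow_mul]
  exact Fl_top le_rfl (C1 _ (C7 _ v))

theorem strong_engel {p : ℕ} (hp : p.Prime) [CharP F p] (x : τ.AA) :
    ∃ n : ℕ, 1 ≤ n ∧ ∀ y : τ.AA, (fun z : τ.AA => ⁅z, x⁆)^[n] y = 0 := by
  obtain ⟨n, hn⟩ := (LieAlgebra.isNilpotent_ad_of_isNilpotent (nil_of_mem_AA hp x.2)).neg
  refine ⟨n + 1, by omega, fun y => ?_⟩
  have e : (fun z : τ.AA => ⁅z, x⁆) = ⇑(-LieAlgebra.ad F τ.AA x) := by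
    funext z; simp
  rw [e, ← End.coe_pow, pow_succ, hn]
  simp

variable (τ) in
/-- The locally nilpotent ideal. -/
noncomputable def II : LieIdeal F τ.AA where
  carrier := {g | (g : End F τ.V) ∈ τ.Z}
  add_mem' := fun {a b} ha hb => show (a : End F τ.V) + b ∈ τ.Z from add_mem ha hb
  zero_mem' := zero_mem τ.Z
  smul_mem' := fun c a ha => show c • (a : End F τ.V) ∈ τ.Z from SMulMemClass.smul_mem c ha
  lie_mem := by
    rintro ⟨_, y, hy, z, hz, rfl⟩ m hm
    exact lie_mem_Z hy hz hm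

variable (τ) in
/-- The part of the Lie algebra of height `s`. -/
noncomputable def KS (s : ℕ) : LieSubalgebra F τ.AA where
  carrier := {g | (g : End F τ.V) ∈ τ.ZS s}
  add_mem' := fun {a b} ha hb => show (a : End F τ.V) + b ∈ τ.ZS s from add_mem ha hb
  zero_mem' := zero_mem (τ.ZS s)
  smul_mem' := fun c a ha => show c • (a : End F τ.V) ∈ τ.ZS s from SMulMemClass.smul_mem c ha
  lie_mem' := fun {a b} ha hb => show (a : End F τ.V) * b - b * a ∈ τ.ZS s from
    sub_mem (mul_mem ha hb) (mul_mem hb ha)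

theorem nilpotent_of_le_KS (s : ℕ) (S : LieSubalgebra F τ.AA) (hS : S ≤ τ.KS s) :
    LieRing.IsNilpotent S := by
  have key : ∀ k : ℕ, ∀ x ∈ LieModule.lowerCentralSeries F S S k, ∀ i, ∀ v ∈ τ.Fl s i,
      ((x : τ.AA) : End F τ.V) v ∈ τ.Fl s (i + k + 1) := by
    intro k
    induction k with
    | zero => exact fun x _ i v hv => ZS_mem_Fl (hS x.2) i v hv
    | succ k ih =>
      intro x hx
      rw [LieModule.lowerCentralSeries_succ, ← LieSubmodule.mem_toSubmodule,
        LieSubmodule.lieIdeal_oper_eq_linear_span'] at hx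
      induction hx using Submodule.span_induction with
      | mem x hx =>
        obtain ⟨a, -, b, hb, rfl⟩ := hx
        intro i v hv
        have h1 := ZS_mem_Fl (hS a.2) _ _ (ih b hb i v hv)
        have h2 := ih b hb _ _ (ZS_mem_Fl (hS a.2) i v hv)
        rw [show i + 1 + k + 1 = i + (k + 1) + 1 by omega] at h2
        exact sub_mem h1 h2
      | zero => intro i v _; simp
      | add x y _ _ hx hy => exact fun i v hv => add_mem (hx i v hv) (hy i v hv)
      | smul c x _ hx => exact fun i v hv => Submodule.smul_mem _ _ (hx i v hv)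
  refine (LieModule.isNilpotent_iff F S S).mpr ⟨2 * QQ s, ?_⟩
  rw [eq_bot_iff]
  intro x hx
  rw [LieSubmodule.mem_bot]
  refine Subtype.ext (Subtype.ext (LinearMap.ext fun v => ?_))
  exact Fl_top (by omega) (key _ x hx 0 v (Fl_zero s v))

theorem II_locNil : IsLocNilLieIdeal F τ.AA τ.II := by
  intro S hS
  obtain ⟨s, hs⟩ := exists_bound (S.finite_toSet.image Subtype.val)
    (by rintro _ ⟨x, hx, rfl⟩; exact hS x hx)
  refine nilpotent_of_le_KS s _ ?_
  rw [LieSubalgebra.lieSpan_le]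
  exact fun x hx => hs _ ⟨x, hx, rfl⟩

variable (τ)

/-- The distinguished element. -/
noncomputable def am : τ.AA :=
  ⟨τ.sh fun i => τ.mm i.2, Z_mem_AA ⟨0, NonUnitalAlgebra.subset_adjoin F ⟨_, good_mm, rfl⟩⟩⟩

/-- The source element. -/
noncomputable def a0 : τ.AA :=
  ⟨τ.sh fun i => if i.2 = 0 then 1 else 0,
    Z_mem_AA ⟨0, NonUnitalAlgebra.subset_adjoin F ⟨_, good_z0, rfl⟩⟩⟩

/-- The generators. -/
noncomputable def ax (i : Fin 3) : τ.AA := ⟨τ.Th (τ.X i), Th_mem_AA (X_mem_R i)⟩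

theorem am_mem : τ.am ∈ lieRadical F τ.AA := by
  have : τ.II ≤ lieRadical F τ.AA := le_sSup II_locNil
  exact this ⟨0, NonUnitalAlgebra.subset_adjoin F ⟨_, good_mm, rfl⟩⟩

theorem a0_mul (g : τ.AA) : (τ.a0 : End F τ.V) * g = 0 := by
  obtain ⟨_, y, hy, z, ⟨s, hz⟩, rfl⟩ := g
  refine LinearMap.ext fun v => V_ext fun L k => ?_
  cases k with
  | zero => rfl
  | succ k =>
    cases k with
    | zero => simp [a0, th_zero, ZS_pos0 hz]
    | succ k => simp [a0]

theorem rightMul_ann (g w : τ.AA) (hw : ∀ g : τ.AA, (w : End F τ.V) * g = 0) :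
    ((rightMul F τ.AA g w : τ.AA) : End F τ.V) = -((g : End F τ.V) * w) := by
  change (w : End F τ.V) * g - g * w = _
  rw [hw, zero_sub]

theorem steps (L : ℕ) (w : List (Fin 3)) (j : ℕ) (b : τ.AA)
    (hb : ∀ g : τ.AA, (b : End F τ.V) * g = 0) (v : τ.V) :
    (((w.reverse.map fun i => rightMul F τ.AA (τ.ax i) * rightMul F τ.AA τ.am).prod b : τ.AA) :
      End F τ.V) v (L, j + w.length) = τ.run L j w ((b : End F τ.V) v (L, j)) := by
  induction w generalizing j b with
  | nil => simp [run]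
  | cons a w ih =>
    have h1 : ∀ g : τ.AA, ((rightMul F τ.AA τ.am b : τ.AA) : End F τ.V) * g = 0 := by
      intro g
      rw [rightMul_ann _ _ _ hb, neg_mul, mul_assoc, hb, mul_zero, neg_zero]
    have h2 : ((rightMul F τ.AA (τ.ax a) (rightMul F τ.AA τ.am b) : τ.AA) : End F τ.V) =
        τ.Th (τ.X a) * ((τ.sh fun i => τ.mm i.2) * b) := by
      rw [rightMul_ann _ _ _ h1, rightMul_ann _ _ _ hb, mul_neg, neg_neg]
      rfl
    rw [List.reverse_cons, List.map_append, List.prod_append, List.length_cons,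
      show j + (w.length + 1) = j + 1 + w.length by omega]
    simp only [List.map_cons, List.map_nil, List.prod_cons, List.prod_nil, mul_one, End.mul_apply]
    rw [ih (j + 1), run, h2]
    · rfl
    · intro g
      rw [h2, mul_assoc, mul_assoc, hb, mul_zero, mul_zero]

theorem not_mem_multRadical : rightMul F τ.AA τ.am ∉ multRadical F τ.AA := by
  intro h
  obtain ⟨J, hJ1, hJ2, hJ3⟩ := exists_ideal_of_mem_multRadical h
  obtain ⟨n, hn⟩ := hJ2
    (Set.range fun i => rightMul F τ.AA (τ.ax i) * rightMul F τ.AA τ.am) (Set.finite_range _)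
    (by
      rintro _ ⟨i, rfl⟩
      exact (hJ1.2 _ hJ3 _ (NonUnitalAlgebra.subset_adjoin F ⟨τ.ax i, rfl⟩)).1)
  have h1 := τ.length_blk (n + 1)
  have h2 := Nat.self_le_factorial (n + 1 + 1)
  have h3 := run_ne_zero (τ := τ) (n + 1)
  cases hb : τ.blk (n + 1) with
  | nil => rw [hb] at h1; simp at h1; omega
  | cons a w =>
    rw [hb] at h1 h3
    rw [List.length_cons] at h1
    have h4 := hn (w.reverse.map fun i => rightMul F τ.AA (τ.ax i) * rightMul F τ.AA τ.am)
      (by simp; omega) (by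
        intro x hx
        obtain ⟨i, -, rfl⟩ := List.mem_map.mp hx
        exact ⟨i, rfl⟩)
    have h5 : ((-rightMul F τ.AA (τ.ax a) τ.a0 : τ.AA) : End F τ.V) =
        τ.Th (τ.X a) * τ.a0 := by
      rw [NegMemClass.coe_neg, rightMul_ann _ _ _ τ.a0_mul, neg_neg]
      rfl
    have h6 := τ.steps (n + 1) w 1 (-rightMul F τ.AA (τ.ax a) τ.a0)
      (by intro g; rw [h5, mul_assoc, a0_mul, mul_zero]) (fun _ => τ.vac)
    rw [h4, h5] at h6
    apply h3
    have h7 : lam (0 + 1) = 0 := by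
      have := (lt_lam_iff 0 0).not.mpr (not_cl_self 0)
      omega
    rw [run, mm, h7, Rst]
    exact h6.symm

end TData

end Pool.Agent.P.MP_2c0ed3_al
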