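import Pool.Agent.P.MP_2c0ed3_al.Defs

set_option autoImplicit false

namespace Pool.Agent.P.MP_2c0ed3_al

universe u

section Nil

variable {F : Type u} [Field F] {A : Type u} [LieRing A] [LieAlgebra F A]

theorem isNilpotent_of_mem_locNil {J : Submodule F (Module.End F A)} (h : IsLocNilAssoc F A J)
    {x : Module.End F A} (hx : x ∈ J) : IsNilpotent x := by
  obtain ⟨n, -, hn⟩ := h {x} (by simpa using hx)
  refine ⟨n, ?_⟩
  have := hn (List.replicate n x) (by simp) (by
    intro y hy
    rw [List.eq_of_mem_replicate hy]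
    exact NonUnitalAlgebra.subset_adjoin F (by simp))
  simpa using this

theorem pow_succ_mem {w : Module.End F A} (hw : w ∈ multAlg F A) (n : ℕ) :
    w ^ (n + 1) ∈ multAlg F A := by
  induction n with
  | zero => simpa using hw
  | succ n ih => rw [pow_succ]; exact mul_mem ih hw

theorem isNilpotent_of_mem_multRadical {x : Module.End F A} (hx : x ∈ multRadical F A) :
    IsNilpotent x := by
  have key : x ∈ multAlg F A ∧ ∀ w ∈ multAlg F A, IsNilpotent w → IsNilpotent (x + w) := by
    rw [multRadical, sSup_eq_iSup'] at hx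
    refine Submodule.iSup_induction (motive := fun x => x ∈ multAlg F A ∧
      ∀ w ∈ multAlg F A, IsNilpotent w → IsNilpotent (x + w)) _ hx ?_ ?_ ?_
    · rintro ⟨J, ⟨hJ1, hJ2⟩, hJ3⟩ z hz
      refine ⟨hJ1 z hz, fun w hw hn => ?_⟩
      have h1 : ∀ n : ℕ, (z + w) ^ (n + 1) - w ^ (n + 1) ∈ J := by
        intro n
        induction n with
        | zero => simpa using hz
        | succ n ih =>
          have e : (z + w) ^ (n + 1 + 1) - w ^ (n + 1 + 1)
              = ((z + w) ^ (n + 1) - w ^ (n + 1)) * (z + w) + w ^ (n + 1) * z := by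
            rw [pow_succ (z + w) (n + 1), pow_succ w (n + 1)]; noncomm_ring
          rw [e]
          exact J.add_mem (hJ2 _ ih _ (add_mem (hJ1 z hz) hw)).2
            (hJ2 _ hz _ (pow_succ_mem hw n)).1
      obtain ⟨n, hn⟩ := hn
      have h2 : w ^ (n + 1) = 0 := by rw [pow_succ, hn, zero_mul]
      have h3 := h1 n
      rw [h2, sub_zero] at h3
      exact (isNilpotent_of_mem_locNil hJ3 h3).of_pow
    · exact ⟨zero_mem _, fun w _ hn => by simpa using hn⟩
    · rintro a b ⟨ha1, ha2⟩ ⟨hb1, hb2⟩
      refine ⟨add_mem ha1 hb1, fun w hw hn => ?_⟩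
      rw [add_assoc]
      exact ha2 _ (add_mem hb1 hw) (hb2 w hw hn)
  simpa using key.2 0 (zero_mem _) IsNilpotent.zero

end Nil

section Example

variable (F : Type u) [Field F]

/-- The backward shift on finitely supported sequences. -/
noncomputable def D : Module.End F (ℕ →₀ F) :=
  Finsupp.lcomapDomain Nat.succ Nat.succ_injective

theorem D_apply (m : ℕ →₀ F) (i : ℕ) : D F m i = m (i + 1) := rfl

theorem D_pow_apply (k : ℕ) (m : ℕ →₀ F) (i : ℕ) : (D F ^ k) m i = m (i + k) := by
  induction k generalizing i with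
  | zero => simp
  | succ k ih => rw [pow_succ', Module.End.mul_apply, D_apply, ih]; congr 1; ring

theorem D_pow_eventually (m : ℕ →₀ F) : ∃ N : ℕ, ∀ k, N ≤ k → (D F ^ k) m = 0 := by
  refine ⟨m.support.sup id + 1, fun k hk => ?_⟩
  ext i
  rw [D_pow_apply]
  by_contra h
  have : i + k ∈ m.support := by simpa using h
  have := Finset.le_sup (f := id) this
  simp only [id] at this
  omega

/-- The semidirect sum of a line and the sequence space. -/
def B : Type u := F × (ℕ →₀ F)

noncomputable instance : AddCommGroup (B F) := inferInstanceAs (AddCommGroup (F × (ℕ →₀ F)))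
noncomputable instance : Module F (B F) := inferInstanceAs (Module F (F × (ℕ →₀ F)))

variable {F}

/-- First coordinate. -/
def fst (x : B F) : F := Prod.fst x
/-- Second coordinate. -/
def snd (x : B F) : ℕ →₀ F := Prod.snd x
/-- Pairing. -/
def mk (s : F) (m : ℕ →₀ F) : B F := (s, m)

theorem B_ext {x y : B F} (h1 : fst x = fst y) (h2 : snd x = snd y) : x = y := Prod.ext h1 h2
@[simp] theorem fst_mk (s : F) (m : ℕ →₀ F) : fst (mk s m) = s := rfl
@[simp] theorem snd_mk (s : F) (m : ℕ →₀ F) : snd (mk s m) = m := rfl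
@[simp] theorem fst_add (x y : B F) : fst (x + y) = fst x + fst y := rfl
@[simp] theorem snd_add (x y : B F) : snd (x + y) = snd x + snd y := rfl
@[simp] theorem fst_smul (c : F) (x : B F) : fst (c • x) = c * fst x := rfl
@[simp] theorem snd_smul (c : F) (x : B F) : snd (c • x) = c • snd x := rfl
@[simp] theorem fst_zero : fst (0 : B F) = 0 := rfl
@[simp] theorem snd_zero : snd (0 : B F) = 0 := rfl

noncomputable instance : Bracket (B F) (B F) :=
  ⟨fun x y => mk 0 (fst y • D F (snd x) - fst x • D F (snd y))⟩

@[simp] theorem fst_lie (x y : B F) : fst ⁅x, y⁆ = 0 := rfl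
@[simp] theorem snd_lie (x y : B F) :
    snd ⁅x, y⁆ = fst y • D F (snd x) - fst x • D F (snd y) := rfl

noncomputable instance : LieRing (B F) where
  add_lie x y z := B_ext (by simp) (by simp [add_smul]; abel)
  lie_add x y z := B_ext (by simp) (by simp [add_smul]; abel)
  lie_self x := B_ext (by simp) (by simp)
  leibniz_lie x y z := B_ext (by simp) (by simp [smul_sub, smul_smul, mul_comm])

noncomputable instance : LieAlgebra F (B F) where
  lie_smul c x y := B_ext (by simp) (by simp [smul_sub, smul_smul, mul_comm])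

/-- The subalgebra of pairs killed by `D ^ N`. -/
noncomputable def K (N : ℕ) : LieSubalgebra F (B F) where
  carrier := {x | (D F ^ N) (snd x) = 0}
  add_mem' := by
    intro a b ha hb
    simp only [Set.mem_ofPred_eq, snd_add, map_add] at *
    rw [ha, hb, add_zero]
  zero_mem' := by simp
  smul_mem' := by
    intro c a ha
    simp only [Set.mem_ofPred_eq, snd_smul, map_smul] at *
    rw [ha, smul_zero]
  lie_mem' := by
    intro a b ha hb
    simp only [Set.mem_ofPred_eq, snd_lie, map_sub, map_smul] at *
    rw [← Module.End.mul_apply, ← Module.End.mul_apply, ← pow_succ, pow_succ',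
      Module.End.mul_apply, Module.End.mul_apply, ha, hb]
    simp

theorem nilpotent_of_le (N : ℕ) (S : LieSubalgebra F (B F)) (hS : S ≤ K N) :
    LieRing.IsNilpotent S := by
  have key : ∀ k j : ℕ, k + 1 + j = N + 1 → ∀ x ∈ LieModule.lowerCentralSeries F S S (k + 1),
      fst (x : B F) = 0 ∧ (D F ^ j) (snd (x : B F)) = 0 := by
    intro k
    induction k with
    | zero =>
      intro j hj x hx
      have hjN : j = N := by omega
      refine ⟨?_, hjN ▸ hS x.2⟩
      rw [LieModule.lowerCentralSeries_succ, ← LieSubmodule.mem_toSubmodule,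
        LieSubmodule.lieIdeal_oper_eq_linear_span'] at hx
      induction hx using Submodule.span_induction with
      | mem x hx => obtain ⟨a, -, b, -, rfl⟩ := hx; simp
      | zero => simp
      | add x y _ _ hx hy => simp [hx, hy]
      | smul c x _ hx => simp [hx]
    | succ k ih =>
      intro j hj x hx
      rw [LieModule.lowerCentralSeries_succ, ← LieSubmodule.mem_toSubmodule,
        LieSubmodule.lieIdeal_oper_eq_linear_span'] at hx
      induction hx using Submodule.span_induction with
      | mem x hx =>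
        obtain ⟨a, -, b, hb, rfl⟩ := hx
        obtain ⟨h1, h2⟩ := ih (j + 1) (by omega) b hb
        refine ⟨by simp, ?_⟩
        rw [pow_succ, Module.End.mul_apply] at h2
        simp [h1, h2]
      | zero => simp
      | add x y _ _ hx hy => simp [hx, hy]
      | smul c x _ hx => simp [hx]
  refine (LieModule.isNilpotent_iff F S S).mpr ⟨N + 1, ?_⟩
  rw [eq_bot_iff]
  intro x hx
  obtain ⟨h1, h2⟩ := key N 0 (by omega) x hx
  rw [LieSubmodule.mem_bot]
  apply Subtype.ext
  exact B_ext (by simpa using h1) (by simpa using h2)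

theorem top_locNil : IsLocNilLieIdeal F (B F) ⊤ := by
  intro s _
  choose N hN using D_pow_eventually F
  refine nilpotent_of_le (s.sup fun x => N (snd x)) _ ?_
  rw [LieSubalgebra.lieSpan_le]
  intro x hx
  exact hN _ _ (Finset.le_sup (f := fun x => N (snd x)) hx)

theorem iterate_lie (x y : B F) (n : ℕ) :
    fst ((fun z : B F => ⁅z, x⁆)^[n + 1] y) = 0 ∧
    snd ((fun z : B F => ⁅z, x⁆)^[n + 1] y) = fst x ^ n • (D F ^ n) (snd ⁅y, x⁆) := by
  induction n with
  | zero => simp
  | succ n ih =>
    rw [Function.iterate_succ_apply']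
    refine ⟨by simp, ?_⟩
    rw [snd_lie, ih.1, ih.2, zero_smul, sub_zero, map_smul, smul_smul, pow_succ' (D F),
      Module.End.mul_apply, pow_succ']

theorem engel : IsEngel (B F) := by
  intro x y
  obtain ⟨N, hN⟩ := D_pow_eventually F (snd ⁅y, x⁆)
  refine ⟨N + 1, by omega, B_ext (iterate_lie x y N).1 ?_⟩
  rw [(iterate_lie x y N).2, hN N le_rfl]
  simp

theorem rightMul_pow (n : ℕ) (m : ℕ →₀ F) :
    (rightMul F (B F) (mk 1 0) ^ n) (mk 0 m) = mk 0 ((D F ^ n) m) := by
  induction n with
  | zero => simp
  | succ n ih =>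
    rw [pow_succ', Module.End.mul_apply, ih, pow_succ', Module.End.mul_apply]
    exact B_ext (by simp [rightMul]) (by simp [rightMul])

theorem not_nilpotent : ¬ IsNilpotent (rightMul F (B F) (mk 1 0)) := by
  rintro ⟨n, hn⟩
  have h := rightMul_pow (F := F) n (Finsupp.single n 1)
  rw [hn] at h
  have h2 := congrArg (fun z : B F => snd z 0) h
  simp [D_pow_apply] at h2

end Example

end Pool.Agent.P.MP_2c0ed3_al
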