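import Mathlib

set_option autoImplicit false

open Submodule Polynomial
open scoped Pointwise

namespace Pool.Agent.P.MP_2c0ed3_al.Z

variable {C Q : Type*} [CommRing C] [Ring Q] [Algebra C Q]

/-- Long products of elements of a finite subset vanish. -/
def LN (T : Set Q) : Prop := ∀ s : Set Q, s.Finite → s ⊆ T → ∃ n, ∀ x ∈ s ^ n, x = 0

/-- `I` is a two-sided ideal of `T`. -/
def Idl (T I : Submodule C Q) : Prop := I ≤ T ∧ T * I ≤ I ∧ I * T ≤ I

/-- `y` normalises `T`. -/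
def Nrm (y : Q) (T : Submodule C Q) : Prop := ∀ t ∈ T, y * t - t * y ∈ T

theorem LN.nil {T : Set Q} (h : LN T) {M : Submodule C Q} (hM : M.FG) (hT : M ≤ span C T) :
    IsNilpotent M := by
  obtain ⟨s, rfl⟩ := hM
  obtain ⟨t, h1, h2⟩ := subset_span_finite_of_subset_span (span_le.1 hT)
  obtain ⟨n, hn⟩ := h t t.finite_toSet h1
  refine ⟨n, le_bot_iff.1 ((pow_le_pow_left' (span_le.2 h2) n).trans ?_)⟩
  rw [span_pow]
  exact span_le.2 hn

theorem LN_of_nil {T : Submodule C Q} (h : ∀ M : Submodule C Q, M.FG → M ≤ T → IsNilpotent M) :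
    LN (T : Set Q) := fun s hs hT => by
  obtain ⟨n, hn⟩ := h _ (fg_span hs) (span_le.2 hT)
  rw [span_pow] at hn
  exact ⟨n, fun x hx => (mem_bot C).1 (by rw [← zero_eq_bot, ← hn]; exact subset_span hx)⟩

theorem one_mem_sup (M : Submodule C Q) : (1 : Q) ∈ 1 ⊔ M := mem_sup_left (one_le.1 le_rfl)

theorem swap_pow {P W : Submodule C Q} (h : W * P ≤ P * W) (k : ℕ) : W ^ k * P ≤ P * W ^ k := by
  induction k with
  | zero => simp
  | succ k ih =>
    rw [pow_succ', mul_assoc, ← mul_assoc P]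
    exact (mul_le_mul_right ih _).trans (by rw [← mul_assoc]; exact mul_le_mul_left h _)

theorem swap_pow' {P W : Submodule C Q} (h : W * P ≤ P * W) (k : ℕ) : W * P ^ k ≤ P ^ k * W := by
  induction k with
  | zero => simp
  | succ k ih =>
    rw [pow_succ, ← mul_assoc, mul_assoc _ P]
    exact (mul_le_mul_left ih _).trans (by rw [mul_assoc]; exact mul_le_mul_right h _)

theorem mul_pow_le {P W : Submodule C Q} (h : W * P ≤ P * W) (k : ℕ) :
    (P * W) ^ k ≤ P ^ k * W ^ k := by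
  induction k with
  | zero => simp
  | succ k ih =>
    rw [pow_succ', pow_succ', pow_succ' W]
    calc P * W * (P * W) ^ k ≤ P * W * (P ^ k * W ^ k) := mul_le_mul_right ih _
      _ = P * (W * P ^ k) * W ^ k := by simp only [mul_assoc]
      _ ≤ P * (P ^ k * W) * W ^ k := mul_le_mul_left (mul_le_mul_right (swap_pow' h k) _) _
      _ = _ := by simp only [mul_assoc]

theorem swap_of_nrm {P M : Submodule C Q} (h : ∀ y ∈ M, Nrm y P) :
    (1 ⊔ M) * P ≤ P * (1 ⊔ M) := by
  rw [Submodule.sup_mul, one_mul, Submodule.mul_sup, mul_one]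
  refine sup_le le_sup_left (mul_le.2 fun y hy t ht => ?_)
  rw [← sub_add_cancel (y * t) (t * y)]
  exact add_mem_sup (h y hy t ht) (mul_mem_mul ht hy)

theorem swap_of_nrm' {P M : Submodule C Q} (h : ∀ y ∈ M, Nrm y P) :
    P * (1 ⊔ M) ≤ (1 ⊔ M) * P := by
  rw [Submodule.sup_mul, one_mul, Submodule.mul_sup, mul_one]
  refine sup_le le_sup_left (mul_le.2 fun t ht y hy => ?_)
  rw [show t * y = -(y * t - t * y) + y * t by abel]
  exact add_mem_sup (neg_mem (h y hy t ht)) (mul_mem_mul hy ht)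

theorem Nrm.span {P : Submodule C Q} {s : Set Q} (h : ∀ y ∈ s, Nrm y P) :
    ∀ y ∈ span C s, Nrm y P := fun y hy t ht => by
  induction hy using span_induction with
  | mem y hy => exact h y hy t ht
  | zero => simp
  | add y z _ _ h1 h2 => convert add_mem h1 h2 using 1; noncomm_ring
  | smul c y _ h1 => simpa [smul_sub] using smul_mem _ c h1

theorem pow_mono (M : Submodule C Q) {a b : ℕ} (h : a ≤ b) : (1 ⊔ M) ^ a ≤ (1 ⊔ M) ^ b :=
  pow_le_pow_right' le_sup_left h

theorem sup_pow_succ (M : Submodule C Q) (k : ℕ) :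
    (1 ⊔ M) ^ (k + 1) ≤ (1 ⊔ M) ^ k ⊔ M ^ (k + 1) := by
  induction k with
  | zero => simp
  | succ k ih =>
    rw [pow_succ' _ (k + 1)]
    refine (mul_le_mul_right ih _).trans ?_
    rw [Submodule.mul_sup, ← pow_succ', Submodule.sup_mul, one_mul, ← pow_succ']
    exact sup_le le_sup_left (sup_le (le_sup_left.trans' (pow_le_pow_left' le_sup_right _))
      le_sup_right)

/-- The subalgebra generated by a submodule, as a submodule. -/
def Adj (H : Submodule C Q) : Submodule C Q := (Algebra.adjoin C (H : Set Q)).toSubmodule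

theorem Adj.le (H : Submodule C Q) : H ≤ Adj H := fun _ h => Algebra.subset_adjoin h

theorem Adj.one (H : Submodule C Q) : (1 : Q) ∈ Adj H := one_mem (Algebra.adjoin C (H : Set Q))

theorem Adj.mul (H : Submodule C Q) : Adj H * Adj H ≤ Adj H :=
  mul_le.2 fun _ h _ h' => mul_mem (S := Subalgebra C Q) h h'

theorem Adj.ind {H L : Submodule C Q} (h1 : (1 : Q) ∈ L) (h : H * L ≤ L) : Adj H ≤ L := by
  have : ∀ x ∈ Adj H, ∀ y ∈ L, x * y ∈ L := fun x hx => by
    induction hx using Algebra.adjoin_induction with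
    | mem x hx => exact fun y hy => h (mul_mem_mul hx hy)
    | algebraMap c => exact fun y hy => by simpa [← Algebra.smul_def] using smul_mem _ c hy
    | add x y _ _ h2 h3 => exact fun z hz => by simpa [add_mul] using add_mem (h2 z hz) (h3 z hz)
    | mul x y _ _ h2 h3 => exact fun z hz => by simpa [mul_assoc] using h2 _ (h3 z hz)
  exact fun x hx => by simpa using this x hx 1 h1

theorem step {H : Submodule C Q} {e : Q} (he : Nrm e H) {N : ℕ}
    (hN : e ^ (N + 1) ∈ (1 ⊔ span C {e}) ^ N * Adj H) :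
    Adj (H ⊔ span C {e}) ≤ (1 ⊔ span C {e}) ^ N * Adj H := by
  set E := 1 ⊔ span C {e}
  have h0 : H * E ^ N ≤ E ^ N * H := swap_pow' (swap_of_nrm' (Nrm.span (by simpa))) N
  refine Adj.ind (by simpa using mul_mem_mul (pow_mem_pow E (one_mem_sup _) N) (Adj.one H)) ?_
  rw [Submodule.sup_mul, ← mul_assoc, ← mul_assoc]
  refine sup_le ((mul_le_mul_left h0 _).trans ?_) ?_
  · rw [mul_assoc]
    exact mul_le_mul_right ((mul_le_mul_left (Adj.le H) _).trans (Adj.mul H)) _
  · have h1 : span C {e} * E ^ N ≤ E ^ N ⊔ span C {e} ^ (N + 1) :=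
      (mul_le_mul_left le_sup_right _).trans (pow_succ' E N ▸ sup_pow_succ _ N)
    refine (mul_le_mul_left h1 _).trans ?_
    rw [Submodule.sup_mul, span_pow, Set.singleton_pow]
    refine sup_le le_rfl ((mul_le_mul_left (span_le.2 (Set.singleton_subset_iff.2 hN)) _).trans ?_)
    rw [mul_assoc]
    exact mul_le_mul_right (Adj.mul H) _

theorem steps {H U : Submodule C Q} {s : Set Q} (hs : s.Finite) (hU : s ⊆ U)
    (he : ∀ e ∈ s, ∀ t ∈ H ⊔ span C s, e * t - t * e ∈ H)
    (hN : ∀ e ∈ s, ∃ N, e ^ (N + 1) ∈ (1 ⊔ span C {e}) ^ N * Adj H) :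
    ∃ c, Adj (H ⊔ span C s) ≤ (1 ⊔ U) ^ c * Adj H := by
  induction s, hs using Set.Finite.induction_on with
  | empty => exact ⟨0, by simp⟩
  | @insert e s _ _ ih =>
    have h0 : H ⊔ span C s ≤ H ⊔ span C (insert e s) :=
      sup_le_sup_left (span_mono (Set.subset_insert _ _)) _
    obtain ⟨c, hc⟩ := ih ((Set.subset_insert _ _).trans hU)
      (fun x hx t ht => he x (Or.inr hx) t (h0 ht)) fun x hx => hN x (Or.inr hx)
    obtain ⟨N, h1⟩ := hN e (Or.inl rfl)
    have h2 := step (H := H ⊔ span C s)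
      (fun t ht => mem_sup_left (he e (Or.inl rfl) t (h0 ht))) (mul_le_mul_right
        (Adj.ind (Adj.one _) ((mul_le_mul_left (le_sup_left.trans (Adj.le _)) _).trans
          (Adj.mul _))) _ h1)
    refine ⟨N + c, ?_⟩
    rw [span_insert, sup_comm (span C {e}), ← sup_assoc, pow_add, mul_assoc]
    exact h2.trans (mul_le_mul' (pow_le_pow_left' (sup_le_sup_left
      (span_le.2 (Set.singleton_subset_iff.2 (hU (Or.inl rfl)))) _) _) hc)

/-- Left normed commutators of weight `j + 1`. -/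
def Cm (D : Set Q) : ℕ → Set Q
  | 0 => D
  | j + 1 => Set.image2 (fun d b => d * b - b * d) D (Cm D j)

theorem Cm.finite {D : Set Q} (h : D.Finite) : ∀ j, (Cm D j).Finite
  | 0 => h
  | j + 1 => h.image2 _ (Cm.finite h j)

theorem br_span {s t : Set Q} {M : Submodule C Q} (h : ∀ a ∈ s, ∀ b ∈ t, a * b - b * a ∈ M) :
    ∀ a ∈ span C s, ∀ b ∈ span C t, a * b - b * a ∈ M := fun a ha b hb => by
  induction ha using span_induction with
  | mem a ha =>
    induction hb using span_induction with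
    | mem b hb => exact h a ha b hb
    | zero => simp
    | add y z _ _ h1 h2 => convert add_mem h1 h2 using 1; noncomm_ring
    | smul c y _ h1 => simpa [smul_sub] using smul_mem _ c h1
  | zero => simp
  | add y z _ _ h1 h2 => convert add_mem h1 h2 using 1; noncomm_ring
  | smul c y _ h1 => simpa [smul_sub] using smul_mem _ c h1

theorem Cm.br (D : Set Q) (i : ℕ) : ∀ j, ∀ a ∈ span C (Cm D i), ∀ b ∈ span C (Cm D j),
    a * b - b * a ∈ span C (Cm D (i + j + 1)) := by
  have h0 : ∀ j, ∀ a ∈ span C D, ∀ b ∈ span C (Cm D j), a * b - b * a ∈ span C (Cm D (j + 1)) :=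
    fun j => br_span fun a ha b hb => subset_span ⟨a, ha, b, hb, rfl⟩
  induction i with
  | zero => simpa [Cm] using h0
  | succ i ih =>
    refine fun j => br_span ?_
    rintro _ ⟨d, hd, a, ha, rfl⟩ b hb
    have h1 := h0 _ d (subset_span hd) _ (ih j a (subset_span ha) b (subset_span hb))
    have h2 := ih _ a (subset_span ha) _ (h0 _ d (subset_span hd) b (subset_span hb))
    rw [show i + 1 + j + 1 = i + j + 1 + 1 by ring]
    rw [show i + (j + 1) + 1 = i + j + 1 + 1 by ring] at h2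
    convert sub_mem h1 h2 using 1
    noncomm_ring

/-- The Lie algebra generated by `D`. -/
def Lg (C : Type*) [CommRing C] [Algebra C Q] (D : Set Q) : Submodule C Q :=
  span C (⋃ j, Cm D j)

theorem Lg.br (D : Set Q) : ∀ a ∈ Lg C D, ∀ b ∈ Lg C D, a * b - b * a ∈ Lg C D :=
  br_span fun a ha b hb => by
    obtain ⟨i, hi⟩ := Set.mem_iUnion.1 ha
    obtain ⟨j, hj⟩ := Set.mem_iUnion.1 hb
    exact span_mono (Set.subset_iUnion _ _) (Cm.br D i j a (subset_span hi) b (subset_span hj))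

/-- The part of weight greater than `K` of the Rees Lie algebra. -/
noncomputable def Rs (C : Type*) [CommRing C] [Algebra C Q] (D : Set Q) (K : ℕ) : Submodule C Q[X] :=
  span C (insert X {f | ∃ j, K ≤ j ∧ ∃ b ∈ span C (Cm D j), f = monomial (j + 1) b})

theorem mon_pow {M : Submodule C Q} {L : Submodule C Q[X]} {w : ℕ}
    (h : ∀ x ∈ M, monomial w x ∈ L) (n : ℕ) : ∀ x ∈ M ^ n, monomial (w * n) x ∈ L ^ n := by
  induction n with
  | zero =>
    intro x hx
    obtain ⟨c, rfl⟩ := mem_one.1 hx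
    exact mem_one.2 ⟨c, by simp⟩
  | succ n ih =>
    intro x hx
    rw [pow_succ] at hx ⊢
    refine Submodule.mul_induction_on hx (fun a ha b hb => ?_) fun a b h1 h2 => ?_
    · rw [mul_add, mul_one, ← monomial_mul_monomial]
      exact mul_mem_mul (ih a ha) (h b hb)
    · rw [map_add]; exact add_mem h1 h2

theorem Adj.pow (H : Submodule C Q) (n : ℕ) : Adj H ^ n ≤ Adj H := by
  induction n with
  | zero => simpa using one_le.2 (Adj.one H)
  | succ n ih => exact pow_succ (Adj H) n ▸ (mul_le_mul_left ih _).trans (Adj.mul H)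

theorem Rs.drop {D : Set Q} (hD : D.Finite)
    (hN : ∀ j, ∀ b ∈ Cm D j, ∃ N, b ^ (N + 1) ∈ (1 ⊔ span C {b}) ^ N) (K : ℕ) :
    ∃ c, Adj (Rs C D K) ≤ (1 ⊔ Rs C D 0) ^ c * Adj (Rs C D (K + 1)) := by
  have hX : ∀ K, (X : Q[X]) ∈ Rs C D K := fun K => subset_span (Or.inl rfl)
  have hm : ∀ K j, K ≤ j → ∀ b ∈ span C (Cm D j), monomial (j + 1) b ∈ Rs C D K :=
    fun K j h b hb => subset_span (Or.inr ⟨j, h, b, hb, rfl⟩)
  have h0 : Rs C D K = Rs C D (K + 1) ⊔ span C (monomial (K + 1) '' Cm D K) := by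
    refine le_antisymm (span_le.2 ?_) (sup_le (span_le.2 ?_) (span_le.2 ?_))
    · rintro _ (rfl | ⟨j, hj, b, hb, rfl⟩)
      · exact mem_sup_left (hX _)
      · rcases hj.eq_or_lt with rfl | hj
        · refine mem_sup_right ?_
          have := mem_map_of_mem (f := (monomial (R := Q) (K + 1)).restrictScalars C) hb
          rwa [map_span] at this
        · exact mem_sup_left (hm _ _ hj b hb)
    · rintro _ (rfl | ⟨j, hj, b, hb, rfl⟩)
      exacts [hX _, hm _ _ (by omega) b hb]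
    · rintro _ ⟨b, hb, rfl⟩
      exact hm _ _ le_rfl b (subset_span hb)
  rw [h0]
  refine steps ((Cm.finite hD K).image _) ?_ ?_ ?_
  · rintro _ ⟨b, hb, rfl⟩
    exact hm _ _ K.zero_le b (subset_span hb)
  · rintro _ ⟨b, hb, rfl⟩ t ht
    rw [← h0] at ht
    refine br_span (s := {monomial (K + 1) b}) ?_ _ (subset_span rfl) t ht
    rintro _ rfl _ (rfl | ⟨j, hj, a, ha, rfl⟩)
    · rw [← (commute_X _).eq, sub_self]; exact zero_mem _
    · rw [monomial_mul_monomial, monomial_mul_monomial, add_comm (j + 1), ← map_sub,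
        show K + 1 + (j + 1) = K + j + 1 + 1 by ring]
      exact hm _ _ (by omega) _ (Cm.br D K j b (subset_span hb) a ha)
  · rintro _ ⟨b, hb, rfl⟩
    obtain ⟨N, h1⟩ := hN K b hb
    refine ⟨N, ?_⟩
    have h2 : (X ^ (K + 1) : Q[X]) ∈ Adj (Rs C D (K + 1)) :=
      Adj.pow _ _ (pow_mem_pow _ (Adj.le _ (hX _)) _)
    have h3 := mon_pow (w := K + 1) (L := (1 ⊔ span C {monomial (K + 1) b}) *
        (1 ⊔ span C {X ^ (K + 1)})) (fun x hx => by
      obtain ⟨y, hy, z, hz, rfl⟩ := mem_sup.1 hx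
      obtain ⟨c, rfl⟩ := mem_one.1 hy
      obtain ⟨c', rfl⟩ := mem_span_singleton.1 hz
      rw [map_add, Algebra.algebraMap_eq_smul_one, ← smul_monomial, ← smul_monomial,
        monomial_one_right_eq_X_pow]
      refine add_mem (smul_mem _ _ ?_) (smul_mem _ _ ?_)
      · rw [← one_mul (X ^ (K + 1) : Q[X])]
        exact mul_mem_mul (one_mem_sup _) (mem_sup_right (by simp))
      · rw [← mul_one (monomial (K + 1) b)]
        exact mul_mem_mul (mem_sup_right (by simp)) (one_mem_sup _)) N _ h1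
    have h4 := mul_pow_le (swap_of_nrm (Nrm.span (by
      rintro _ rfl t -
      rw [(commute_X_pow t _).eq, sub_self]; exact zero_mem _))) N h3
    have h5 := mul_mem_mul (mul_le_mul_right ((pow_le_pow_left' (sup_le (one_le.2 (Adj.one _))
      (span_le.2 (Set.singleton_subset_iff.2 h2))) N).trans (Adj.pow _ N)) _ h4) h2
    rw [mul_assoc, monomial_mul_X_pow, ← Nat.mul_succ, ← monomial_pow] at h5
    exact mul_le_mul_right (Adj.mul _) _ h5

/-- Polynomials whose coefficients have controlled degree. -/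
def Xi (U : Submodule C Q) (K c : ℕ) : Submodule C Q[X] where
  carrier := {f | ∀ l, f.coeff l ∈ (1 ⊔ U) ^ (l / (K + 1) + c)}
  add_mem' h h' l := by simpa using add_mem (h l) (h' l)
  zero_mem' l := by simp
  smul_mem' c f h l := by simpa using smul_mem _ c (h l)

theorem Xi.mul (U : Submodule C Q) (K c c' : ℕ) : Xi U K c * Xi U K c' ≤ Xi U K (c + c') :=
  mul_le.2 fun f hf g hg l => by
    rw [coeff_mul]
    refine sum_mem fun p hp => pow_mono U ?_
      ((pow_add (1 ⊔ U) _ _).ge (mul_mem_mul (hf p.1) (hg p.2)))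
    have : p.1 / (K + 1) + p.2 / (K + 1) ≤ (p.1 + p.2) / (K + 1) := Nat.div_add_div_le_add_div
    rw [show p.1 + p.2 = l by simpa using hp] at this
    omega

theorem Xi.mon {U : Submodule C Q} {K c l : ℕ} {x : Q} (h : x ∈ (1 ⊔ U) ^ (l / (K + 1) + c)) :
    monomial l x ∈ Xi U K c := fun l' => by
  rw [coeff_monomial]
  split_ifs with h1
  exacts [h1 ▸ h, zero_mem _]

theorem sublinear {D : Set Q} (hD : D.Finite)
    (hN : ∀ j, ∀ b ∈ Cm D j, ∃ N, b ^ (N + 1) ∈ (1 ⊔ span C {b}) ^ N) (K : ℕ) :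
    ∃ c, ∀ L, (1 ⊔ span C D) ^ L ≤ (1 ⊔ Lg C D) ^ (L / (K + 1) + c) := by
  have h1 : ∀ K, ∃ c, Adj (Rs C D 0) ≤ (1 ⊔ Rs C D 0) ^ c * Adj (Rs C D K) := fun K => by
    induction K with
    | zero => exact ⟨0, by simp⟩
    | succ K ih =>
      obtain ⟨c, hc⟩ := ih
      obtain ⟨c', hc'⟩ := Rs.drop hD hN K
      exact ⟨c + c', by rw [pow_add, mul_assoc]; exact hc.trans (mul_le_mul_right hc' _)⟩
  obtain ⟨c, hc⟩ := h1 K
  have h0 : ∀ n, (1 : Q) ∈ (1 ⊔ Lg C D) ^ n := fun n => by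
    simpa using pow_mem_pow _ (one_mem_sup (Lg C D)) n
  have h2 : ∀ K' c, (∀ j, K' ≤ j → 1 ≤ (j + 1) / (K + 1) + c) → Rs C D K' ≤ Xi (Lg C D) K c :=
    fun K' c h => span_le.2 (by
      rintro _ (rfl | ⟨j, hj, b, hb, rfl⟩)
      · exact Xi.mon (l := 1) (h0 _)
      · exact Xi.mon (pow_mono _ (h j hj) (by
          rw [pow_one]; exact mem_sup_right (span_mono (Set.subset_iUnion _ j) hb))))
  have h3 : Adj (Rs C D K) ≤ Xi (Lg C D) K 0 := Adj.ind (Xi.mon (l := 0) (h0 _))
    ((mul_le_mul_left (h2 K 0 fun j hj => by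
      simpa using (Nat.one_le_div_iff K.succ_pos).2 (by omega)) _).trans (Xi.mul _ _ 0 0))
  have h4 : ∀ c, (1 ⊔ Rs C D 0) ^ c ≤ Xi (Lg C D) K c := fun c => by
    induction c with
    | zero => simpa using one_le.2 (Xi.mon (l := 0) (h0 _))
    | succ c ih =>
      exact pow_succ (1 ⊔ Rs C D 0) c ▸ (mul_le_mul' ih (sup_le (one_le.2 (Xi.mon (l := 0) (h0 _)))
        (h2 0 1 fun _ _ => Nat.le_add_left _ _))).trans (Xi.mul _ _ _ _)
  refine ⟨c, fun L x hx => ?_⟩
  have h5 := mon_pow (w := 1) (L := Rs C D 0) (fun x hx => by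
    obtain ⟨y, hy, z, hz, rfl⟩ := mem_sup.1 hx
    obtain ⟨c, rfl⟩ := mem_one.1 hy
    rw [map_add, Algebra.algebraMap_eq_smul_one, ← smul_monomial]
    exact add_mem (smul_mem _ _ (subset_span (Or.inl rfl)))
      (subset_span (Or.inr ⟨0, le_rfl, z, hz, rfl⟩))) L x hx
  simpa using (hc.trans ((mul_le_mul' (h4 c) h3).trans (Xi.mul _ _ _ _)))
    (Adj.pow _ _ (pow_le_pow_left' (Adj.le _) L h5)) L

theorem cost {T P M : Submodule C Q} {D : Set Q} (hD : D.Finite)
    (hN : ∀ j, ∀ b ∈ Cm D j, ∃ N, b ^ (N + 1) ∈ (1 ⊔ span C {b}) ^ N) (hP : Idl T P)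
    (h1 : ∀ b ∈ Lg C D, Nrm b P) (h2 : Lg C D * P ≤ T) (hM : M ≤ P) (k : ℕ) :
    ∃ n, (M * (1 ⊔ span C D) ^ k) ^ (n + 1) ≤ T := by
  obtain ⟨c, hc⟩ := sublinear hD hN k
  have h3 : P * (1 ⊔ Lg C D) ≤ T := (swap_of_nrm' h1).trans (by
    rw [Submodule.sup_mul, one_mul]; exact sup_le hP.1 h2)
  have h4 : ∀ r, P ^ (r + 1) * (1 ⊔ Lg C D) ^ r ≤ P := fun r => by
    induction r with
    | zero => simp
    | succ r ih =>
      calc P ^ (r + 1 + 1) * (1 ⊔ Lg C D) ^ (r + 1)
          = P ^ r * (P * (P * (1 ⊔ Lg C D))) * (1 ⊔ Lg C D) ^ r := by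
            rw [pow_succ P (r + 1), pow_succ P r, pow_succ' (1 ⊔ Lg C D) r]
            simp only [mul_assoc]
        _ ≤ P ^ r * P * (1 ⊔ Lg C D) ^ r :=
            mul_le_mul_left (mul_le_mul_right ((mul_le_mul_right h3 _).trans hP.2.2) _) _
        _ ≤ P := pow_succ P r ▸ ih
  refine ⟨k * (c + 1) + c, (pow_le_pow_left' (mul_le_mul_left hM _) _).trans ((mul_pow_le (swap_pow
    (swap_of_nrm fun y hy => h1 y (span_mono (Set.subset_iUnion (Cm D) 0) hy)) k) _).trans
    (le_trans (mul_le_mul_right ?_ _) ((h4 _).trans hP.1)))⟩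
  rw [← pow_mul]
  refine (hc _).trans (le_of_eq ?_)
  rw [show k * (k * (c + 1) + c + 1) = (k + 1) * (k * (c + 1)) by ring,
    Nat.mul_div_cancel_left _ k.succ_pos]

end Pool.Agent.P.MP_2c0ed3_al.Z
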