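import Pool.Agent.P.MP_2c0ed3_al.ZA

set_option autoImplicit false

open Submodule

namespace Pool.Agent.P.MP_2c0ed3_al.Z

variable {F R Q : Type*} [Field F] [Ring R] [Algebra F R] [Ring Q] [Algebra F Q]

/-- `T` is a nonzero prime (non unital) subalgebra. -/
structure Prm (T : Submodule F R) : Prop where
  mul : T * T ≤ T
  ne : T ≠ ⊥
  prime : ∀ I J, Idl T I → Idl T J → I * J = ⊥ → I = ⊥ ∨ J = ⊥

theorem Idl.of {T I : Submodule F R} (h : I ≤ T) (h1 : ∀ s ∈ T, ∀ t ∈ I, s * t ∈ I)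
    (h2 : ∀ t ∈ I, ∀ s ∈ T, t * s ∈ I) : Idl T I := ⟨h, mul_le.2 h1, mul_le.2 h2⟩

theorem Idl.l {T I : Submodule F R} (h : Idl T I) {s t : R} (hs : s ∈ T) (ht : t ∈ I) :
    s * t ∈ I := h.2.1 (mul_mem_mul hs ht)

theorem Idl.r {T I : Submodule F R} (h : Idl T I) {s t : R} (ht : t ∈ I) (hs : s ∈ T) :
    t * s ∈ I := h.2.2 (mul_mem_mul ht hs)

theorem Idl.mul {T I J : Submodule F R} (hI : Idl T I) (hJ : Idl T J) : Idl T (I * J) :=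
  ⟨((mul_le_mul_right hJ.1 _).trans hI.2.2).trans hI.1,
    by rw [← mul_assoc]; exact mul_le_mul_left hI.2.1 _,
    by rw [mul_assoc]; exact mul_le_mul_right hJ.2.2 _⟩

theorem Idl.inf {T I J : Submodule F R} (hI : Idl T I) (hJ : Idl T J) : Idl T (I ⊓ J) :=
  Idl.of (inf_le_left.trans hI.1) (fun _ hs _ ht => ⟨hI.l hs ht.1, hJ.l hs ht.2⟩)
    fun _ ht _ hs => ⟨hI.r ht.1 hs, hJ.r ht.2 hs⟩

/-- Nonzero ideals. -/
def NZ (T I : Submodule F R) : Prop := I ≠ ⊥ ∧ Idl T I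

theorem Prm.top {T : Submodule F R} (h : Prm T) : NZ T T := ⟨h.ne, le_rfl, h.mul, h.mul⟩

theorem Prm.m {T : Submodule F R} (h : Prm T) {s t : R} (hs : s ∈ T) (ht : t ∈ T) : s * t ∈ T :=
  h.mul (mul_mem_mul hs ht)

theorem Prm.nzmul {T I J : Submodule F R} (h : Prm T) (hI : NZ T I) (hJ : NZ T J) :
    NZ T (I * J) := ⟨fun h0 => (h.prime I J hI.2 hJ.2 h0).elim hI.1 hJ.1, hI.2.mul hJ.2⟩

theorem Prm.inf {T I J : Submodule F R} (h : Prm T) (hI : NZ T I) (hJ : NZ T J) :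
    NZ T (I ⊓ J) := ⟨fun h0 => (h.nzmul hI hJ).1 (le_bot_iff.1 (h0 ▸ le_inf
      ((mul_le_mul_right hJ.2.1 _).trans hI.2.2.2) ((mul_le_mul_left hI.2.1 _).trans hJ.2.2.1))),
    hI.2.inf hJ.2⟩

theorem Prm.lann {T K : Submodule F R} (h : Prm T) (hK : NZ T K) {t : R} (ht : t ∈ T)
    (h0 : ∀ s ∈ K, t * s = 0) : t = 0 := by
  let I : Submodule F R := T ⊓ ⨅ s ∈ K, LinearMap.ker (LinearMap.mulRight F s)
  have hm : ∀ x, x ∈ I ↔ x ∈ T ∧ ∀ s ∈ K, x * s = 0 := fun x => by simp [I, mem_iInf]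
  have hI : Idl T I := Idl.of inf_le_left
    (fun s hs x hx => (hm _).2 ⟨h.m hs hx.1, fun u hu => by
      rw [mul_assoc, ((hm _).1 hx).2 u hu, mul_zero]⟩)
    fun x hx s hs => (hm _).2 ⟨h.m hx.1 hs, fun u hu => by
      rw [mul_assoc, ((hm _).1 hx).2 _ (hK.2.l hs hu)]⟩
  have := (h.prime I K hI hK.2 (le_bot_iff.1 (mul_le.2 fun x hx s hs =>
    ((hm _).1 hx).2 s hs))).resolve_right hK.1
  exact (mem_bot F).1 (this ▸ (hm t).2 ⟨ht, h0⟩)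

/-- The properties of the Martindale ring of quotients of `T` that are used. -/
structure Mart (T : Submodule F R) (ι : R →ₗ[F] Q) : Prop where
  mul : ∀ s ∈ T, ∀ t ∈ T, ι (s * t) = ι s * ι t
  inj : ∀ t ∈ T, ι t = 0 → t = 0
  den : ∀ q : Q, ∃ K, NZ T K ∧ ∀ t ∈ K, ∃ u ∈ T, q * ι t = ι u
  ann : ∀ (q : Q) (K : Submodule F R), NZ T K → (∀ t ∈ K, q * ι t = 0) → q = 0
  ext : ∀ Γ : Submodule F (R × R), (∀ p ∈ Γ, p.2 ∈ T) → NZ T (Γ.map (LinearMap.fst F R R)) →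
    (∀ p ∈ Γ, ∀ u ∈ T, (p.1 * u, p.2 * u) ∈ Γ) → (∀ p ∈ Γ, p.1 = 0 → p.2 = 0) →
      ∃ q : Q, ∀ p ∈ Γ, q * ι p.1 = ι p.2

/-- Linear maps that are right `T`-linear on a nonzero ideal. -/
def GG {T : Submodule F R} (h : Prm T) : Subalgebra F (Module.End F R) where
  carrier := {φ | ∃ K, NZ T K ∧ ∀ t ∈ K, φ t ∈ T ∧ ∀ u ∈ T, φ (t * u) = φ t * u}
  mul_mem' := by
    rintro φ ψ ⟨K, hK, h1⟩ ⟨K', hK', h2⟩
    refine ⟨K' * K, h.nzmul hK' hK, fun t ht => ?_⟩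
    have h3 : t ∈ K' := ((mul_le_mul_right hK.2.1 _).trans hK'.2.2.2) ht
    have h4 : ψ t ∈ K := Submodule.mul_induction_on ht
      (fun a ha b hb => (h2 a ha).2 b (hK.2.1 hb) ▸ hK.2.l (h2 a ha).1 hb)
      fun a b ha hb => by rw [map_add]; exact add_mem ha hb
    exact ⟨(h1 _ h4).1, fun u hu => by
      rw [Module.End.mul_apply, (h2 t h3).2 u hu, (h1 _ h4).2 u hu]; rfl⟩
  add_mem' := by
    rintro φ ψ ⟨K, hK, h1⟩ ⟨K', hK', h2⟩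
    refine ⟨_, h.inf hK hK', fun t ht => ⟨add_mem (h1 t ht.1).1 (h2 t ht.2).1, fun u hu => ?_⟩⟩
    simp [(h1 t ht.1).2 u hu, (h2 t ht.2).2 u hu, add_mul]
  algebraMap_mem' c := ⟨T, h.top, fun t ht => ⟨smul_mem _ c ht, fun u _ => by simp⟩⟩

/-- The same as a type. -/
def GT {T : Submodule F R} (h : Prm T) : Type _ := GG h

instance {T : Submodule F R} (h : Prm T) : Ring (GT h) := inferInstanceAs (Ring (GG h))

instance {T : Submodule F R} (h : Prm T) : Algebra F (GT h) := inferInstanceAs (Algebra F (GG h))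

/-- Maps that vanish on a nonzero ideal. -/
def NN {T : Submodule F R} (h : Prm T) : Ideal (GT h) where
  carrier := {φ | ∃ K, NZ T K ∧ ∀ t ∈ K, φ.1 t = 0}
  add_mem' := by
    rintro φ ψ ⟨K, hK, h1⟩ ⟨K', hK', h2⟩
    exact ⟨_, h.inf hK hK', fun t ht => show φ.1 t + ψ.1 t = 0 by simp [h1 t ht.1, h2 t ht.2]⟩
  zero_mem' := ⟨T, h.top, fun _ _ => rfl⟩
  smul_mem' := by
    rintro φ ψ ⟨K, hK, h1⟩
    exact ⟨K, hK, fun t ht => show φ.1 (ψ.1 t) = 0 by simp [h1 t ht]⟩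

instance {T : Submodule F R} (h : Prm T) : (NN h).IsTwoSided where
  mul_mem_of_left := by
    rintro φ ⟨ψ, K', hK', h2⟩ ⟨K, hK, h1⟩
    refine ⟨K' * K, h.nzmul hK' hK, fun t ht => h1 (ψ t) (Submodule.mul_induction_on ht
      (fun a ha b hb => (h2 a ha).2 b (hK.2.1 hb) ▸ hK.2.l (h2 a ha).1 hb)
      fun a b ha hb => by rw [map_add]; exact add_mem ha hb)⟩

theorem exists_mart {T : Submodule F R} (h : Prm T) : ∃ ι : R →ₗ[F] (GT h ⧸ NN h), Mart T ι := by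
  let lm : T →ₗ[F] GT h := ((LinearMap.mul F R).domRestrict T).codRestrict (GG h).toSubmodule
    fun t => ⟨T, h.top, fun s hs => ⟨h.m t.2 hs, fun u _ => (mul_assoc _ _ _).symm⟩⟩
  obtain ⟨g, hg⟩ := lm.exists_extend
  have h1 : ∀ t ∈ T, ∀ x, (g t).1 x = t * x := fun t ht x => by
    rw [show g t = lm ⟨t, ht⟩ from LinearMap.congr_fun hg ⟨t, ht⟩]; rfl
  let π := Ideal.Quotient.mkₐ F (NN h)
  have h2 : ∀ (φ : GT h) (t u : R), t ∈ T → u ∈ T → (∀ x ∈ T, φ.1 (t * x) = u * x) →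
      π φ * π (g t) = π (g u) := fun φ t u ht hu h0 => by
    rw [← map_mul]
    exact Ideal.Quotient.eq.2 ⟨T, h.top, fun x hx => show φ.1 ((g t).1 x) - (g u).1 x = 0 by
      rw [h1 t ht, h1 u hu, h0 x hx, sub_self]⟩
  have h3 : ∀ t ∈ T, π (g t) = 0 → t = 0 := fun t ht h0 => by
    obtain ⟨K, hK, h4⟩ := Ideal.Quotient.eq_zero_iff_mem.1 h0
    exact h.lann hK ht fun s hs => h1 t ht s ▸ h4 s hs
  refine ⟨π.toLinearMap ∘ₗ g, fun s hs t ht => (h2 _ t _ ht (h.m hs ht) fun x _ => ?_).symm, h3,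
    fun q => ?_, fun q K hK h0 => ?_, fun Γ h4 h5 h6 h7 => ?_⟩
  · rw [h1 s hs, mul_assoc]
  · obtain ⟨φ, rfl⟩ := Ideal.Quotient.mkₐ_surjective F (NN h) q
    obtain ⟨K, hK, h4⟩ := φ.2
    exact ⟨K, hK, fun t ht => ⟨_, (h4 t ht).1, h2 φ t _ (hK.2.1 ht) (h4 t ht).1 (h4 t ht).2⟩⟩
  · obtain ⟨φ, rfl⟩ := Ideal.Quotient.mkₐ_surjective F (NN h) q
    obtain ⟨K', hK', h4⟩ := φ.2
    exact Ideal.Quotient.eq_zero_iff_mem.2 ⟨_, h.inf hK hK', fun t ht => h3 _ (h4 t ht.2).1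
      ((h2 φ t _ (hK.2.1 ht.1) (h4 t ht.2).1 (h4 t ht.2).2).symm.trans (h0 t ht.1))⟩
  · obtain ⟨φ, hφ⟩ := Γ.toLinearPMap.toFun.exists_extend
    have h8 : ∀ p ∈ Γ, φ p.1 = p.2 := fun p hp => by
      have h9 : p ∈ Γ.toLinearPMap.graph := by rwa [Γ.toLinearPMap_graph_eq h7]
      obtain ⟨y, h10, h11⟩ := (LinearPMap.mem_graph_iff _).1 h9
      rw [← h10, ← h11]
      exact LinearMap.congr_fun hφ y
    refine ⟨π ⟨φ, _, h5, ?_⟩, fun p hp => h2 _ _ _ (h5.2.1 ⟨p, hp, rfl⟩) (h4 p hp)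
      fun x hx => h8 _ (h6 p hp x hx)⟩
    rintro _ ⟨p, hp, rfl⟩
    exact ⟨(h8 p hp).symm ▸ h4 p hp, fun u hu => (h8 _ (h6 p hp u hu)).trans
      (congrArg (· * u) (h8 p hp).symm)⟩

end Pool.Agent.P.MP_2c0ed3_al.Z
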