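import Pool.Agent.P.MP_2c0ed3_al.ZB

set_option autoImplicit false

open Submodule
open scoped Pointwise

namespace Pool.Agent.P.MP_2c0ed3_al.Z

variable {F R Q : Type*} [Field F] [Ring R] [Algebra F R] [Ring Q] [Algebra F Q]
  {T : Submodule F R} {ι : R →ₗ[F] Q}

theorem Mart.prime (hT : Prm T) (h : Mart T ι) {a b : Q} (hb : b ≠ 0)
    (h0 : ∀ t ∈ T, a * ι t * b = 0) : a = 0 := by
  obtain ⟨K, hK, h1⟩ := h.den b
  obtain ⟨t, ht, h2⟩ : ∃ t ∈ K, b * ι t ≠ 0 := by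
    by_contra! h2
    exact hb (h.ann b K hK h2)
  obtain ⟨t', ht', h3⟩ := h1 t ht
  let I : Submodule F R := T ⊓ ⨅ u ∈ T, LinearMap.ker (LinearMap.mulLeft F (a * ι u) ∘ₗ ι)
  have hm : ∀ x, x ∈ I ↔ x ∈ T ∧ ∀ u ∈ T, a * ι u * ι x = 0 := fun x => by
    simp [I, mem_iInf, mul_assoc]
  have hI : NZ T I := ⟨fun h4 => h2 (by
      have : t' ∈ I := (hm _).2 ⟨ht', fun u hu => by rw [← h3, ← mul_assoc, h0 u hu, zero_mul]⟩
      rw [h3, show t' = 0 from (mem_bot F).1 (h4 ▸ this), map_zero]),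
    Idl.of inf_le_left (fun s hs x hx => (hm _).2 ⟨hT.m hs hx.1, fun u hu => by
      rw [h.mul s hs x hx.1, ← mul_assoc, mul_assoc a, ← h.mul u hu s hs,
        ((hm _).1 hx).2 _ (hT.m hu hs)]⟩)
    fun x hx s hs => (hm _).2 ⟨hT.m hx.1 hs, fun u hu => by
      rw [h.mul x hx.1 s hs, ← mul_assoc, ((hm _).1 hx).2 u hu, zero_mul]⟩⟩
  exact h.ann a T hT.top fun u hu => h.ann _ I hI fun x hx => ((hm _).1 hx).2 u hu

theorem Mart.center (hT : Prm T) (h : Mart T ι) {c : Q} (hc : ∀ t ∈ T, c * ι t = ι t * c) :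
    c ∈ Subring.center Q := Subring.mem_center_iff.2 fun q => by
  obtain ⟨K, hK, h1⟩ := h.den q
  refine sub_eq_zero.1 (h.ann _ K hK fun t ht => ?_)
  obtain ⟨u, hu, h2⟩ := h1 t ht
  rw [sub_mul, mul_assoc, hc t (hK.2.1 ht), ← mul_assoc, mul_assoc c, h2, hc u hu, sub_self]

theorem Mart.bimod (hT : Prm T) (h : Mart T ι) {K : Submodule F R} (hK : NZ T K) {b b' : Q}
    (hb : b ≠ 0) (h0 : ∀ s ∈ K, b * ι s * b' = b' * ι s * b) :
    ∃ c : Subring.center Q, b' = c • b := by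
  let Γ : Submodule F (R × R) := T.prod T ⊓ ⨅ s ∈ K, LinearMap.ker
    (LinearMap.mulLeft F (b * ι s) ∘ₗ ι ∘ₗ LinearMap.snd F R R -
      LinearMap.mulLeft F (b' * ι s) ∘ₗ ι ∘ₗ LinearMap.fst F R R)
  have hm : ∀ p, p ∈ Γ ↔ (p.1 ∈ T ∧ p.2 ∈ T) ∧ ∀ s ∈ K, b * ι s * ι p.2 = b' * ι s * ι p.1 :=
    fun p => by simp [Γ, mem_iInf, sub_eq_zero, mul_assoc]
  have hr : ∀ p ∈ Γ, ∀ u ∈ T, (p.1 * u, p.2 * u) ∈ Γ := fun p hp u hu => by
    obtain ⟨⟨h1, h2⟩, h3⟩ := (hm p).1 hp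
    exact (hm _).2 ⟨⟨hT.m h1 hu, hT.m h2 hu⟩, fun s hs => by
      rw [h.mul _ h1 u hu, h.mul _ h2 u hu, ← mul_assoc, h3 s hs, ← mul_assoc]⟩
  have hl : ∀ p ∈ Γ, ∀ u ∈ T, (u * p.1, u * p.2) ∈ Γ := fun p hp u hu => by
    obtain ⟨⟨h1, h2⟩, h3⟩ := (hm p).1 hp
    refine (hm _).2 ⟨⟨hT.m hu h1, hT.m hu h2⟩, fun s hs => ?_⟩
    have := h3 _ (hK.2.r hs hu)
    rw [h.mul s (hK.2.1 hs) u hu] at this
    simpa only [h.mul u hu _ h1, h.mul u hu _ h2, mul_assoc] using this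
  obtain ⟨K1, hK1, h1⟩ := h.den b
  obtain ⟨K2, hK2, h2⟩ := h.den b'
  have h3 : ∀ v ∈ K1 ⊓ K2, ∃ p ∈ Γ, b * ι v = ι p.1 ∧ b' * ι v = ι p.2 := fun v hv => by
    obtain ⟨x, hx, h4⟩ := h1 v hv.1
    obtain ⟨y, hy, h5⟩ := h2 v hv.2
    exact ⟨(x, y), (hm _).2 ⟨⟨hx, hy⟩, fun s hs => by
      rw [← h4, ← h5, ← mul_assoc, h0 s hs, ← mul_assoc]⟩, h4, h5⟩
  have h4 : NZ T (Γ.map (LinearMap.fst F R R)) := by
    refine ⟨fun h5 => hb (h.ann b _ (hT.inf hK1 hK2) fun v hv => ?_), Idl.of ?_ ?_ ?_⟩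
    · obtain ⟨p, hp, h6, -⟩ := h3 v hv
      rw [h6, show p.1 = 0 from (mem_bot F).1 (h5 ▸ ⟨p, hp, rfl⟩), map_zero]
    · rintro _ ⟨p, hp, rfl⟩
      exact hp.1.1
    · rintro s hs _ ⟨p, hp, rfl⟩
      exact ⟨_, hl p hp s hs, rfl⟩
    · rintro _ ⟨p, hp, rfl⟩ s hs
      exact ⟨_, hr p hp s hs, rfl⟩
  obtain ⟨c, hc⟩ := h.ext Γ (fun p hp => hp.1.2) h4 hr fun p hp h5 => h.inj _ hp.1.2 (by
    by_contra h6
    refine hb (h.ann b K hK fun s hs => h.prime hT h6 fun t ht => ?_)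
    rw [mul_assoc b, ← h.mul s (hK.2.1 hs) t ht, ((hm p).1 hp).2 _ (hK.2.r hs ht), h5, map_zero,
      mul_zero])
  refine ⟨⟨c, h.center hT fun u hu => sub_eq_zero.1 (h.ann _ _ h4 ?_)⟩,
    sub_eq_zero.1 (h.ann _ _ (hT.inf hK1 hK2) fun v hv => ?_)⟩
  · rintro _ ⟨p, hp, rfl⟩
    have := hc _ (hl p hp u hu)
    rw [h.mul u hu _ hp.1.1, h.mul u hu _ hp.1.2, ← hc p hp] at this
    rw [sub_mul, mul_assoc, mul_assoc]
    exact sub_eq_zero.2 this
  · obtain ⟨p, hp, h5, h6⟩ := h3 v hv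
    rw [sub_mul, h6, ← hc p hp, ← h5, ← mul_assoc]
    exact sub_self _

theorem Mart.dep (hT : Prm T) (h : Mart T ι) (M : Submodule (Subring.center Q) Q) (a' : ℕ → Q)
    (n : ℕ) (hM : ∀ i < n, a' i ∈ M) : ∀ (a b : Q) (b' : ℕ → Q), b ≠ 0 →
      (∀ t ∈ T, a * ι t * b = ∑ i ∈ Finset.range n, a' i * ι t * b' i) → a ∈ M := by
  induction n with
  | zero => exact fun a b _ hb h0 => h.prime hT hb (by simpa using h0) ▸ zero_mem _
  | succ n ih =>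
    intro a b b' hb h0
    replace ih := ih fun i hi => hM i (by omega)
    simp only [Finset.sum_range_succ] at h0
    obtain ⟨K, hK, h1⟩ := h.den (b' n)
    by_cases h2 : ∀ s ∈ K, b * ι s * b' n = b' n * ι s * b
    · obtain ⟨c, hc⟩ := h.bimod hT hK hb h2
      have := ih (a - c • a' n) b b' hb fun t ht => by
        rw [sub_mul, sub_mul, h0 t ht, hc, smul_mul_assoc, smul_mul_assoc, mul_smul_comm,
          add_sub_cancel_right]
      simpa using add_mem this (smul_mem _ c (hM n n.lt_succ_self))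
    · push Not at h2
      obtain ⟨s, hs, h2⟩ := h2
      obtain ⟨u, hu, h3⟩ := h1 s hs
      refine ih a _ (fun i => b' i * ι s * b' n - ι u * b' i) (sub_ne_zero.2 h2) fun t ht => ?_
      have h4 := h0 _ (hT.m ht hu)
      rw [h.mul t ht u hu] at h4
      have h5 := congrArg (· * (ι s * b' n)) (h0 t ht)
      simp only [mul_sub, Finset.sum_sub_distrib, h3, add_mul, Finset.sum_mul, mul_assoc] at h4 h5 ⊢
      rw [h4, h5, ← mul_assoc (b' n), h3]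
      abel

/-- `b` induces on `T` the same derivation as `z`. -/
def Ind (T : Submodule F R) (ι : R →ₗ[F] Q) (z : R) (b : Q) : Prop :=
  Nrm z T ∧ ∀ t ∈ T, b * ι t - ι t * b = ι (z * t - t * z)

theorem Ind.br {z z' : R} {b b' : Q} (h : Ind T ι z b) (h' : Ind T ι z' b') :
    Ind T ι (z * z' - z' * z) (b * b' - b' * b) := by
  refine ⟨fun t ht => ?_, fun t ht => ?_⟩
  · convert sub_mem (h.1 _ (h'.1 t ht)) (h'.1 _ (h.1 t ht)) using 1
    noncomm_ring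
  · have h1 := congrArg₂ (· - ·) (h.2 _ (h'.1 t ht)) (h'.2 _ (h.1 t ht))
    simp only [← h.2 t ht, ← h'.2 t ht] at h1
    rw [← map_sub] at h1
    refine Eq.trans ?_ (h1.trans (congrArg ι ?_)) <;> noncomm_ring

theorem Ind.alg (hT : Prm T) (h : Mart T ι) {z : R} {b : Q} (hb : Ind T ι z b)
    (hz : IsNilpotent z) :
    ∃ N, b ^ (N + 1) ∈ (1 ⊔ span (Subring.center Q) {b}) ^ N := by
  obtain ⟨n, hn⟩ := (LinearMap.commute_mulLeft_right (R := F) z (-z)).isNilpotent_add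
    ((LinearMap.isNilpotent_mulLeft_iff F z).2 hz) ((LinearMap.isNilpotent_mulRight_iff F _).2 hz.neg)
  have h1 : ∀ m, ∀ t ∈ T, ((LinearMap.mulLeft F b + LinearMap.mulRight F (-b)) ^ m) (ι t) =
      ι (((LinearMap.mulLeft F z + LinearMap.mulRight F (-z)) ^ m) t) := fun m => by
    induction m with
    | zero => simp
    | succ m ih =>
      intro t ht
      have := ih _ (hb.1 t ht)
      rw [← hb.2 t ht] at this
      simpa [pow_succ, sub_eq_add_neg] using this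
  have h2 : (1 : Q) ≠ 0 := fun h3 => hT.ne (le_bot_iff.1 fun t ht => h.inj t ht (by
    rw [← one_mul (ι t), h3, zero_mul]))
  refine ⟨n, h.dep hT _ (b ^ ·) (n + 1) (fun i hi => pow_mono _ (Nat.le_of_lt_succ hi)
    (pow_mem_pow _ (mem_sup_right (mem_span_singleton_self b)) i)) _ 1
    (fun i => -(((n + 1).choose i : Q) * (-b) ^ (n + 1 - i))) h2 fun t ht => ?_⟩
  have h3 := h1 (n + 1) t ht
  rw [pow_succ (LinearMap.mulLeft F z + _) n, hn, (LinearMap.commute_mulLeft_right b (-b)).add_pow,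
    Finset.sum_range_succ] at h3
  simp only [LinearMap.pow_mulLeft, LinearMap.pow_mulRight] at h3
  simp only [mul_neg, Finset.sum_neg_distrib]
  refine eq_neg_of_add_eq_zero_right ?_
  simpa [LinearMap.sum_apply, mul_assoc, Nat.cast_comm] using h3

end Pool.Agent.P.MP_2c0ed3_al.Z
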