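import Pool.Agent.P.MP_2c0ed3_al.ZC

set_option autoImplicit false

open Submodule
open scoped Pointwise

namespace Pool.Agent.P.MP_2c0ed3_al.Z

variable {F R Q : Type*} [Field F] [Ring R] [Algebra F R] [Ring Q] [Algebra F Q]
  {T : Submodule F R} {ι : R →ₗ[F] Q}

/-- The sum of the `y ^ i T` with `i < k`. -/
def VV (T : Submodule F R) (y : R) : ℕ → Submodule F R
  | 0 => ⊥
  | k + 1 => VV T y k ⊔ T.map (LinearMap.mulLeft F (y ^ k))

theorem VV.mem {y : R} {k : ℕ} {x : R} :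
    x ∈ VV T y (k + 1) ↔ ∃ u ∈ T, x - y ^ k * u ∈ VV T y k := by
  refine ⟨fun h => ?_, fun ⟨u, hu, h⟩ => ?_⟩
  · obtain ⟨a, ha, _, ⟨u, hu, rfl⟩, rfl⟩ := mem_sup.1 h
    exact ⟨u, hu, by simpa using ha⟩
  · rw [← sub_add_cancel x (y ^ k * u)]
    exact add_mem_sup h ⟨u, hu, rfl⟩

theorem VV.left {y : R} : ∀ k, ∀ x ∈ VV T y k, y * x ∈ VV T y (k + 1)
  | 0, x, hx => by rw [(mem_bot F).1 hx, mul_zero]; exact zero_mem _
  | k + 1, x, hx => by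
    obtain ⟨u, hu, h⟩ := VV.mem.1 hx
    exact VV.mem.2 ⟨u, hu, by
      simpa only [mul_sub, pow_succ', mul_assoc] using VV.left k _ h⟩

theorem VV.right (hT : T * T ≤ T) {y s : R} (hs : s ∈ T) : ∀ k, ∀ x ∈ VV T y k, x * s ∈ VV T y k
  | 0, x, hx => by rw [(mem_bot F).1 hx, zero_mul]; exact zero_mem _
  | k + 1, x, hx => by
    obtain ⟨u, hu, h⟩ := VV.mem.1 hx
    exact VV.mem.2 ⟨u * s, hT (mul_mem_mul hu hs), by
      simpa only [sub_mul, mul_assoc] using VV.right hT hs k _ h⟩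

theorem VV.comm {y : R} (hy : Nrm y T) : ∀ (k : ℕ), ∀ s ∈ T,
    s * y ^ (k + 1) - y ^ (k + 1) * s + y ^ k * ((k + 1) • (y * s - s * y)) ∈ VV T y k
  | 0, s, _ => by simp [VV]
  | k + 1, s, hs => by
    have h1 : (y * s - s * y) * y ^ (k + 1) - y ^ (k + 1) * (y * s - s * y) ∈ VV T y (k + 1) :=
      VV.mem.2 ⟨_, neg_mem (nsmul_mem (hy _ (hy s hs)) (k + 1)), by
        simpa only [mul_neg, sub_neg_eq_add] using VV.comm hy k _ (hy s hs)⟩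
    convert sub_mem (VV.left k _ (VV.comm hy k s hs)) h1 using 1
    rw [pow_succ' y (k + 1), succ_nsmul _ (k + 1), mul_add y, ← mul_assoc y (y ^ k),
      ← pow_succ' y k]
    generalize y ^ (k + 1) = Y
    generalize (k + 1) • (y * s - s * y) = E
    noncomm_ring

theorem VV.comm' {y s : R} (hy : Nrm y T) (hs : s ∈ T) : ∀ k, s * y ^ k - y ^ k * s ∈ VV T y k
  | 0 => by simp
  | k + 1 => VV.mem.2 ⟨_, neg_mem (nsmul_mem (hy s hs) (k + 1)), by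
      simpa only [mul_neg, sub_neg_eq_add] using VV.comm hy k s hs⟩

theorem VV.tl (hT : T * T ≤ T) {y s : R} (hy : Nrm y T) (hs : s ∈ T) :
    ∀ k, ∀ x ∈ VV T y k, s * x ∈ VV T y k
  | 0, x, hx => by rw [(mem_bot F).1 hx, mul_zero]; exact zero_mem _
  | k + 1, x, hx => by
    obtain ⟨u, hu, h⟩ := VV.mem.1 hx
    refine VV.mem.2 ⟨s * u, hT (mul_mem_mul hs hu), ?_⟩
    convert add_mem (VV.tl hT hy hs k _ h) (VV.right hT hu k _ (VV.comm' hy hs k)) using 1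
    noncomm_ring

theorem Mart.inner [CharZero F] (hT : Prm T) (h : Mart T ι) {y : R} (hy : Nrm y T)
    (hn : IsNilpotent y) : ∃ q : Q, Ind T ι y q := by
  classical
  have hex : ∃ k, ∃ t ∈ T, t ≠ 0 ∧ y ^ k * t ∈ VV T y k := by
    obtain ⟨n, hn⟩ := hn
    obtain ⟨t, ht, h0⟩ := (Submodule.ne_bot_iff _).1 hT.ne
    exact ⟨n, t, ht, h0, by simp [hn]⟩
  obtain ⟨t0, ht0, h0, h1⟩ := Nat.find_spec hex
  obtain ⟨k, hk⟩ : ∃ k, Nat.find hex = k + 1 := Nat.exists_eq_succ_of_ne_zero fun h2 => by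
    rw [h2] at h1
    exact h0 (by simpa [VV] using h1)
  have h2 := Nat.find_min hex (show k < Nat.find hex by omega)
  rw [hk] at h1
  let Γ : Submodule F (R × R) := T.prod T ⊓ (VV T y k).comap
    (LinearMap.mulLeft F (y ^ (k + 1)) ∘ₗ LinearMap.fst F R R -
      LinearMap.mulLeft F (y ^ k) ∘ₗ LinearMap.snd F R R)
  have hm : ∀ p, p ∈ Γ ↔ (p.1 ∈ T ∧ p.2 ∈ T) ∧ y ^ (k + 1) * p.1 - y ^ k * p.2 ∈ VV T y k :=
    fun p => by simp [Γ]
  have hr : ∀ p ∈ Γ, ∀ u ∈ T, (p.1 * u, p.2 * u) ∈ Γ := fun p hp u hu => by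
    obtain ⟨⟨h1, h2⟩, h3⟩ := (hm p).1 hp
    exact (hm _).2 ⟨⟨hT.m h1 hu, hT.m h2 hu⟩, by
      simpa only [sub_mul, mul_assoc] using VV.right hT.mul hu k _ h3⟩
  have hl : ∀ p ∈ Γ, ∀ s ∈ T, (s * p.1, s * p.2 + (k + 1) • (y * s - s * y) * p.1) ∈ Γ :=
    fun p hp s hs => by
      obtain ⟨⟨h1, h2⟩, h3⟩ := (hm p).1 hp
      refine (hm _).2 ⟨⟨hT.m hs h1, add_mem (hT.m hs h2) (hT.m (nsmul_mem (hy s hs) _) h1)⟩, ?_⟩
      convert sub_mem (add_mem (VV.tl hT.mul hy hs k _ h3) (VV.right hT.mul h2 k _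
        (VV.comm' hy hs k))) (VV.right hT.mul h1 k _ (VV.comm hy k s hs)) using 1
      noncomm_ring
  have h4 : NZ T (Γ.map (LinearMap.fst F R R)) := by
    refine ⟨fun h5 => h0 ?_, Idl.of ?_ ?_ ?_⟩
    · obtain ⟨u, hu, h6⟩ := VV.mem.1 h1
      exact (mem_bot F).1 (h5 ▸ ⟨(t0, u), (hm _).2 ⟨⟨ht0, hu⟩, h6⟩, rfl⟩)
    · rintro _ ⟨p, hp, rfl⟩
      exact hp.1.1
    · rintro s hs _ ⟨p, hp, rfl⟩
      exact ⟨_, hl p hp s hs, rfl⟩
    · rintro _ ⟨p, hp, rfl⟩ s hs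
      exact ⟨_, hr p hp s hs, rfl⟩
  obtain ⟨q, hq⟩ := h.ext Γ (fun p hp => hp.1.2) h4 hr fun p hp h5 => by
    by_contra h6
    exact h2 ⟨_, hp.1.2, h6, by simpa [h5] using ((hm p).1 hp).2⟩
  have h5 : ((k + 1 : ℕ) : F) ≠ 0 := Nat.cast_ne_zero.2 k.succ_ne_zero
  refine ⟨((k + 1 : ℕ) : F)⁻¹ • q, hy, fun s hs => ?_⟩
  rw [smul_mul_assoc, mul_smul_comm, ← smul_sub, inv_smul_eq_iff₀ h5, Nat.cast_smul_eq_nsmul]
  refine sub_eq_zero.1 (h.ann _ _ h4 ?_)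
  rintro _ ⟨p, hp, rfl⟩
  have := hq _ (hl p hp s hs)
  rw [map_add, h.mul s hs _ hp.1.1, h.mul s hs _ hp.1.2, ← hq p hp,
    h.mul _ (nsmul_mem (hy s hs) _) _ hp.1.1, map_nsmul] at this
  rw [sub_mul, sub_mul, mul_assoc, mul_assoc]
  exact sub_eq_zero.2 (sub_eq_of_eq_add' this)

theorem span_mul_le {C A : Type*} [CommRing C] [Ring A] [Algebra C A] {s : Set A}
    {M L : Submodule C A} (h : ∀ a ∈ s, ∀ b ∈ M, a * b ∈ L) : span C s * M ≤ L := by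
  rw [← span_eq M, span_mul_span]
  exact span_le.2 (by rintro _ ⟨a, ha, b, hb, rfl⟩; exact h a ha b hb)

theorem mul_top_top {C A : Type*} [CommRing C] [Ring A] [Algebra C A] (M : Submodule C A) :
    M * ⊤ * ⊤ ≤ M * ⊤ := by
  rw [mul_assoc]
  exact mul_le_mul_right le_top _

theorem fg_one {C A : Type*} [CommRing C] [Ring A] [Algebra C A] : (1 : Submodule C A).FG :=
  one_eq_span (R := C) (A := A) ▸ fg_span (Set.finite_singleton 1)

theorem LN.image (hT : Prm T) (h : Mart T ι) (hL : LN (T : Set R)) : LN (ι '' T) :=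
  fun s' h1 h2 => by
    obtain ⟨s, hs, hf, rfl⟩ := (Set.exists_subset_image_finite_and (p := (· = s'))).1 ⟨s', h2, h1, rfl⟩
    obtain ⟨n, hn⟩ := hL s hf hs
    have : ∀ n, ∀ x ∈ (ι '' s) ^ (n + 1), ∃ y ∈ s ^ (n + 1), y ∈ T ∧ x = ι y := fun n => by
      induction n with
      | zero =>
        rw [zero_add, pow_one, pow_one]
        rintro _ ⟨y, hy, rfl⟩
        exact ⟨y, hy, hs hy, rfl⟩
      | succ n ih =>
        rw [pow_succ _ (n + 1), pow_succ _ (n + 1)]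
        rintro _ ⟨a, ha, _, ⟨b, hb, rfl⟩, rfl⟩
        obtain ⟨y, hy, h3, rfl⟩ := ih a ha
        exact ⟨_, ⟨y, hy, b, hb, rfl⟩, hT.m h3 (hs hb), (h.mul y h3 b (hs hb)).symm⟩
    refine ⟨n + 1, fun x hx => ?_⟩
    obtain ⟨y, hy, -, rfl⟩ := this n x hx
    rw [pow_succ] at hy
    obtain ⟨a, ha, b, -, rfl⟩ := hy
    simp [hn a ha]

/-- The elements of `T` that are mapped into `N`. -/
def Phi (T : Submodule F R) (ι : R →ₗ[F] Q) (N : Submodule (Subring.center Q) Q) :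
    Submodule F R where
  carrier := {t | t ∈ T ∧ ι t ∈ N}
  add_mem' h h' := ⟨add_mem h.1 h'.1, by simpa using add_mem h.2 h'.2⟩
  zero_mem' := ⟨zero_mem _, by simp⟩
  smul_mem' c t h := ⟨smul_mem _ c h.1, by
    rw [map_smul, Algebra.smul_def]
    exact smul_mem N ⟨_, Subring.mem_center_iff.2 fun g => (Algebra.commutes c g).symm⟩ h.2⟩

/-- Transfer relation between `R` and `Q`. -/
def Rel (T : Submodule F R) (ι : R →ₗ[F] Q) (U : Submodule F R)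
    (U' : Submodule (Subring.center Q) Q) : Prop :=
  ∀ N, U * (Phi T ι (N * ⊤) * ⊤) ≤ Phi T ι (U' * N * ⊤) * ⊤

theorem Rel.mul {U V : Submodule F R} {U' V' : Submodule (Subring.center Q) Q}
    (h : Rel T ι U U') (h' : Rel T ι V V') : Rel T ι (U * V) (U' * V') := fun N => by
  rw [mul_assoc U, mul_assoc U' V']
  exact (mul_le_mul_right (h' N) _).trans (h _)

theorem Rel.pow {U : Submodule F R} {U' : Submodule (Subring.center Q) Q}
    (h : Rel T ι U U') : ∀ n, Rel T ι (U ^ n) (U' ^ n)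
  | 0 => fun N => by simp
  | n + 1 => by rw [pow_succ, pow_succ]; exact (h.pow n).mul h

theorem Mart.main [CharZero F] (hT : Prm T) (h : Mart T ι) (hL : LN (T : Set R)) {D : Set R}
    (hD : D.Finite) (h1 : ∀ d ∈ D, Nrm d T) (h2 : ∀ j, ∀ z ∈ Cm D j, IsNilpotent z) :
    ∃ P, NZ T P ∧ (∀ d ∈ D, Nrm d P) ∧
      ∀ X, X.FG → X ≤ P → ∀ k, IsNilpotent (X * (1 ⊔ span F D) ^ k) := by
  choose! q hq using fun d hd => h.inner hT (h1 d hd) (h2 0 d hd)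
  have hI : ∀ j, ∀ b ∈ Cm (q '' D) j, ∃ z ∈ Cm D j, Ind T ι z b := fun j => by
    induction j with
    | zero => rintro _ ⟨d, hd, rfl⟩; exact ⟨d, hd, hq d hd⟩
    | succ j ih =>
      rintro _ ⟨_, ⟨d, hd, rfl⟩, b, hb, rfl⟩
      obtain ⟨z, hz, h3⟩ := ih b hb
      exact ⟨_, ⟨d, hd, z, hz, rfl⟩, (hq d hd).br h3⟩
  set T' := span (Subring.center Q) (ι '' T)
  set L := Lg (Subring.center Q) (q '' D)
  have hι : ∀ t ∈ T, ι t ∈ T' := fun t ht => subset_span ⟨t, ht, rfl⟩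
  have hT' : T' * T' ≤ T' := by
    rw [span_mul_span]
    refine span_le.2 ?_
    rintro _ ⟨_, ⟨s, hs, rfl⟩, _, ⟨t, ht, rfl⟩, rfl⟩
    exact show ι s * ι t ∈ T' from h.mul s hs t ht ▸ hι _ (hT.m hs ht)
  have hN : ∀ b ∈ L, Nrm b T' := br_span (by
    rintro b hb _ ⟨t, ht, rfl⟩
    obtain ⟨j, hj⟩ := Set.mem_iUnion.1 hb
    obtain ⟨z, -, h3⟩ := hI j b hj
    exact h3.2 t ht ▸ hι _ (h3.1 t ht))
  let P' := T' ⊓ ⨅ b ∈ L, T'.comap (LinearMap.mulLeft _ b)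
  have hm : ∀ x, x ∈ P' ↔ x ∈ T' ∧ ∀ b ∈ L, b * x ∈ T' := fun x => by simp [P', mem_iInf]
  have hP' : Idl T' P' := ⟨inf_le_left, mul_le.2 fun s hs t ht => (hm _).2
    ⟨hT' (mul_mem_mul hs ht.1), fun b hb => by
      convert add_mem (hT' (mul_mem_mul (hN b hb s hs) ht.1))
        (hT' (mul_mem_mul hs (((hm t).1 ht).2 b hb))) using 1
      noncomm_ring⟩, mul_le.2 fun t ht s hs => (hm _).2 ⟨hT' (mul_mem_mul ht.1 hs), fun b hb =>
      mul_assoc b t s ▸ hT' (mul_mem_mul (((hm t).1 ht).2 b hb) hs)⟩⟩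
  have hNP : ∀ b ∈ L, Nrm b P' := fun b hb t ht => (hm _).2 ⟨hN b hb t ht.1, fun b' hb' => by
    convert sub_mem (hN b hb _ (((hm t).1 ht).2 b' hb')) (((hm t).1 ht).2 _ (Lg.br _ b hb b' hb'))
      using 1
    noncomm_ring⟩
  have hqL : ∀ d ∈ D, q d ∈ L := fun d hd => subset_span (Set.mem_iUnion.2 ⟨0, d, hd, rfl⟩)
  obtain ⟨J, hJ, h3⟩ : ∃ J, NZ T J ∧ ∀ d ∈ D, ∀ t ∈ J, ∃ u ∈ T, q d * ι t = ι u := by
    clear * - hT h hD
    induction D, hD using Set.Finite.induction_on with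
    | empty => exact ⟨T, hT.top, by simp⟩
    | @insert d D _ _ ih =>
      obtain ⟨J, hJ, h3⟩ := ih
      obtain ⟨K, hK, h4⟩ := h.den (q d)
      refine ⟨_, hT.inf hJ hK, ?_⟩
      rintro _ (rfl | hd) t ht
      exacts [h4 t ht.2, h3 _ hd t ht.1]
  have h4 : J * J ≤ Phi T ι P' := mul_le.2 fun t ht s hs => by
    have ht' := hJ.2.1 ht
    have hs' := hJ.2.1 hs
    refine ⟨hT.m ht' hs', (hm _).2 ⟨hι _ (hT.m ht' hs'), fun b hb => span_mul_le (fun b hb x hx => ?_)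
      (mul_mem_mul hb (mem_span_singleton_self _))⟩⟩
    obtain ⟨c, rfl⟩ := mem_span_singleton.1 hx
    rw [mul_smul_comm]
    refine smul_mem _ _ ?_
    obtain ⟨_ | j, hj⟩ := Set.mem_iUnion.1 hb
    · obtain ⟨d, hd, rfl⟩ := hj
      obtain ⟨u, hu, h4⟩ := h3 d hd _ (hJ.2.r ht hs')
      exact h4 ▸ hι u hu
    · clear hb
      obtain ⟨_, ⟨d, hd, rfl⟩, b, hb, rfl⟩ := hj
      obtain ⟨z, -, hz⟩ := hI j b hb
      obtain ⟨u, hu, h4⟩ := h3 d hd _ (hJ.2.l (hz.1 t ht') hs)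
      obtain ⟨v, hv, h5⟩ := h3 d hd _ ht
      have h6 := sub_mem (hι u hu) (hT' (mul_mem_mul (hι _ (hz.1 v hv)) (hι s hs')))
      rw [← h4, ← hz.2 v hv, ← h5, h.mul _ (hz.1 t ht') s hs', ← hz.2 t ht'] at h6
      rw [h.mul t ht' s hs']
      convert h6 using 1
      noncomm_ring
  refine ⟨Phi T ι P', ⟨fun h5 => (hT.nzmul hJ hJ).1 (le_bot_iff.1 (h5 ▸ h4)), Idl.of
    (fun _ ht => ht.1) (fun s hs t ht => ⟨hT.m hs ht.1, h.mul s hs t ht.1 ▸ hP'.2.1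
      (mul_mem_mul (hι s hs) ht.2)⟩) fun t ht s hs => ⟨hT.m ht.1 hs, h.mul t ht.1 s hs ▸ hP'.2.2
      (mul_mem_mul ht.2 (hι s hs))⟩⟩, fun d hd t ht => ⟨h1 d hd t ht.1,
      (hq d hd).2 t ht.1 ▸ hNP _ (hqL d hd) _ ht.2⟩, ?_⟩
  rintro _ ⟨s, rfl⟩ hX k
  have hs : ∀ x ∈ s, x ∈ Phi T ι P' := fun x hx => hX (subset_span hx)
  obtain ⟨n, hn⟩ := cost (M := span _ (ι '' s)) (hD.image q) (fun j b hb => by
    obtain ⟨z, hz, h5⟩ := hI j b hb
    exact h5.alg hT h (h2 j z hz)) hP' hNP (mul_le.2 fun b hb t ht => ((hm t).1 ht).2 b hb)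
    (span_le.2 (by rintro _ ⟨x, hx, rfl⟩; exact (hs x hx).2)) k
  obtain ⟨m, hm⟩ := ((hL.image hT h).nil (((fg_span (s.finite_toSet.image ι)).mul
    ((fg_one.sup (fg_span (hD.image q))).pow k)).pow _) hn).of_pow
  have h5 : Rel T ι (span F s) (span _ (ι '' s)) := fun N => by
    rw [← mul_assoc]
    refine mul_le_mul_left (span_mul_le fun a ha t ht => ?_) _
    refine ⟨hT.m (hs a ha).1 ht.1, ?_⟩
    rw [h.mul a (hs a ha).1 t ht.1, mul_assoc]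
    exact mul_mem_mul (subset_span ⟨a, ha, rfl⟩) ht.2
  have h6 : Rel T ι (1 ⊔ span F D) (1 ⊔ span _ (q '' D)) := fun N => by
    have h7 : ∀ x ∈ N * ⊤, x ∈ (1 ⊔ span _ (q '' D)) * N * ⊤ := fun x hx => by
      rw [mul_assoc, ← one_mul x]
      exact mul_mem_mul (one_mem_sup _) hx
    rw [Submodule.sup_mul, one_mul, ← mul_assoc]
    refine sup_le (mul_le_mul_left (fun t ht => ⟨ht.1, h7 _ ht.2⟩) _) (le_trans (mul_le_mul_left
      (span_mul_le fun d hd t ht => ?_) _) (mul_top_top _))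
    rw [← sub_add_cancel (d * t) (t * d), ← mul_one (d * t - t * d)]
    refine add_mem (mul_mem_mul ⟨h1 d hd t ht.1, ?_⟩ trivial)
      (mul_mem_mul ⟨ht.1, h7 _ ht.2⟩ trivial)
    rw [← (hq d hd).2 t ht.1]
    refine sub_mem ?_ (h7 _ ?_)
    · rw [mul_assoc]
      exact mul_mem_mul (mem_sup_right (subset_span ⟨d, hd, rfl⟩)) ht.2
    · exact mul_top_top N (mul_mem_mul ht.2 trivial)
  have h7 := (h5.mul (h6.pow k)).pow m 1
  rw [hm, zero_mul, zero_mul] at h7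
  refine ⟨m + 1, le_bot_iff.1 ?_⟩
  rw [pow_succ]
  refine (mul_le_mul_right (mul_le_mul' (fun x hx => ⟨(hX hx).1, by simp⟩) le_top) _).trans
    (h7.trans (mul_le.2 fun t ht r _ => ?_))
  rw [h.inj t ht.1 ht.2, zero_mul]
  exact zero_mem _

theorem prime_case [CharZero F] (hT : Prm T) (hL : LN (T : Set R)) {D : Set R}
    (hD : D.Finite) (h1 : ∀ d ∈ D, Nrm d T) (h2 : ∀ j, ∀ z ∈ Cm D j, IsNilpotent z) :
    ∃ P, NZ T P ∧ (∀ d ∈ D, Nrm d P) ∧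
      ∀ X, X.FG → X ≤ P → ∀ k, IsNilpotent (X * (1 ⊔ span F D) ^ k) := by
  obtain ⟨ι, h⟩ := exists_mart hT
  exact h.main hT hL hD h1 h2

end Pool.Agent.P.MP_2c0ed3_al.Z
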