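import Pool.Agent.P.MP_2c0ed3_al.ZD

set_option autoImplicit false

open Submodule
open scoped Pointwise

namespace Pool.Agent.P.MP_2c0ed3_al.Z

variable {F R : Type*} [Field F] [Ring R] [Algebra F R] {T : Submodule F R}

/-- The inner derivation of `d`. -/
def ad (F : Type*) [Field F] [Algebra F R] (d : R) : Module.End F R :=
  LinearMap.mulLeft F d - LinearMap.mulRight F d

theorem ad_apply (d x : R) : ad F d x = d * x - x * d := rfl

theorem ad_mul (d x y : R) : ad F d (x * y) = ad F d x * y + x * ad F d y := by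
  simp only [ad_apply]; noncomm_ring

theorem Nrm.ad {d x : R} (hd : Nrm d T) (hx : x ∈ T) : ad F d x ∈ T := hd x hx

theorem ad_pow_mem {d : R} (hd : Nrm d T) (n : ℕ) : ∀ x ∈ T, (ad F d ^ n) x ∈ T := by
  induction n with
  | zero => exact fun _ h => h
  | succ n ih => exact fun x hx => by rw [pow_succ]; exact ih _ (hd x hx)

theorem leibniz {I : Submodule F R} (hI : Idl T I) {d : R} (hd : Nrm d T) (j : ℕ) :
    ∀ x a, a ∈ T → (∀ i < j, (ad F d ^ i) x ∈ I) → (ad F d ^ (j + 1)) (x * a) -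
      (ad F d ^ (j + 1)) x * a - (j + 1) • ((ad F d ^ j) x * ad F d a) ∈ I := by
  induction j with
  | zero => intro x a _ _; simp [ad_mul]
  | succ j ih =>
    intro x a ha h
    have h1 := ih (ad F d x) a ha fun i hi => by
      simpa [pow_succ] using h (i + 1) (by omega)
    have h2 := ih x (ad F d a) (hd a ha) fun i hi => h i (by omega)
    have h3 := nsmul_mem (hI.r (h j j.lt_succ_self) (hd.ad (hd.ad ha))) (j + 1)
    convert add_mem (add_mem h1 h2) h3 using 1
    rw [pow_succ _ (j + 1), Module.End.mul_apply, Module.End.mul_apply, ad_mul, map_add,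
      ← Module.End.mul_apply (ad F d ^ j), ← pow_succ, succ_nsmul _ (j + 1)]
    abel

/-- Nilpotent ideals. -/
def NI (T I : Submodule F R) : Prop := Idl T I ∧ IsNilpotent I

theorem Idl.sup {I J : Submodule F R} (hI : Idl T I) (hJ : Idl T J) : Idl T (I ⊔ J) :=
  ⟨sup_le hI.1 hJ.1, by rw [Submodule.mul_sup]; exact sup_le_sup hI.2.1 hJ.2.1,
    by rw [Submodule.sup_mul]; exact sup_le_sup hI.2.2 hJ.2.2⟩

theorem pow_succ_le (hT : T * T ≤ T) {I : Submodule F R} (h : I ≤ T) (n : ℕ) : I ^ (n + 1) ≤ T := by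
  induction n with
  | zero => simpa using h
  | succ n ih => rw [pow_succ]; exact (mul_le_mul' ih h).trans hT

theorem nil_of_le {I J : Submodule F R} {n : ℕ} (h : I ^ n ≤ J) (hJ : IsNilpotent J) :
    IsNilpotent I := by
  obtain ⟨m, hm⟩ := hJ
  exact ⟨n * m, le_bot_iff.1 (by rw [pow_mul]; exact (pow_le_pow_left' h m).trans hm.le)⟩

theorem NI.sup (hT : T * T ≤ T) {I J : Submodule F R} (hI : NI T I) (hJ : NI T J) :
    NI T (I ⊔ J) := by
  have : ∀ m, (I ⊔ J) ^ (m + 1) ≤ I ⊔ J ^ (m + 1) := fun m => by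
    induction m with
    | zero => simp
    | succ m ih =>
      rw [pow_succ _ (m + 1), pow_succ J (m + 1)]
      refine (mul_le_mul_left ih _).trans ?_
      rw [Submodule.sup_mul, Submodule.mul_sup (J ^ (m + 1))]
      exact sup_le (((mul_le_mul_right (hI.1.sup hJ.1).1 _).trans hI.1.2.2).trans le_sup_left)
        (sup_le_sup_right ((mul_le_mul_left (pow_succ_le hT hJ.1.1 m) _).trans hI.1.2.1) _)
  obtain ⟨n, hn⟩ := hJ.2
  exact ⟨hI.1.sup hJ.1, nil_of_le (by simpa [pow_succ J, hn] using this n) hI.2⟩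

theorem NI.ad [CharZero F] (hT : T * T ≤ T) {I : Submodule F R} (hI : NI T I) {d : R}
    (hd : Nrm d T) : NI T (I ⊔ I.map (ad F d)) := by
  have h0 : Idl T (I ⊔ I.map (Z.ad F d)) := by
    refine Idl.of (sup_le hI.1.1 (by rintro _ ⟨a, ha, rfl⟩; exact hd a (hI.1.1 ha)))
      (fun s hs t ht => ?_) fun t ht s hs => ?_ <;>
    obtain ⟨a, ha, _, ⟨b, hb, rfl⟩, rfl⟩ := mem_sup.1 ht
    · convert add_mem_sup (sub_mem (hI.1.l hs ha) (hI.1.l (hd.ad hs) hb))
        (mem_map_of_mem (f := Z.ad F d) (hI.1.l hs hb)) using 1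
      rw [ad_mul]
      noncomm_ring
    · convert add_mem_sup (sub_mem (hI.1.r ha hs) (hI.1.r hb (hd.ad hs)))
        (mem_map_of_mem (f := Z.ad F d) (hI.1.r hb hs)) using 1
      rw [ad_mul]
      noncomm_ring
  have h1 : ∀ m, ∀ y ∈ (I ⊔ I.map (Z.ad F d)) ^ (m + 1), ∃ x ∈ I ^ (m + 1),
      (∀ i < m + 1, (Z.ad F d ^ i) x ∈ I) ∧ (Z.ad F d ^ (m + 1)) x - y ∈ I := fun m => by
    induction m with
    | zero =>
      simp only [zero_add, pow_one]
      intro y hy
      obtain ⟨a, ha, _, ⟨b, hb, rfl⟩, rfl⟩ := mem_sup.1 hy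
      exact ⟨b, hb, by simpa using hb, by simpa using ha⟩
    | succ m ih =>
      intro y hy
      rw [pow_succ] at hy
      refine Submodule.mul_induction_on hy (fun y hy t ht => ?_) ?_
      · obtain ⟨a, ha, _, ⟨b, hb, rfl⟩, rfl⟩ := mem_sup.1 ht
        obtain ⟨x, hx, h2, h3⟩ := ih y hy
        have hx' := pow_succ_le hT hI.1.1 m hx
        have h5 : ((m + 1 + 1 : ℕ) : F) ≠ 0 := Nat.cast_ne_zero.2 (m + 1).succ_ne_zero
        refine ⟨((m + 1 + 1 : ℕ) : F)⁻¹ • (x * b), smul_mem _ _ (pow_succ I (m + 1) ▸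
          mul_mem_mul hx hb), fun i hi => ?_, ?_⟩
        · rw [map_smul]
          refine smul_mem _ _ ?_
          rcases i with _ | i
          · exact hI.1.l hx' hb
          · simpa using add_mem (add_mem (leibniz hI.1 hd i x b (hI.1.1 hb) fun j hj =>
              h2 j (by omega)) (nsmul_mem (hI.1.r (h2 i (by omega)) (hd.ad (hI.1.1 hb))) (i + 1)))
              (hI.1.l (ad_pow_mem hd (i + 1) x hx') hb)
        · rw [← smul_mem_iff _ h5, map_smul, smul_sub, smul_inv_smul₀ h5, Nat.cast_smul_eq_nsmul]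
          convert add_mem (add_mem (leibniz hI.1 hd (m + 1) x b (hI.1.1 hb) h2)
            (hI.1.l (ad_pow_mem hd (m + 1 + 1) x hx') hb)) (nsmul_mem (sub_mem
              (hI.1.r h3 (hd.ad (hI.1.1 hb))) (hI.1.l (pow_succ_le hT h0.1 m hy) ha)) (m + 1 + 1))
            using 1
          rw [sub_mul, mul_add, nsmul_add, nsmul_sub, nsmul_sub]
          abel
      · rintro y y' ⟨x, hx, h2, h3⟩ ⟨x', hx', h2', h3'⟩
        exact ⟨x + x', add_mem hx hx', fun i hi => by simpa using add_mem (h2 i hi) (h2' i hi), by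
          rw [map_add, add_sub_add_comm]; exact add_mem h3 h3'⟩
  obtain ⟨n, hn⟩ := hI.2
  refine ⟨h0, nil_of_le (n := n + 1) (fun y hy => ?_) hI.2⟩
  obtain ⟨x, hx, -, h3⟩ := h1 n y hy
  rw [pow_succ, hn, zero_mul] at hx
  simpa [(mem_bot F).1 hx] using h3

theorem NI.next [CharZero F] (hT : T * T ≤ T) {D : Set R} (hD : D.Finite) (h1 : ∀ d ∈ D, Nrm d T)
    (I : Submodule F R) (hI : NI T I) :
    ∃ I', NI T I' ∧ I ≤ I' ∧ ∀ d ∈ D, ∀ t ∈ I, d * t - t * d ∈ I' := by
  induction D, hD using Set.Finite.induction_on with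
  | empty => exact ⟨I, hI, le_rfl, by simp⟩
  | @insert d D _ _ ih =>
    obtain ⟨J, hJ, h2, h3⟩ := ih fun x hx => h1 x (Or.inr hx)
    refine ⟨_, hJ.sup hT (hI.ad hT (h1 d (Or.inl rfl))), h2.trans le_sup_left, ?_⟩
    rintro _ (rfl | hd) t ht
    exacts [mem_sup_right (mem_sup_right ⟨t, ht, rfl⟩), mem_sup_left (h3 _ hd t ht)]

/-- The score filtration. -/
def HH (I : ℕ → Submodule F R) (K : ℕ) : ℕ → Submodule F R
  | 0 => ⊤
  | a + 1 => ⨆ j : Fin (K + 1), I (K - j) * HH I K (a - j)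
decreasing_by omega

theorem score {I : ℕ → Submodule F R} (hI : ∀ r, NI T (I r)) (hm : Monotone I)
    {W : Submodule F R} (hW : ∀ r, W * I r ≤ I (r + 1) ⊔ I r * W) (K : ℕ) :
    IsNilpotent (I 0 * W ^ K) := by
  have h1 : ∀ a, T * HH I K (a + 1) ≤ HH I K (a + 1) := fun a => by
    rw [HH, Submodule.mul_iSup]
    exact iSup_mono fun j => by rw [← mul_assoc]; exact mul_le_mul_left (hI _).1.2.1 _
  have h0 : ∀ a j, j ≤ K → I (K - j) * HH I K (a - j) ≤ HH I K (a + 1) := fun a j hj => by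
    rw [HH]
    exact le_iSup (fun j : Fin (K + 1) => I (K - j) * HH I K (a - j)) ⟨j, by omega⟩
  have h2 : ∀ a, W * HH I K a ≤ HH I K (a - 1) := fun a => by
    induction a using Nat.strong_induction_on with
    | _ a ih =>
      rcases a with _ | _ | a
      iterate 2 exact le_top.trans_eq (by simp [HH])
      rw [HH, Submodule.mul_iSup]
      refine iSup_le fun ⟨j, hj⟩ => ?_
      rw [← mul_assoc]
      refine (mul_le_mul_left (hW _) _).trans ?_
      rw [Submodule.sup_mul, mul_assoc]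
      refine sup_le ?_ ((mul_le_mul_right (ih _ (by omega)) _).trans ?_)
      · rcases j with _ | j
        · exact (mul_le_mul_left (hI _).1.1 _).trans (h1 a)
        · refine le_trans (le_of_eq ?_) (h0 a j (by omega))
          congr 2 <;> simp only <;> omega
      · refine le_trans (le_of_eq ?_) (h0 a j (by omega))
        congr 2
        simp only
        omega
  have h3 : ∀ k a, W ^ k * HH I K a ≤ HH I K (a - k) := fun k a => by
    induction k with
    | zero => simp
    | succ k ih => rw [pow_succ', mul_assoc]; exact (mul_le_mul_right ih _).trans (h2 _)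
  have h4 : ∀ m, (I 0 * W ^ K) ^ m ≤ HH I K m := fun m => by
    induction m with
    | zero => simp [HH]
    | succ m ih =>
      rw [pow_succ', mul_assoc]
      exact (mul_le_mul_right ((mul_le_mul_right ih _).trans (h3 K m)) _).trans
        (by simpa using h0 m K le_rfl)
  have h5 : ∀ n a, (K + 1) * n ≤ a → HH I K a ≤ I K ^ n * ⊤ := fun n => by
    induction n with
    | zero => exact fun a _ => by simp
    | succ n ih =>
      intro a ha
      obtain ⟨a, rfl⟩ : ∃ b, a = b + 1 := ⟨a - 1, by rw [mul_add] at ha; omega⟩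
      rw [HH, pow_succ', mul_assoc]
      exact iSup_le fun ⟨j, hj⟩ => mul_le_mul' (hm (Nat.sub_le _ _)) (ih _ (by
        rw [mul_add] at ha; simp only; omega))
  obtain ⟨n, hn⟩ := (hI K).2
  exact ⟨_, le_bot_iff.1 ((h4 _).trans ((h5 n _ le_rfl).trans (by simp [hn])))⟩

theorem fg_le_chain {X : Submodule F R} (hX : X.FG) {f : ℕ → Submodule F R} (hf : Monotone f)
    (h : X ≤ ⨆ i, f i) : ∃ i, X ≤ f i := by
  obtain ⟨_, ⟨i, rfl⟩, h⟩ := (CompleteLattice.isCompactElement_iff_le_of_directed_sSup_le _ X).1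
    ((fg_iff_compact X).1 hX) (Set.range f) (Set.range_nonempty f)
    (directedOn_range.2 hf.directed_le) h
  exact ⟨i, h⟩

theorem nil_case [CharZero F] (hT : T * T ≤ T) {D : Set R} (hD : D.Finite) (h1 : ∀ d ∈ D, Nrm d T)
    {I0 : Submodule F R} (h0 : NI T I0) : ∃ P, I0 ≤ P ∧ Idl T P ∧ (∀ d ∈ D, Nrm d P) ∧
      ∀ X, X.FG → X ≤ P → ∀ k, IsNilpotent (X * (1 ⊔ span F D) ^ k) := by
  choose! nx h2 h3 h4 using NI.next hT hD h1
  have hI : ∀ r, NI T (nx^[r] I0) := fun r => by
    induction r with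
    | zero => exact h0
    | succ r ih => rw [Function.iterate_succ_apply']; exact h2 _ ih
  have hm : Monotone fun r => nx^[r] I0 := monotone_nat_of_le_succ fun r => by
    rw [Function.iterate_succ_apply']; exact h3 _ (hI r)
  refine ⟨⨆ r, nx^[r] I0, le_iSup (fun r => nx^[r] I0) 0, ⟨iSup_le fun r => (hI r).1.1, ?_, ?_⟩,
    fun d hd t ht => ?_, fun X hX h5 k => ?_⟩
  · rw [Submodule.mul_iSup]
    exact iSup_mono fun r => (hI r).1.2.1
  · rw [Submodule.iSup_mul]
    exact iSup_mono fun r => (hI r).1.2.2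
  · obtain ⟨r, hr⟩ := (mem_iSup_of_directed _ hm.directed_le).1 ht
    exact mem_iSup_of_mem (r + 1) (by rw [Function.iterate_succ_apply']; exact h4 _ (hI r) d hd t hr)
  · obtain ⟨r, hr⟩ := fg_le_chain hX hm h5
    refine nil_of_le (n := 1) ?_ (score (I := fun i => nx^[i + r] I0) (fun i => hI _)
      (fun a b h => hm (Nat.add_le_add_right h r)) (W := 1 ⊔ span F D) (fun i => ?_) k)
    · simpa using mul_le_mul_left hr _
    · rw [Submodule.sup_mul, one_mul, Nat.add_right_comm]
      refine sup_le ((hm (Nat.le_succ _)).trans le_sup_left) (span_mul_le fun d hd t ht => ?_)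
      rw [← sub_add_cancel (d * t) (t * d), Function.iterate_succ_apply']
      exact add_mem_sup (h4 _ (hI _) d hd t ht) (mul_mem_mul ht (mem_sup_right (subset_span hd)))

end Pool.Agent.P.MP_2c0ed3_al.Z
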