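import Pool.Agent.P.MP_2c0ed3_al.ZE

set_option autoImplicit false

open Submodule
open scoped Pointwise

namespace Pool.Agent.P.MP_2c0ed3_al.Z

variable {F R : Type*} [Field F] [Ring R] [Algebra F R] {T : Submodule F R}

theorem Adj.mul_le {H L : Submodule F R} (h : H * L ≤ L) : Adj H * L ≤ L :=
  Submodule.mul_le.2 fun x hx => by
    induction hx using Algebra.adjoin_induction with
    | mem x hx => exact fun y hy => h (mul_mem_mul hx hy)
    | algebraMap c => exact fun y hy => by simpa [← Algebra.smul_def] using smul_mem _ c hy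
    | add x y _ _ h2 h3 => exact fun z hz => by simpa [add_mul] using add_mem (h2 z hz) (h3 z hz)
    | mul x y _ _ h2 h3 => exact fun z hz => by simpa [mul_assoc] using h2 _ (h3 z hz)

theorem Adj.le_mul {H L : Submodule F R} (h : L * H ≤ L) : L * Adj H ≤ L :=
  Submodule.mul_le.2 fun z hz x hx => by
    induction hx using Algebra.adjoin_induction generalizing z with
    | mem x hx => exact h (mul_mem_mul hz hx)
    | algebraMap c => simpa [← Algebra.commutes, ← Algebra.smul_def] using smul_mem _ c hz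
    | add x y _ _ h2 h3 => simpa [mul_add] using add_mem (h2 z hz) (h3 z hz)
    | mul x y _ _ h2 h3 => simpa [mul_assoc] using h3 _ (h2 z hz)

theorem fg_le_mul {X P V : Submodule F R} (hX : X.FG) (h : X ≤ P * V) :
    ∃ Y : Submodule F R, Y.FG ∧ Y ≤ P ∧ X ≤ Y * V := by
  obtain ⟨_, ⟨Y, hY, rfl⟩, h⟩ := (CompleteLattice.isCompactElement_iff_le_of_directed_sSup_le _ X).1
    ((fg_iff_compact X).1 hX) ((· * V) '' {Y | Y.FG ∧ Y ≤ P}) ⟨_, ⊥, ⟨fg_bot, bot_le⟩, rfl⟩ (by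
      rintro _ ⟨Y, hY, rfl⟩ _ ⟨Z, hZ, rfl⟩
      exact ⟨_, ⟨Y ⊔ Z, ⟨hY.1.sup hZ.1, sup_le hY.2 hZ.2⟩, rfl⟩, mul_le_mul_left le_sup_left _,
        mul_le_mul_left le_sup_right _⟩)
    (h.trans (mul_le.2 fun p hp v hv => (le_sSup (s := (· * V) '' {Y | Y.FG ∧ Y ≤ P})
      ⟨_, ⟨fg_span (Set.finite_singleton p), (span_singleton_le_iff_mem _ _).2 hp⟩, rfl⟩)
        (mul_mem_mul (mem_span_singleton_self p) hv)))
  exact ⟨Y, hY.1, hY.2, h⟩

theorem key {D : Set R} (hA : Adj (T ⊔ span F D) = ⊤) (h1 : ∀ d ∈ D, Nrm d T)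
    {s : Submodule F R} (hs : s.FG)
    (hmin : ∀ J : Submodule F R, J ≠ ⊥ → ⊤ * J ≤ J → J * ⊤ ≤ J → ∃ n, s ^ n ≤ J)
    {P : Submodule F R} (hP : NZ T P) (h2 : ∀ d ∈ D, Nrm d P) :
    ∃ n k, s ^ n ≤ P * (1 ⊔ span F D) ^ k := by
  have h0 := le_iSup fun k => P * (1 ⊔ span F D) ^ k
  obtain ⟨n, hn⟩ := hmin (⨆ k, P * (1 ⊔ span F D) ^ k)
    (fun h => hP.1 (le_bot_iff.1 (by simpa [h] using h0 0))) (hA ▸ Adj.mul_le (by
      rw [Submodule.mul_iSup]
      refine iSup_le fun k => ?_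
      rw [← mul_assoc, Submodule.sup_mul, Submodule.sup_mul]
      refine sup_le ((mul_le_mul_left hP.2.2.1 _).trans (h0 k)) (le_trans ?_ (h0 (k + 1)))
      rw [pow_succ', ← mul_assoc]
      exact mul_le_mul_left ((mul_le_mul_left le_sup_right _).trans (swap_of_nrm (Nrm.span h2))) _))
    (hA ▸ Adj.le_mul (by
      rw [Submodule.iSup_mul]
      refine iSup_le fun k => ?_
      rw [Submodule.mul_sup, mul_assoc, mul_assoc]
      refine sup_le (le_trans ?_ (h0 k)) (le_trans ?_ (h0 (k + 1)))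
      · refine (mul_le_mul_right (swap_pow (swap_of_nrm (Nrm.span h1)) k) _).trans ?_
        rw [← mul_assoc]
        exact mul_le_mul_left hP.2.2.2 _
      · rw [pow_succ]
        exact mul_le_mul_right (mul_le_mul_right le_sup_right _) _))
  exact ⟨n, fg_le_chain (hs.pow n) (fun a b h => mul_le_mul_right (pow_mono _ h) _) hn⟩

/-- The right annihilator of `I` in `T`. -/
def rann (T I : Submodule F R) : Submodule F R :=
  T ⊓ ⨅ x ∈ I, LinearMap.ker (LinearMap.mulLeft F x)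

theorem rann.mem {I : Submodule F R} {t : R} : t ∈ rann T I ↔ t ∈ T ∧ ∀ x ∈ I, x * t = 0 := by
  simp [rann, mem_iInf]

theorem rann.mul (I : Submodule F R) : I * rann T I ≤ ⊥ :=
  mul_le.2 fun x hx _ ht => (rann.mem.1 ht).2 x hx

theorem rann.le {I J : Submodule F R} (hJ : J ≤ T) (h : I * J = ⊥) : J ≤ rann T I :=
  fun _ ht => rann.mem.2 ⟨hJ ht, fun _ hx => h.le (mul_mem_mul hx ht)⟩

theorem rann.idl (hT : T * T ≤ T) {I : Submodule F R} (hI : Idl T I) : Idl T (rann T I) :=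
  Idl.of inf_le_left (fun s hs t ht => rann.mem.2 ⟨hT (mul_mem_mul hs ht.1), fun x hx => by
    rw [← mul_assoc, (rann.mem.1 ht).2 _ (hI.r hx hs)]⟩)
    fun t ht s hs => rann.mem.2 ⟨hT (mul_mem_mul ht.1 hs), fun x hx => by
      rw [← mul_assoc, (rann.mem.1 ht).2 _ hx, zero_mul]⟩

theorem rann.nrm (hT : T * T ≤ T) (hs : ∀ I, NI T I → I = ⊥) {I : Submodule F R} (hI : Idl T I)
    {d : R} (hd : Nrm d T) : Nrm d (rann T I) := fun t ht => by
  have hJ := rann.idl hT (hI.mul hI)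
  refine rann.le hJ.1 (hs _ ⟨hI.mul hJ, 2, le_bot_iff.1 ?_⟩) (rann.mem.2 ⟨hd t ht.1, fun x hx =>
    Submodule.mul_induction_on hx (fun x hx y hy => ?_) fun x y h1 h2 => by
      rw [add_mul, h1, h2, add_zero]⟩)
  · rw [pow_two, mul_assoc, ← mul_assoc _ I]
    refine (mul_le_mul_right (mul_le_mul_left ((mul_le_mul_left hJ.1 _).trans hI.2.1) _) _).trans ?_
    rw [← mul_assoc]
    exact rann.mul _
  · have h1 := (rann.mem.1 ht).2 _ (hI.r hx (hd y (hI.1 hy)))
    have h2 := (rann.mem.1 ht).2 y hy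
    calc x * y * (d * t - t * d)
        = x * d * (y * t) - x * (y * t) * d - x * (d * y - y * d) * t := by noncomm_ring
      _ = 0 := by simp [h1, h2]

theorem core [CharZero F] (hT : T * T ≤ T) (hL : LN (T : Set R)) {D : Set R}
    (hD : D.Finite) (h1 : ∀ d ∈ D, Nrm d T) (h2 : ∀ j, ∀ z ∈ Cm D j, IsNilpotent z)
    (hA : Adj (T ⊔ span F D) = ⊤) {s : Submodule F R} (hs : s.FG) (hsT : s ≤ T * ⊤)
    (hmin : ∀ J : Submodule F R, J ≠ ⊥ → ⊤ * J ≤ J → J * ⊤ ≤ J → ∃ n, s ^ n ≤ J) :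
    IsNilpotent s := by
  by_contra hn
  have h3 : ∀ P, NZ T P → (∀ d ∈ D, Nrm d P) →
      (∀ X, X.FG → X ≤ P → ∀ k, IsNilpotent (X * (1 ⊔ span F D) ^ k)) → False := fun P hP h3 h4 => by
    obtain ⟨n, k, h5⟩ := key hA h1 hs hmin hP h3
    obtain ⟨X, h6, h7, h8⟩ := fg_le_mul (hs.pow n) h5
    exact hn (nil_of_le h8 (h4 X h6 h7 k))
  have h4 : ∀ I, NI T I → I = ⊥ := fun I hI => by
    by_contra h4
    obtain ⟨P, h5, h6, h7, h8⟩ := nil_case hT hD h1 hI
    exact h3 P ⟨fun h => h4 (le_bot_iff.1 (h ▸ h5)), h6⟩ h7 h8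
  obtain ⟨P, h5, h6, h7⟩ := prime_case ⟨hT, fun h => hn ⟨1, le_bot_iff.1 (by simpa [h] using hsT)⟩,
    fun I J hI hJ h => by
      by_contra! h5
      have hA1 := rann.idl hT hI
      have h6 : rann T I * I = ⊥ := h4 _ ⟨hA1.mul hI, 2, le_bot_iff.1 (by
        rw [pow_two, mul_assoc, ← mul_assoc I]
        simpa using mul_le_mul_right (mul_le_mul_left (rann.mul (T := T) I) I) (rann T I))⟩
      have h7 := fun d hd => rann.nrm hT h4 hA1 (h1 d hd)
      obtain ⟨n, k, h8⟩ := key hA h1 hs hmin ⟨fun h0 => h5.2 (le_bot_iff.1 (h0 ▸ rann.le hJ.1 h)),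
        hA1⟩ fun d hd => rann.nrm hT h4 hI (h1 d hd)
      obtain ⟨m, l, h9⟩ := key hA h1 hs hmin ⟨fun h0 => h5.1 (le_bot_iff.1 (h0 ▸ rann.le hI.1 h6)),
        rann.idl hT hA1⟩ h7
      refine hn ⟨n + m, le_bot_iff.1 ?_⟩
      rw [pow_add]
      refine (mul_le_mul' h8 h9).trans ?_
      rw [mul_assoc, ← mul_assoc _ (rann T (rann T I))]
      refine (mul_le_mul_right (mul_le_mul_left (swap_pow (swap_of_nrm (Nrm.span h7)) k) _) _).trans ?_
      rw [← mul_assoc, ← mul_assoc]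
      simpa using mul_le_mul_left (mul_le_mul_left (rann.mul (T := T) (rann T I)) _) _⟩ hL hD h1 h2
  exact h3 P h5 h6 h7

theorem Cm.image {R' : Type*} [Ring R'] [Algebra F R'] (f : R →ₐ[F] R') (D : Set R) :
    ∀ j, Cm (f '' D) j = f '' Cm D j
  | 0 => rfl
  | j + 1 => by rw [Cm, Cm, Cm.image f D j, Set.image_image2_distrib]; simp

theorem Adj.map {R' : Type*} [Ring R'] [Algebra F R'] (f : R →ₐ[F] R') (H : Submodule F R) :
    Adj (H.map f.toLinearMap) = (Adj H).map f.toLinearMap := by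
  rw [Adj, Adj, ← Subalgebra.map_toSubmodule, AlgHom.map_adjoin]
  rfl

theorem main_top [CharZero F] (hT : T * T ≤ T) (hL : LN (T : Set R)) {D : Set R}
    (hD : D.Finite) (h1 : ∀ d ∈ D, Nrm d T) (h2 : ∀ j, ∀ z ∈ Cm D j, IsNilpotent z)
    (hA : Adj (T ⊔ span F D) = ⊤) {s : Submodule F R} (hs : s.FG) (hsT : s ≤ T * ⊤) :
    IsNilpotent s := by
  by_contra hn
  obtain ⟨m, -, hm⟩ := zorn_le_nonempty₀
    {J : Submodule F R | ⊤ * J ≤ J ∧ J * ⊤ ≤ J ∧ ∀ n, ¬s ^ n ≤ J} (fun c hc h3 y hy => by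
      refine ⟨sSup c, ⟨?_, ?_, fun n h4 => ?_⟩, fun z hz => le_sSup hz⟩
      · rw [sSup_eq_iSup', Submodule.mul_iSup]
        exact iSup_mono fun J => (hc J.2).1
      · rw [sSup_eq_iSup', Submodule.iSup_mul]
        exact iSup_mono fun J => (hc J.2).2.1
      · obtain ⟨J, hJ, h5⟩ := (CompleteLattice.isCompactElement_iff_le_of_directed_sSup_le _ _).1
          ((fg_iff_compact _).1 (hs.pow n)) c ⟨y, hy⟩ h3.directedOn h4
        exact (hc hJ).2.2 n h5) ⊥ ⟨by simp, by simp, fun n h => hn ⟨n, le_bot_iff.1 h⟩⟩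
  let a : Ideal R := ⟨m.toAddSubmonoid, fun c x hx => hm.1.1 (mul_mem_mul trivial hx)⟩
  have : a.IsTwoSided := ⟨fun b hx => hm.1.2.1 (mul_mem_mul hx trivial)⟩
  let f := Ideal.Quotient.mkₐ F a
  have hf : Function.Surjective f := Ideal.Quotient.mkₐ_surjective F a
  have hk : ∀ x, f x = 0 ↔ x ∈ m := fun x => Ideal.Quotient.eq_zero_iff_mem
  have ht : (⊤ : Submodule F R).map f.toLinearMap = ⊤ := by
    rw [Submodule.map_top, LinearMap.range_eq_top]; exact hf
  obtain ⟨n, h3⟩ := core (T := T.map f.toLinearMap) (D := f '' D) (s := s.map f.toLinearMap)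
    (by rw [← Submodule.map_mul]; exact map_mono hT) (fun s' h3 h4 => by
      obtain ⟨u, hu, h5, rfl⟩ :=
        (Set.exists_subset_image_finite_and (f := f) (p := (· = s'))).1 ⟨s', h4, h3, rfl⟩
      obtain ⟨n, hn⟩ := hL u h5 hu
      refine ⟨n, ?_⟩
      rw [← Set.image_pow]
      rintro _ ⟨x, hx, rfl⟩
      rw [hn x hx, map_zero]) (hD.image f) (by
      rintro _ ⟨d, hd, rfl⟩ _ ⟨t, ht, rfl⟩
      exact ⟨_, h1 d hd t ht, by simp⟩) (fun j => by
      rw [Cm.image]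
      rintro _ ⟨z, hz, rfl⟩
      exact (h2 j z hz).map f) (by
      rw [← ht, ← hA, ← Adj.map, Submodule.map_sup, map_span]
      rfl) (hs.map _) (by rw [← ht, ← Submodule.map_mul]; exact map_mono hsT) fun J h3 h4 h5 => by
      by_contra! h6
      have h7 := hm.2 (y := J.comap f.toLinearMap) ⟨mul_le.2 fun x _ y hy => by
        simpa using h4 (mul_mem_mul trivial hy), mul_le.2 fun x hx y _ => by
        simpa using h5 (mul_mem_mul hx trivial), fun n h => h6 n (by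
          rw [← Submodule.map_pow]; exact map_le_iff_le_comap.2 h)⟩
        fun x hx => by simp [(hk x).2 hx]
      refine h3 (le_bot_iff.1 fun y hy => ?_)
      obtain ⟨x, rfl⟩ := hf y
      exact (hk x).2 (h7 hy)
  rw [← Submodule.map_pow] at h3
  exact hm.1.2.2 n fun x hx => (hk x).1 (h3.le ⟨x, hx, rfl⟩)

theorem main_assoc [CharZero F] (hT : T * T ≤ T) (hL : LN (T : Set R)) {D : Set R}
    (hD : D.Finite) (h1 : ∀ d ∈ D, Nrm d T) (h2 : ∀ j, ∀ z ∈ Cm D j, IsNilpotent z)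
    {s : Submodule F R} (hs : s.FG) (hsT : s ≤ T * Adj (T ⊔ span F D)) : IsNilpotent s := by
  let S := Algebra.adjoin F ((T ⊔ span F D : Submodule F R) : Set R)
  let g := S.val
  have hg : Function.Injective g := Subtype.val_injective
  have h3 : ∀ M : Submodule F R, M ≤ Adj (T ⊔ span F D) →
      (M.comap g.toLinearMap).map g.toLinearMap = M := fun M h =>
    map_comap_eq_self fun x hx => ⟨⟨x, h hx⟩, rfl⟩
  have h4 := h3 T (le_sup_left.trans (Adj.le _))
  have h5 := h3 s (hsT.trans ((mul_le_mul_left (le_sup_left.trans (Adj.le _)) _).trans (Adj.mul _)))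
  have h6 : g '' (g ⁻¹' D) = D := Set.image_preimage_eq_of_subset fun x hx =>
    ⟨⟨x, Adj.le _ (mem_sup_right (subset_span hx))⟩, rfl⟩
  have h7 : (⊤ : Submodule F S).map g.toLinearMap = Adj (T ⊔ span F D) := by
    rw [← h3 _ le_rfl]
    exact congrArg _ (eq_top_iff.2 fun x _ => x.2).symm
  obtain ⟨n, hn⟩ := main_top (T := T.comap g.toLinearMap) (D := g ⁻¹' D)
    (s := s.comap g.toLinearMap) (mul_le.2 fun x hx y hy => hT (mul_mem_mul hx hy))
    (fun u h8 h9 => by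
      obtain ⟨n, hn⟩ := hL (g '' u) (h8.image g) (Set.image_subset_iff.2 h9)
      exact ⟨n, fun x hx => hg ((hn _ (Set.image_pow g u n ▸ ⟨x, hx, rfl⟩)).trans (map_zero g).symm)⟩)
    (hD.preimage hg.injOn) (fun d hd t ht => h1 _ hd _ ht) (fun j z hz =>
      (IsNilpotent.map_iff hg).1 (h2 j _ (by rw [← h6, Cm.image]; exact ⟨z, hz, rfl⟩)))
    (map_injective_of_injective (f := g.toLinearMap) hg (by
      rw [← Adj.map, Submodule.map_sup, map_span, h4, h7]
      exact congrArg (fun x => Adj (T ⊔ span F x)) h6))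
    (fg_of_fg_map_injective _ hg (h5.symm ▸ hs))
    ((map_le_map_iff_of_injective (f := g.toLinearMap) hg _ _).1 (by
      rwa [h5, Submodule.map_mul, h4, h7]))
  exact ⟨n, by rw [← h5, ← Submodule.map_pow, hn]; simp⟩

end Pool.Agent.P.MP_2c0ed3_al.Z
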