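import Pool.Agent.P.MP_2c0ed3_al.ZF
import Pool.Agent.P.MP_2c0ed3_al.Lev

set_option autoImplicit false

open Submodule
open scoped Pointwise

namespace Pool.Agent.P.MP_2c0ed3_al.Z

section Assoc

variable {F R : Type*} [Field F] [Ring R] [Algebra F R]

theorem Adj.mono {H G : Submodule F R} (h : H ≤ G) : Adj H ≤ Adj G := Algebra.adjoin_mono h

theorem le_mul_adj (H G : Submodule F R) : H ≤ H * Adj G := fun x hx => by
  simpa using mul_mem_mul hx (Adj.one G)

theorem mul_adj_mul (H G : Submodule F R) : H * Adj G * Adj G ≤ H * Adj G := by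
  rw [mul_assoc]; exact mul_le_mul_right (Adj.mul G) _

theorem adj_mul {H G : Submodule F R} (h : G * H ≤ H * Adj G) : Adj G * (H * Adj G) ≤ H * Adj G :=
  Adj.mul_le (by rw [← mul_assoc]; exact (mul_le_mul_left h _).trans (mul_adj_mul H G))

theorem nil_mul_adj {H G : Submodule F R} (hH : IsNilpotent H) (h : G * H ≤ H * Adj G) :
    IsNilpotent (H * Adj G) := by
  obtain ⟨n, hn⟩ := hH
  exact ⟨n, le_bot_iff.1 ((mul_pow_le ((mul_le_mul_right (le_mul_adj H G) _).trans (adj_mul h))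
    n).trans (by simp [hn]))⟩

theorem nrm_le {H M G : Submodule F R} (h : ∀ y ∈ M, Nrm y H) (hG : M ≤ G) : M * H ≤ H * Adj G :=
  ((mul_le_mul_left le_sup_right _).trans (swap_of_nrm h)).trans
    (mul_le_mul_right (sup_le (one_le.2 (Adj.one G)) (hG.trans (Adj.le G))) _)

theorem nil_step {H : Submodule F R} (hH : IsNilpotent H) {x : R} (hx : IsNilpotent x)
    (h : Nrm x H) : IsNilpotent (H ⊔ span F {x}) := by
  have h1 : (H ⊔ span F {x}) * H ≤ H * Adj (H ⊔ span F {x}) := by
    rw [Submodule.sup_mul]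
    exact sup_le (mul_le_mul_right (le_sup_left.trans (Adj.le _)) _)
      (nrm_le (Nrm.span (by simpa)) le_sup_right)
  have h2 : ∀ m, (H ⊔ span F {x}) ^ m ≤ H * Adj (H ⊔ span F {x}) ⊔ span F {x} ^ m := fun m => by
    induction m with
    | zero => simp
    | succ m ih =>
      rw [pow_succ', pow_succ' (span F {x})]
      refine (mul_le_mul_right ih _).trans ?_
      rw [Submodule.mul_sup, Submodule.sup_mul H _ (_ ^ m)]
      exact sup_le (((mul_le_mul_left (Adj.le _) _).trans (adj_mul h1)).trans le_sup_left)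
        (sup_le_sup_right (mul_le_mul_right ((pow_le_pow_left' (le_sup_right.trans (Adj.le _))
          m).trans (Adj.pow _ m)) _) _)
  obtain ⟨m, hm⟩ := hx
  exact nil_of_le (n := m) (by simpa [span_pow, hm] using h2 m) (nil_mul_adj hH h1)

theorem nil_steps {H : Submodule F R} (hH : IsNilpotent H) {s : Set R} (hs : s.Finite)
    (hN : ∀ e ∈ s, IsNilpotent e) (he : ∀ e ∈ s, ∀ t ∈ H ⊔ span F s, e * t - t * e ∈ H) :
    IsNilpotent (H ⊔ span F s) := by
  induction s, hs using Set.Finite.induction_on with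
  | empty => simpa using hH
  | @insert e s _ _ ih =>
    have h0 : H ⊔ span F s ≤ H ⊔ span F (insert e s) :=
      sup_le_sup_left (span_mono (Set.subset_insert _ _)) _
    have := nil_step (ih (fun x hx => hN x (Or.inr hx)) fun x hx t ht => he x (Or.inr hx) t (h0 ht))
      (hN e (Or.inl rfl)) fun t ht => mem_sup_left (he e (Or.inl rfl) t (h0 ht))
    rwa [span_insert, sup_comm (span F {e}), ← sup_assoc]

theorem nil_of_Cm {D : Set R} (hD : D.Finite) (h2 : ∀ j, ∀ z ∈ Cm D j, IsNilpotent z) {c : ℕ}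
    (hc : ∀ j, c ≤ j → ∀ z ∈ Cm D j, z = 0) : IsNilpotent (span F D) := by
  have h1 : ∀ k i, i + k = c → IsNilpotent (span F {z | ∃ j, i ≤ j ∧ z ∈ Cm D j}) := fun k => by
    induction k with
    | zero =>
      refine fun i hi => ⟨1, le_bot_iff.1 ?_⟩
      rw [pow_one]
      exact span_le.2 fun z ⟨j, hj, hz⟩ => hc j (by omega) z hz
    | succ k ih =>
      intro i hi
      have h3 : span F {z | ∃ j, i ≤ j ∧ z ∈ Cm D j} =
          span F {z | ∃ j, i + 1 ≤ j ∧ z ∈ Cm D j} ⊔ span F (Cm D i) := by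
        rw [← span_union]
        congr 1
        ext z
        refine ⟨fun ⟨j, hj, hz⟩ => ?_, ?_⟩
        · rcases hj.eq_or_lt with rfl | hj
          exacts [Or.inr hz, Or.inl ⟨j, hj, hz⟩]
        · rintro (⟨j, hj, hz⟩ | hz)
          exacts [⟨j, by omega, hz⟩, ⟨i, le_rfl, hz⟩]
      rw [h3]
      refine nil_steps (ih _ (by omega)) (Cm.finite hD i) (h2 i) fun e he t ht => ?_
      rw [← h3] at ht
      refine br_span (s := Cm D i) (fun a ha b hb => ?_) e (subset_span he) t ht
      obtain ⟨j, -, hb⟩ := hb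
      refine span_mono (fun z hz => ?_) (Cm.br D i j a (subset_span ha) b (subset_span hb))
      exact ⟨i + j + 1, by omega, hz⟩
  exact nil_of_le (n := 1) (by
    rw [pow_one]; exact span_mono fun z hz => ⟨0, le_rfl, hz⟩) (h1 c 0 (zero_add c))

theorem fg_le_adj {M P B : Submodule F R} (hM : M.FG) (h : M ≤ P * Adj B) :
    ∃ D : Set R, D.Finite ∧ D ⊆ B ∧ M ≤ P * Adj (span F D) := by
  let c := (fun D : Set R => P * Adj (span F D)) '' {D | D.Finite ∧ D ⊆ B}
  have h1 : ∀ D E : Set R, D ⊆ E → P * Adj (span F D) ≤ P * Adj (span F E) :=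
    fun D E h => mul_le_mul_right (Adj.mono (span_mono h)) _
  have h2 : sSup c * B ≤ sSup c := by
    rw [sSup_eq_iSup', Submodule.iSup_mul, ← sSup_eq_iSup']
    refine iSup_le ?_
    rintro ⟨_, D, hD, rfl⟩
    exact mul_le.2 fun x hx b hb => le_sSup (s := c) ⟨insert b D, ⟨hD.1.insert b,
      Set.insert_subset hb hD.2⟩, rfl⟩ (mul_adj_mul _ _ (mul_mem_mul
        (h1 _ _ (Set.subset_insert b D) hx) (Adj.le _ (subset_span (Or.inl rfl)))))
  obtain ⟨_, ⟨D, hD, rfl⟩, h⟩ := (CompleteLattice.isCompactElement_iff_le_of_directed_sSup_le _ M).1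
    ((fg_iff_compact M).1 hM) c ⟨_, ∅, ⟨Set.finite_empty, Set.empty_subset _⟩, rfl⟩ (by
      rintro _ ⟨D, hD, rfl⟩ _ ⟨E, hE, rfl⟩
      exact ⟨_, ⟨D ∪ E, ⟨hD.1.union hE.1, Set.union_subset hD.2 hE.2⟩, rfl⟩,
        h1 _ _ Set.subset_union_left, h1 _ _ Set.subset_union_right⟩)
    (h.trans ((mul_le_mul_left ((le_mul_adj P _).trans (le_sSup (s := c)
      ⟨∅, ⟨Set.finite_empty, Set.empty_subset _⟩, rfl⟩)) _).trans (Adj.le_mul h2)))
  exact ⟨D, hD.1, hD.2, h⟩

theorem LN.adj {H : Submodule F R} (h : LN (H : Set R)) : LN ((H * Adj H : Submodule F R) : Set R) :=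
  LN_of_nil fun M hM h1 => by
    obtain ⟨D, h2, h3, h4⟩ := fg_le_adj hM h1
    obtain ⟨Y, h5, h6, h7⟩ := fg_le_mul hM h4
    refine nil_of_le (n := 1) ?_ (nil_mul_adj (h.nil (h5.sup (fg_span h2))
      (by rw [span_eq]; exact sup_le h6 (span_le.2 h3))) (mul_le_mul_right (Adj.le _) _))
    rw [pow_one]
    exact h7.trans (mul_le_mul' le_sup_left (Adj.mono le_sup_right))

theorem Nrm.adj {H : Submodule F R} {d : R} (h : Nrm d H) : Nrm d (H * Adj H) := by
  have h1 : Nrm d (Adj H) := fun x hx => by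
    induction hx using Algebra.adjoin_induction with
    | mem x hx => exact Adj.le H (h x hx)
    | algebraMap c => simp [Algebra.commutes]
    | add x y _ _ h2 h3 => convert add_mem h2 h3 using 1; noncomm_ring
    | mul x y hx hy h2 h3 =>
      convert add_mem (Adj.mul H (mul_mem_mul h2 hy)) (Adj.mul H (mul_mem_mul hx h3)) using 1
      noncomm_ring
  refine fun t ht => Submodule.mul_induction_on ht (fun x hx y hy => ?_) fun x y h2 h3 => ?_
  · convert add_mem (mul_mem_mul (h x hx) hy) (mul_mem_mul hx (h1 y hy)) using 1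
    noncomm_ring
  · convert add_mem h2 h3 using 1
    noncomm_ring

theorem main_ideal [CharZero F] {H B : Submodule F R} (hH : LN (H : Set R)) (h1 : ∀ b ∈ B, Nrm b H)
    (h2 : ∀ D : Set R, D ⊆ B → ∀ j, ∀ z ∈ Cm D j, IsNilpotent z) {M : Submodule F R} (hM : M.FG)
    (h : M ≤ H * Adj B) : IsNilpotent M := by
  obtain ⟨D, h3, h4, h5⟩ := fg_le_adj hM h
  refine main_assoc (T := H * Adj H) ?_ hH.adj h3 (fun d hd => (h1 d (h4 hd)).adj) (h2 D h4) hM
    (h5.trans (mul_le_mul' (le_mul_adj H H) (Adj.mono le_sup_right)))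
  exact (mul_le_mul_right ((mul_le_mul_left (Adj.le H) _).trans (Adj.mul H)) _).trans
    (mul_adj_mul H H)

theorem prod_mem_pow {M : Submodule F R} : ∀ l : List R, (∀ x ∈ l, x ∈ M) → l.prod ∈ M ^ l.length
  | [], _ => one_le.1 (pow_zero M).ge
  | a :: l, h => by
    rw [List.prod_cons, List.length_cons, pow_succ']
    exact mul_mem_mul (h a (by simp)) (prod_mem_pow l fun x hx => h x (by simp [hx]))

theorem mul_adj_self (H : Submodule F R) : H * Adj H * (H * Adj H) ≤ H * Adj H :=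
  (mul_le_mul_right ((mul_le_mul_left (Adj.le H) _).trans (Adj.mul H)) _).trans (mul_adj_mul H H)

end Assoc

universe u

variable {F : Type u} [Field F] {A : Type u} [LieRing A] [LieAlgebra F A]

/-- Right multiplication as a linear map. -/
def rm (F : Type u) [Field F] (A : Type u) [LieRing A] [LieAlgebra F A] :
    A →ₗ[F] Module.End F A where
  toFun := rightMul F A
  map_add' a b := LinearMap.ext fun x => lie_add x a b
  map_smul' c a := LinearMap.ext fun x => lie_smul c x a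

theorem rm_apply (a x : A) : rm F A a x = ⁅x, a⁆ := rfl

theorem rm_br (a b : A) : rm F A a * rm F A b - rm F A b * rm F A a = rm F A (-⁅a, b⁆) := by
  ext x
  simp only [LinearMap.sub_apply, Module.End.mul_apply, rm_apply, lie_neg]
  rw [leibniz_lie x a b, ← lie_skew a ⁅x, b⁆]
  abel

theorem Cm_lcs {L : LieSubalgebra F A} {S : Set A} (h : S ⊆ L) : ∀ j, ∀ z ∈ Cm (rm F A '' S) j,
    ∃ y : L, y ∈ LieModule.lowerCentralSeries F L L j ∧ z = rm F A y
  | 0, _, ⟨a, ha, rfl⟩ => ⟨⟨a, h ha⟩, trivial, rfl⟩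
  | j + 1, _, ⟨_, ⟨a, ha, rfl⟩, b, hb, rfl⟩ => by
    obtain ⟨y, hy, rfl⟩ := Cm_lcs h j b hb
    exact ⟨-⁅(⟨a, h ha⟩ : L), y⁆, neg_mem (by
      rw [LieModule.lowerCentralSeries_succ]
      exact LieSubmodule.lie_mem_lie (LieSubmodule.mem_top _) hy), rm_br a y⟩

theorem mem_multAlg (a : A) : rm F A a ∈ multAlg F A := NonUnitalAlgebra.subset_adjoin F ⟨a, rfl⟩

theorem forward [CharZero F] (hA : ∀ x, IsNilpotent (rm F A x)) {I : LieIdeal F A}
    (hI : IsLocNilLieIdeal F A I) {a : A} (ha : a ∈ I) : rm F A a ∈ multRadical F A := by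
  let H := I.toSubmodule.map (rm F A)
  let B := LinearMap.range (rm F A)
  have h1 : LN (H : Set (Module.End F A)) := fun s h1 h2 => by
    obtain ⟨S, hS, hf, rfl⟩ :=
      (Set.exists_subset_image_finite_and (f := rm F A) (p := (· = s))).1 ⟨s, h2, h1, rfl⟩
    obtain ⟨c, hc⟩ := (LieModule.isNilpotent_iff F _ _).1 (hI hf.toFinset fun x hx => hS (by simpa using hx))
    have h3 := Cm_lcs (F := F) (S := S) (L := LieSubalgebra.lieSpan F A hf.toFinset)
      (by simpa using LieSubalgebra.subset_lieSpan)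
    obtain ⟨n, hn⟩ := nil_of_Cm (F := F) h1 (fun j z hz => by
      obtain ⟨y, -, rfl⟩ := h3 j z hz
      exact hA y) (c := c) fun j hj z hz => by
      obtain ⟨y, hy, rfl⟩ := h3 j z hz
      have := LieModule.antitone_lowerCentralSeries _ _ _ hj hy
      rw [hc] at this
      simp [(LieSubmodule.mem_bot y).1 this]
    rw [span_pow] at hn
    exact ⟨n, fun x hx => hn.le (subset_span hx)⟩
  have h2 : ∀ b ∈ B, Nrm b H := by
    rintro _ ⟨b, rfl⟩ _ ⟨x, hx, rfl⟩
    exact ⟨_, neg_mem (lie_mem_right F A I b x hx), (rm_br b x).symm⟩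
  have h3 : ∀ x ∈ multAlg F A, x ∈ Adj B := fun x hx =>
    NonUnitalAlgebra.adjoin_le (S := (Algebra.adjoin F (B : Set (Module.End F A))).toNonUnitalSubalgebra)
      Algebra.subset_adjoin hx
  refine le_sSup (s := {J | IsMultIdeal F A J ∧ IsLocNilAssoc F A J}) (a := H * Adj B)
    ⟨⟨?_, fun x hx b hb => ⟨adj_mul (nrm_le h2 le_rfl) (mul_mem_mul (h3 b hb) hx),
      mul_adj_mul _ _ (mul_mem_mul hx (h3 b hb))⟩⟩, fun s hs => ?_⟩ (le_mul_adj _ _ ⟨a, ha, rfl⟩)
  · refine (mul_le_mul_left (b := H) (c := (multAlg F A).toSubmodule) ?_ _).trans (Adj.le_mul ?_)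
    · rintro _ ⟨x, -, rfl⟩
      exact mem_multAlg x
    · refine mul_le.2 ?_
      rintro x hx _ ⟨b, rfl⟩
      exact mul_mem (S := NonUnitalSubalgebra F _) hx (mem_multAlg b)
  · obtain ⟨n, hn⟩ := nil_mul_adj (main_ideal h1 h2 (fun D hD j z hz => by
      obtain ⟨S, rfl⟩ : ∃ S, rm F A '' S = D := ⟨_, Set.image_preimage_eq_of_subset hD⟩
      obtain ⟨y, -, rfl⟩ := Cm_lcs (L := ⊤) (fun _ _ => trivial) j z hz
      exact hA y) (fg_span s.finite_toSet) (span_le.2 hs)) (mul_le_mul_right (Adj.le _) _)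
    refine ⟨n + 1, n.succ_pos, fun l h4 h5 => ?_⟩
    have := prod_mem_pow (M := span F (s : Set (Module.End F A)) * Adj (span F s)) l
      fun x hx => NonUnitalAlgebra.adjoin_le (S := toNonUnitalSubalgebra _
      fun _ _ hx hy => mul_adj_self (span F (s : Set (Module.End F A))) (mul_mem_mul hx hy))
      (fun y hy => le_mul_adj _ _ (subset_span hy)) (h5 x hx)
    rwa [h4, pow_succ, hn, zero_mul] at this

/-- The elements whose right multiplication lies in the radical. -/
def KK (F : Type u) [Field F] (A : Type u) [LieRing A] [LieAlgebra F A] : LieIdeal F A where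
  toSubmodule := (multRadical F A).comap (rm F A)
  lie_mem := fun {x a} ha => by
    have : ∀ y ∈ multRadical F A, rm F A x * y - y * rm F A x ∈ multRadical F A := fun y hy => by
      rw [multRadical, sSup_eq_iSup'] at hy
      refine Submodule.iSup_induction (motive := fun y =>
        rm F A x * y - y * rm F A x ∈ multRadical F A) _ hy ?_ (by simp) fun y z h1 h2 => ?_
      · rintro ⟨J, hJ⟩ z hz
        have := hJ.1.2 z hz _ (mem_multAlg x)
        exact le_sSup (s := {J | IsMultIdeal F A J ∧ IsLocNilAssoc F A J}) hJ (sub_mem this.1 this.2)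
      · convert add_mem h1 h2 using 1
        noncomm_ring
    have h := this _ ha
    rwa [rm_br, map_neg, neg_mem_iff] at h

theorem backward : IsLocNilLieIdeal F A (KK F A) := fun s hs => by
  obtain ⟨J, -, h1, h2⟩ : ∃ J, IsMultIdeal F A J ∧ LNil J ∧ ∀ x ∈ s, rm F A x ∈ J := by
    classical
    induction s using Finset.induction_on with
    | empty => simpa using (exists_ideal_of_mem_multRadical (zero_mem _)).imp fun _ h => ⟨h.1, h.2.1⟩
    | insert a s _ ih =>
      obtain ⟨J, h1, h2, h3⟩ := ih fun x hx => hs x (by simp [hx])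
      obtain ⟨K, h4, h5, h6⟩ := exists_ideal_of_mem_multRadical (hs a (by simp))
      refine ⟨_, h1.sup h4, h2.sup h1 h4 h5, fun x hx => ?_⟩
      rcases Finset.mem_insert.1 hx with rfl | hx
      exacts [mem_sup_right h6, mem_sup_left (h3 x hx)]
  obtain ⟨m, hm⟩ := h1 _ (s.finite_toSet.image (rm F A)) (by rintro _ ⟨x, hx, rfl⟩; exact h2 x hx)
  obtain ⟨n, hn⟩ := nil_mul_adj (H := span F (rm F A '' s)) ⟨m, le_bot_iff.1 (by
    rw [span_pow]
    refine span_le.2 fun x hx => ?_
    obtain ⟨f, rfl⟩ := Set.mem_pow.1 hx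
    refine hm _ (by simp) fun y hy => ?_
    obtain ⟨i, rfl⟩ := List.mem_ofFn.1 hy
    exact (f i).2)⟩ (mul_le_mul_right (Adj.le _) _)
  set M := span F (rm F A '' s) * Adj (span F (rm F A '' s))
  have h3 : ∀ x ∈ LieSubalgebra.lieSpan F A s, rm F A x ∈ M := fun x hx =>
    (LieSubalgebra.lieSpan_le (K := ⟨M.comap (rm F A), fun {a b} ha hb => by
      have h := sub_mem (mul_adj_self _ (mul_mem_mul ha hb)) (mul_adj_self _ (mul_mem_mul hb ha))
      rwa [rm_br, map_neg, neg_mem_iff] at h⟩)).2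
      (fun y hy => le_mul_adj _ _ (subset_span ⟨y, hy, rfl⟩)) hx
  have h4 : ∀ j i, n ≤ i + j → ∀ φ ∈ M ^ i, ∀ y ∈ LieModule.lowerCentralSeries F
      (LieSubalgebra.lieSpan F A s) (LieSubalgebra.lieSpan F A s) j, φ y = 0 := fun j => by
    induction j with
    | zero =>
      intro i hi φ hφ y _
      rw [pow_eq_zero_of_le (n := i) hi hn] at hφ
      simp [(mem_bot F).1 hφ]
    | succ j ih =>
      intro i hi φ hφ y hy
      rw [LieModule.lowerCentralSeries_succ, ← LieSubmodule.mem_toSubmodule,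
        LieSubmodule.lieIdeal_oper_eq_linear_span'] at hy
      refine span_le (p := LinearMap.ker (φ ∘ₗ (LieSubalgebra.lieSpan F A s).toSubmodule.subtype)).2
        ?_ hy
      rintro _ ⟨x, -, z, hz, rfl⟩
      have := ih (i + 1) (by omega) _ (pow_succ M i ▸ mul_mem_mul hφ (h3 x x.2)) z hz
      rw [Module.End.mul_apply, rm_apply, ← lie_skew, map_neg, neg_eq_zero] at this
      exact this
  exact (LieModule.isNilpotent_iff F _ _).2 ⟨n, (LieSubmodule.eq_bot_iff _).2 fun y hy =>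
    Subtype.ext (h4 n 0 (by omega) 1 (one_le.1 (pow_zero M).ge) y hy)⟩

theorem charZero_case [CharZero F]
    (hA : ∀ x : A, ∃ n : ℕ, 1 ≤ n ∧ ∀ y : A, (fun z : A => ⁅z, x⁆)^[n] y = 0) (a : A) :
    a ∈ lieRadical F A ↔ rightMul F A a ∈ multRadical F A := by
  refine ⟨fun h => (sSup_le fun I hI b hb => forward (fun x => ?_) hI hb : lieRadical F A ≤ KK F A) h,
    fun h => le_sSup (s := {I | IsLocNilLieIdeal F A I}) backward h⟩
  obtain ⟨n, -, hn⟩ := hA x
  exact ⟨n, LinearMap.ext fun y => (Module.End.pow_apply _ n y).trans (hn y)⟩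

end Pool.Agent.P.MP_2c0ed3_al.Z
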